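import Pool.Agent.Lib.MP_d6ddbd_nt.GO.Stmt
import Pool.Agent.Lib.MP_d6ddbd_nt.KI.Fin

/-!
Density one for the twists of `X₀(11)`: the algorithm is right for almost all twists.
-/

set_option autoImplicit false

open Filter Topology
open Pool.Agent.Lib.MP_d6ddbd_nt.K11 Pool.Agent.Lib.MP_d6ddbd_nt.KI

namespace Pool.Agent.Lib.MP_d6ddbd_nt.GO

/-- A property that follows from the bound fails for few members of the family. -/
theorem den_of (h : OneStmt) {B : ℤ → Prop} (hB : ∀ d, Fam d → Bd d → B d) :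
    Tendsto (fun X : ℕ => (({d : ℤ | |d| ≤ X ∧ Squarefree d ∧ d % 4 = 1 ∧ ¬ (11 : ℤ) ∣ d ∧
      ¬ B d}.ncard : ℕ) : ℝ) / X) atTop (𝓝 0) := by
  refine squeeze_zero (fun X => by positivity) (fun X => ?_)
    (h.comp tendsto_natCast_atTop_atTop)
  refine div_le_div_of_nonneg_right ?_ (Nat.cast_nonneg X)
  rw [cnt, Nat.cast_le, ← Set.ncard_coe_finset]
  refine Set.ncard_le_ncard (fun d ⟨a, b, c, e, f⟩ => ?_) (Finset.finite_toSet _)
  simp only [Finset.mem_coe, Finset.mem_filter, Finset.mem_Icc, Int.floor_natCast]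
  exact ⟨abs_le.1 a, ⟨b, c, e⟩, fun g => f (hB d ⟨b, c, e⟩ g)⟩

theorem fin_of (h : OneStmt) : ∃ A : ℤ → Bool × Bool, Computable A ∧
    (∀ d : ℤ, (A d).2 = true → ((Tw d).Infinite ↔ (A d).1 = true)) ∧
    (∀ d : ℤ, Fam d → ((A d).1 = true ↔ jacobiSym (-11) d.natAbs = -1) ∧
      (∀ k : ℕ, (MP_02f36d_nt.X11.Sel (MP_02f36d_nt.X11.Wd d) (2 ^ k)).encard < 4 ^ k →
        ((Tw d).Infinite ↔ (A d).1 = true)) ∧
      ((MP_02f36d_nt.X11.Sel (MP_02f36d_nt.X11.Wd d) 2).encard < 4 → (A d).2 = true)) ∧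
    Tendsto (fun X : ℕ => (({d : ℤ | |d| ≤ X ∧ Squarefree d ∧ d % 4 = 1 ∧ ¬ (11 : ℤ) ∣ d ∧
      ¬ ((Tw d).Infinite ↔ (A d).1 = true)}.ncard : ℕ) : ℝ) / X) atTop (𝓝 0) := by
  obtain ⟨A, h1, h2, h3⟩ := KI.fin_thm
  exact ⟨A, h1, h2, h3, den_of h fun d f b => (KI.mainAll d f b).trans (h3 d f).1.symm⟩

end Pool.Agent.Lib.MP_d6ddbd_nt.GO
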