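import Pool.Agent.Lib.MP_d6ddbd_nt.GO.Alg0

/-!
The interface of the algebraic half gives what the counting needs.
-/

set_option autoImplicit false

open Finset Matrix
open Pool.Agent.Lib.MP_d6ddbd_nt.K11 Pool.Agent.Lib.MP_d6ddbd_nt.KI

noncomputable section

namespace Pool.Agent.Lib.MP_d6ddbd_nt.GA

/-- Two independent divisible classes give two independent kernel vectors. -/
def KerT : Prop := ∀ (K r : ℕ) (Q : Fin r → ℕ) (d : ℤ), 2 ≤ K → Val K Q d →
  2 ^ (K - 1) • mat K Q d = 0 ∧ (¬ Two d (K - 1) → ∃ u u' : Fin r → ZMod (2 ^ K),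
    mat K Q d *ᵥ u = 0 ∧ mat K Q d *ᵥ u' = 0 ∧ Ind (bit 0 ∘ u) (bit 0 ∘ u'))

/-- The leading term of the alternating sum, with a modulus free of the primes in direction `b`. -/
def CubeT : Prop := ∀ (K r : ℕ) (Q : Fin r → ℕ) (d : ℤ) (n : ℕ) (P : Fin n → Finset ℕ)
  (π π' : Fin n → ℕ) (J : Finset (Fin n)) (a b : Fin n) (u y : Fin r → ZMod (2 ^ K)) (M : ℕ),
  M = mz d Q (Function.update π b 1) (Function.update π' b 1) →
  Cell K Q d P → (∀ i, π i ∈ P i) → (∀ i, π' i ∈ P i) → a ∈ J → b ∈ J → a ≠ b → J.card < K →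
  (∀ i ∈ J, i ≠ a → i ≠ b → π i ≠ π' i) → Ind (bit 0 ∘ u) (bit 0 ∘ y) →
  ∃ (U : Subgroup G) (σ : ℕ → G), Op (16 ^ 2 ^ n) M U ∧
    (∀ p ∈ P b, ¬ p ∣ M → σ p ∈ U ∧ ∃ O, Ov O p ∧ Frob O p (σ p)) ∧
    ∀ l ∈ P a, ¬ l ∣ M →
      (∀ i, 2 ^ (K - J.card) •
        (y i * (df (mat K Q) d π (Function.update π' a l) (J.erase b) *ᵥ u) i +
          (y ᵥ* df (mat K Q) d π (Function.update π' a l) (J.erase b)) i * u i) = 0) →
      ∃ η : G → ZMod 2, GG.Chr U M l η ∧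
        ∀ p ∈ P b, ∀ p' ∈ P b, ¬ p ∣ M → ¬ p' ∣ M →
          2 ^ (K - J.card - 1) • (y ⬝ᵥ df (mat K Q) d (Function.update π b p)
              (Function.update (Function.update π' a l) b p') J *ᵥ u) =
            2 ^ (K - 1) * ((η (σ p) + η (σ p')).val : ZMod (2 ^ K))

end Pool.Agent.Lib.MP_d6ddbd_nt.GA

namespace Pool.Agent.Lib.MP_d6ddbd_nt.GO

namespace Alg1

open Alg0

theorem df_congr {n : ℕ} {M : Type} [AddCommGroup M] (x : ℤ → M) (d : ℤ) (S : Finset (Fin n))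
    (p : Fin n → ℕ) {q q' : Fin n → ℕ} (h : ∀ i ∈ S, q i = q' i) :
    GA.df x d p q S = GA.df x d p q' S :=
  sum_congr rfl fun t ht => by
    rw [GA.vx, GA.vx, prod_congr rfl fun i _ => show GF.pst (if i ∈ t then q i else p i) =
      GF.pst (if i ∈ t then q' i else p i) by
        split_ifs with e
        · rw [h i (mem_powerset.1 ht e)]
        · rfl]

/-- The prime factors of the modulus. -/
theorem dvd_mz {n r : ℕ} {d : ℤ} {Q : Fin r → ℕ} {p p' : Fin n → ℕ} {S : Finset (Fin n)}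
    {b : Fin n} {v : ℕ} (hv : v.Prime)
    (h : v ∣ GA.mz d Q (Function.update p b 1) (Function.update (mix S p p') b 1)) :
    v ∣ 22 * d.natAbs * ∏ i, Q i ∨ ∃ i, i ≠ b ∧ (v ∣ p i ∨ i ∈ S ∧ v ∣ p' i) := by
  refine (hv.dvd_mul.1 h).imp_right fun e => ?_
  obtain ⟨i, -, e⟩ := (Prime.dvd_finsetProd_iff hv.prime _).1 e
  by_cases hi : i = b
  · subst hi
    simp only [Function.update_self, mul_one] at e
    exact absurd e hv.not_dvd_one
  rw [Function.update_of_ne hi, Function.update_of_ne hi, mix] at e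
  refine ⟨i, hi, (hv.dvd_mul.1 e).elim Or.inl fun e => ?_⟩
  split_ifs at e with m
  exacts [Or.inr ⟨m, e⟩, Or.inl e]

theorem tp (hC : GA.CubeT) {n r : ℕ} {d : ℤ} {Q : Fin r → ℕ} {P : Fin n → Finset ℕ}
    (hP : Cell d (univ.image Q) P) (hP' : GA.Cell (n + 1) Q d P) {x y : Vec (n + 1) r}
    (hxy : Ind x y) {J : Finset (Fin n)} {a b : Fin n} (hb : b ∈ J) (ha : a ∈ J) (hab : b ≠ a)
    {p p' : Fin n → ℕ} (hp : ∀ i, p i ∈ P i) (hp' : ∀ i, p' i ∈ P i)
    (hD : Dis ((J.erase b).erase a) p p') :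
    Tp (16 ^ 2 ^ n) (md d (univ.image Q) J b a p p') P (fun p => GA.mat (n + 1) Q (dd d p)) x y J
      b a p p' := by
  classical
  have hv := hP'.val p hp
  set S := (J.erase b).erase a with hS
  have hq : ∀ i, mix S p p' i ∈ P i := fun i => by
    unfold mix
    split_ifs
    exacts [hp' i, hp i]
  have m : ∀ i ∈ J, i ≠ a → i ≠ b → i ∈ S := fun i h1 h2 h3 =>
    mem_erase.2 ⟨h2, mem_erase.2 ⟨h3, h1⟩⟩
  obtain ⟨U, σ, h1, h2, h3⟩ := hC (n + 1) r Q d n P p (mix S p p') J a b x y _ rfl hP' hp hq ha hb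
    hab.symm ((card_le_univ J).trans_lt (by simp)) (fun i h1 h2 h3 => by
      rw [mix, if_pos (m i h1 h2 h3)]; exact hD i (m i h1 h2 h3)) ((ind_iff n.succ_ne_zero x y).1 hxy)
  set M := GA.mz d Q (Function.update p b 1) (Function.update (mix S p p') b 1) with hM
  have k1 : ∀ v : ℕ, v.Prime → v ∣ M → v ∣ md d (univ.image Q) J b a p p' := fun v hv' e => by
    rw [md, prod_image fun i _ j _ e => inj hv e]
    rcases dvd_mz hv' e with e | ⟨i, hi, e | ⟨hi', e⟩⟩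
    · exact (e.mul_right _).mul_right _
    · exact ((e.trans (dvd_prod_of_mem _ (mem_erase.2 ⟨hi, mem_univ i⟩))).mul_left _).mul_right _
    · exact (e.trans (dvd_prod_of_mem _ hi')).mul_left _
  have k2 : ∀ j, ∀ v ∈ P j, j ∉ S → (j ≠ b → v ≠ p j) → ¬ v ∣ M := fun j v hj hjS hne e => by
    have t := hP.ty j v hj
    have k : ∀ i, ∀ w ∈ P i, v ∣ w → j = i ∧ v = w := fun i w hw e => by
      have e' := (Nat.prime_dvd_prime_iff_eq t.1 (hP.ty i w hw).1).1 e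
      exact ⟨by_contra fun n => disjoint_left.1 (hP.dj j i n) hj (e' ▸ hw), e'⟩
    rcases dvd_mz t.1 e with e | ⟨i, hi, e | ⟨hi', e⟩⟩
    · rcases t.1.dvd_mul.1 e with e | e
      · rcases t.1.dvd_mul.1 e with e | e
        · rcases (t.1.dvd_mul (m := 2) (n := 11)).1 e with e | e
          · exact (t3 t).n2 ((Nat.prime_dvd_prime_iff_eq t.1 Nat.prime_two).1 e)
          · exact (t3 t).n11 ((Nat.prime_dvd_prime_iff_eq t.1 (by norm_num)).1 e)
        · exact t.2.2 (Int.natCast_dvd.2 e)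
      · obtain ⟨i, -, e⟩ := (Prime.dvd_finsetProd_iff t.1.prime _).1 e
        have := (hv.kg i).ty
        rw [← (Nat.prime_dvd_prime_iff_eq t.1 (hv.kg i).pr).1 e, t.2.1] at this
        exact zero_ne_one this
    · obtain ⟨rfl, e'⟩ := k i _ (hp i) e
      exact hne hi e'
    · exact hjS ((k i _ (hp' i) e).1 ▸ hi')
  have kb : ∀ v ∈ P b, ¬ v ∣ M := fun v hv' => k2 b v hv' (by simp [hS]) fun e => absurd rfl e
  have up : ∀ l, ∀ i ∈ J.erase b, Function.update p' a l i = Function.update (mix S p p') a l i :=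
    fun l i hi => by
      by_cases e : i = a
      · rw [e, Function.update_self, Function.update_self]
      · rw [Function.update_of_ne e, Function.update_of_ne e, mix, if_pos (mem_erase.2 ⟨e, hi⟩)]
  have key : ∀ l, ∃ η : G → ZMod 2, l ∈ P a → l ≠ p a → Obs J.card y
      (cb (J.erase b) (fun p => GA.mat (n + 1) Q (dd d p)) p (Function.update p' a l)) x →
      GG.Chr U (md d (univ.image Q) J b a p p') l η ∧
        Top P (fun p => GA.mat (n + 1) Q (dd d p)) x y J b a p p' l fun v => η (σ v) := by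
    intro l
    by_cases e : l ∈ P a ∧ l ≠ p a ∧ Obs J.card y
      (cb (J.erase b) (fun p => GA.mat (n + 1) Q (dd d p)) p (Function.update p' a l)) x
    swap
    · exact ⟨0, fun e1 e2 e3 => absurd ⟨e1, e2, e3⟩ e⟩
    obtain ⟨e1, e2, e3⟩ := e
    rw [cb_eq, df_congr _ _ _ _ (up l)] at e3
    obtain ⟨η, c1, c2⟩ := h3 l e1 (k2 a l e1 (by simp [hS]) fun _ => e2) e3
    refine ⟨η, fun _ _ _ => ⟨⟨c1.mul, c1.fin, fun v O g hv' n => c1.unr v O g hv' fun e => n ?_,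
      c1.ram⟩, fun v hv1 w hw1 _ => ?_⟩⟩
    · rcases hv'.dvd_mul.1 e with e | e
      · rcases hv'.dvd_mul.1 e with e | e
        · exact (e.mul_right _).mul_right _
        · exact ((k1 v hv' e).mul_left _).mul_right _
      · exact e.mul_left _
    · rw [cb_eq, Nat.sub_right_comm, df_congr _ _ _ _
        (q' := Function.update (Function.update (mix S p p') a l) b w) fun i hi => ?_]
      · exact c2 v hv1 w hw1 (kb v hv1) (kb w hw1)
      · by_cases e : i = b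
        · rw [e, Function.update_self, Function.update_self]
        · rw [Function.update_of_ne e, Function.update_of_ne e, up l i (mem_erase.2 ⟨e, hi⟩)]
  choose θ hθ using key
  exact ⟨U, σ, θ, h1.opn, h1.le, fun v O g hv' n => h1.ine v O g hv' fun e => n (k1 v hv' e),
    fun v hv' => h2 v hv' (kb v hv'), hθ⟩

end Alg1

open Alg0 Alg1 in
theorem alg_of (h1 : GA.KgStmt) (h2 : GA.SimStmt) (h3 : GA.ValStmt) (h4 : GA.InvStmt)
    (h5 : GA.KerT) (h6 : GA.DvStmt) (h7 : GA.CubeT) : AlgStmt := by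
  classical
  intro n hn
  obtain ⟨J₀, hJ, hJ'⟩ := h1 (n + 1)
  obtain ⟨C, hC⟩ := h3
  refine ⟨16 ^ 2 ^ n, C + 11, GA.Kg (n + 1),
    fun d Q => ∃ (r : ℕ) (Q' : Fin r → ℕ), univ.image Q' = Q ∧ GA.Val (n + 1) Q' d, J₀, hJ,
    fun q O φ hq hC => hJ' q O φ hq (by omega) (by omega), fun q h => h.ty,
    fun L _ _ θ hθ d S hd h => ?_, ?_, fun d P Q hd hP hV => ?_⟩
  · obtain ⟨r, Q, a, b, c⟩ := hC L θ hθ (n + 1) d S n.succ_ne_zero hd fun α e1 e2 e3 => by
      obtain ⟨q, q1, -, q2⟩ := h α (((lAll L θ hθ d hd).1 α).2 ⟨e1, e2⟩) e3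
      exact ⟨q, q1, q2⟩
    refine ⟨univ.image Q, fun q hq => ?_, card_image_le.trans (by simp; omega), fun q hq => ?_,
      r, Q, rfl, c⟩ <;> obtain ⟨i, -, rfl⟩ := mem_image.1 hq
    exacts [b i, ⟨(c.kg i).pr, c.kg i⟩]
  · rintro d P Q hd hP p hp p' hp' ⟨r, Q', e, h⟩
    exact ⟨r, Q', e, move h2 h4 hd.sf hP (Fintype.mem_piFinset.1 hp) (Fintype.mem_piFinset.1 hp') h⟩
  rcases (Fintype.piFinset P).eq_empty_or_nonempty with e | ⟨p₀, hp₀⟩
  · refine ⟨0, 0, Nat.zero_le _, ⟨?_, ?_, fun J => ?_⟩, fun x y _ J a b _ _ _ => ?_⟩ <;>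
      simp [e]
  obtain ⟨r, Q, rfl, hv⟩ := hV p₀ hp₀
  have hP' : GA.Cell (n + 1) Q d P := ⟨fun i p hp => t3 (hP.ty i p hp),
    sim h2 hd.sf.ne_zero (fun i => (hv.kg i).pr) hP,
    fun p hp => move h2 h4 hd.sf (cell0 hP) (Fintype.mem_piFinset.1 hp₀) hp hv⟩
  refine ⟨r, fun p => GA.mat (n + 1) Q (dd d p), by
    rw [card_image_of_injective _ (inj hv)]; simp, ⟨fun p hp => ?_, fun p hp e => ?_,
    fun J p hp p' hp' _ => h6 (n + 1) r Q d n P p p' J (by omega) hP' (Fintype.mem_piFinset.1 hp)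
      (Fintype.mem_piFinset.1 hp')⟩, fun x y hxy J b a hb ha hab p hp p' hp' hD =>
    tp h7 hP hP' hxy hb ha hab (Fintype.mem_piFinset.1 hp) (Fintype.mem_piFinset.1 hp') hD⟩
  · exact (h5 _ r Q _ (by omega) (hP'.val p (Fintype.mem_piFinset.1 hp))).1
  · obtain ⟨u, u', a, b, c⟩ := (h5 _ r Q _ (by omega) (hP'.val p (Fintype.mem_piFinset.1 hp))).2 e
    exact ⟨u, u', (ind_iff n.succ_ne_zero u u').2 c, a, b⟩

end Pool.Agent.Lib.MP_d6ddbd_nt.GO
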