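import Pool.Agent.Lib.MP_d6ddbd_nt.GO.Defs
import Pool.Agent.Lib.MP_d6ddbd_nt.GA.Iface
import Pool.Agent.Lib.MP_d6ddbd_nt.K11.AllX

/-!
The dictionary between the two descriptions of cells, cubes and independent vectors.
-/

set_option autoImplicit false

open Finset
open Pool.Agent.Lib.MP_d6ddbd_nt.K11 Pool.Agent.Lib.MP_d6ddbd_nt.KI

noncomputable section

namespace Pool.Agent.Lib.MP_d6ddbd_nt.GO

namespace Alg0

theorem nr_ne {l : ℕ} (hl : l ≠ 0) (x : ZMod l) (hx : fc x = 0) : nr l ≠ 0 := by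
  have := NeZero.mk hl
  have : Nonempty {x : ZMod l // fc x = 0} := ⟨⟨x, hx⟩⟩
  exact Nat.card_pos.ne'

theorem t3 {d : ℤ} {p : ℕ} (h : T3 d p) : GA.T3 p :=
  ⟨h.1, fun e => nr_ne two_ne_zero 0 (by unfold fc; decide) (e ▸ h.2.1),
    fun e => nr_ne (l := 11) (by norm_num) 8 (by unfold fc; decide) (e ▸ h.2.1), h.2.1⟩

theorem top_iff {K : ℕ} (hK : K ≠ 0) (a b : ZMod (2 ^ K)) :
    2 ^ (K - 1) • a = 2 ^ (K - 1) • b ↔ GA.bit 0 a = GA.bit 0 b := by
  obtain ⟨k, rfl⟩ := Nat.exists_eq_succ_of_ne_zero hK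
  simp only [GA.bit, pow_zero, Nat.div_one, Nat.succ_sub_one]
  rw [ZMod.natCast_eq_natCast_iff, ← ZMod.natCast_zmod_val a, ← ZMod.natCast_zmod_val b,
    nsmul_eq_mul, nsmul_eq_mul, ← Nat.cast_mul, ← Nat.cast_mul, ZMod.natCast_eq_natCast_iff,
    ZMod.natCast_zmod_val, ZMod.natCast_zmod_val]
  exact Nat.ModEq.mul_left_cancel_iff' (c := 2 ^ k) (by positivity)

theorem ind_iff {K r : ℕ} (hK : K ≠ 0) (x y : Vec K r) :
    Ind x y ↔ GA.Ind (GA.bit 0 ∘ x) (GA.bit 0 ∘ y) := by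
  have h : ∀ u v : Vec K r, 2 ^ (K - 1) • u = 2 ^ (K - 1) • v ↔ GA.bit 0 ∘ u = GA.bit 0 ∘ v :=
    fun u v => by simp only [funext_iff, Pi.smul_apply, top_iff hK, Function.comp]
  have h0 : ∀ u : Vec K r, 2 ^ (K - 1) • u = 0 ↔ GA.bit 0 ∘ u = 0 := fun u => by
    have := h u 0
    rwa [smul_zero, show GA.bit 0 ∘ (0 : Vec K r) = 0 from funext fun _ => by simp [GA.bit]] at this
  simp only [Ind, GA.Ind, ne_eq, h, h0]

theorem cb_eq {n : ℕ} {M : Type} [AddCommGroup M] (x : ℤ → M) (d : ℤ) (J : Finset (Fin n))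
    (p p' : Fin n → ℕ) : cb J (fun p => x (dd d p)) p p' = GA.df x d p p' J := rfl

theorem dd_eq {n : ℕ} (d : ℤ) (p : Fin n → ℕ) : dd d p = GA.dd d p := rfl

theorem abs_pst (p : ℕ) : (GF.pst p).natAbs = p := by
  simp [GF.pst, Int.natAbs_mul, Int.natAbs_pow]

theorem sf {n : ℕ} {d : ℤ} {Q : Finset ℕ} {P : Fin n → Finset ℕ} (hd : Squarefree d)
    (h : Cell d Q P) {p : Fin n → ℕ} (hp : ∀ i, p i ∈ P i) : Squarefree (dd d p) := by
  rw [← Int.squarefree_natAbs, dd, Int.natAbs_mul, show (∏ i, GF.pst (p i)).natAbs = ∏ i, p i by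
    simpa only [abs_pst, Int.natAbsHom_apply] using
      map_prod Int.natAbsHom (fun i => GF.pst (p i)) univ]
  refine (Nat.squarefree_mul (Nat.Coprime.prod_right fun i _ => ?_)).2
    ⟨Int.squarefree_natAbs.2 hd, Finset.squarefree_prod_of_pairwise_isCoprime
      (fun i _ j _ e => ?_) fun i _ => (h.ty i _ (hp i)).1.squarefree⟩
  · exact ((Nat.Prime.coprime_iff_not_dvd (h.ty i _ (hp i)).1).2 fun e =>
      (h.ty i _ (hp i)).2.2 (Int.natCast_dvd.2 e)).symm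
  · refine Nat.coprime_iff_isRelPrime.1 ((Nat.coprime_primes (h.ty i _ (hp i)).1
      (h.ty j _ (hp j)).1).2 fun e' => ?_)
    exact Finset.disjoint_left.1 (h.dj i j e) (hp i) (e' ▸ hp j)

theorem odd {d : ℤ} {p : ℕ} (h : T3 d p) : Odd p := h.1.odd_of_ne_two (t3 h).n2

theorem sim (hS : GA.SimStmt) {n r : ℕ} {d : ℤ} {Q : Fin r → ℕ} {P : Fin n → Finset ℕ} (hd : d ≠ 0)
    (hQ : ∀ i, (Q i).Prime) (h : Cell d (univ.image Q) P) (i : Fin n) (p : ℕ) (hp : p ∈ P i)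
    (p' : ℕ) (hp' : p' ∈ P i) : GA.Sim (GA.md d Q) p p' := by
  have s := h.sy i p hp p' hp'
  refine hS _ p p' (odd (h.ty i p hp)) (odd (h.ty i p' hp')) (s _ (by simp [gens]))
    (s _ (by simp [gens])) fun l hl _ e => s _ ?_
  have pl := Nat.prime_iff_prime_int.1 hl
  rcases pl.dvd_or_dvd e with e | e
  · rcases pl.dvd_or_dvd e with e | e
    · have : l = 11 := (Nat.prime_dvd_prime_iff_eq hl (by norm_num)).1 (by exact_mod_cast e)
      simp [gens, this]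
    · exact mem_union_right _ (mem_image_of_mem _ (mem_union_left _ (Nat.mem_primeFactors.2
        ⟨hl, Int.natCast_dvd.1 e, Int.natAbs_ne_zero.2 hd⟩)))
  · obtain ⟨j, -, e⟩ := (Prime.dvd_finsetProd_iff pl _).1 e
    have : l = Q j := (Nat.prime_dvd_prime_iff_eq hl (hQ j)).1 (by exact_mod_cast e)
    exact mem_union_right _ (mem_image_of_mem _ (mem_union_right _
      (this ▸ mem_image_of_mem _ (mem_univ j))))

theorem sim0 (hS : GA.SimStmt) {n : ℕ} {d : ℤ} {P : Fin n → Finset ℕ} (hd : d ≠ 0)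
    (h : Cell d ∅ P) (i : Fin n) (p : ℕ) (hp : p ∈ P i) (p' : ℕ) (hp' : p' ∈ P i) :
    GA.Sim (11 * d) p p' := by
  have := sim hS (r := 0) (Q := Fin.elim0) hd (fun i => i.elim0) (by simpa using h) i p hp p' hp'
  simpa [GA.md] using this

theorem cell0 {n : ℕ} {d : ℤ} {Q : Finset ℕ} {P : Fin n → Finset ℕ} (h : Cell d Q P) :
    Cell d ∅ P :=
  ⟨h.ty, h.dj, fun i p hp p' hp' e he => h.sy i p hp p' hp' e
    (union_subset_union Subset.rfl (image_subset_image (union_subset_union Subset.rfl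
      (empty_subset _))) he)⟩

theorem inj {K r : ℕ} {Q : Fin r → ℕ} {d : ℤ} (h : GA.Val K Q d) : Function.Injective Q := by
  intro i j e
  obtain ⟨x, -, hx⟩ := h.sur i
  have a := hx i
  rw [e, hx j, if_pos rfl] at a
  by_contra n
  rw [if_neg fun e' => n e'.symm] at a
  exact zero_ne_one a

theorem move (hS : GA.SimStmt) (hI : GA.InvStmt) {K n r : ℕ} {d : ℤ} {Q : Fin r → ℕ}
    {P : Fin n → Finset ℕ} (hd : Squarefree d) (h : Cell d ∅ P) {p p' : Fin n → ℕ}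
    (hp : ∀ i, p i ∈ P i) (hp' : ∀ i, p' i ∈ P i) (hv : GA.Val K Q (dd d p)) :
    GA.Val K Q (dd d p') :=
  hI K r Q d (Fin n) p p' hv (sf hd h hp') fun i =>
    ⟨t3 (h.ty i _ (hp i)), t3 (h.ty i _ (hp' i)), sim0 hS hd.ne_zero h i _ (hp i) _ (hp' i)⟩

end Alg0

end Pool.Agent.Lib.MP_d6ddbd_nt.GO
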