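import Pool.Agent.Lib.MP_d6ddbd_nt.GA.Act
import Pool.Agent.Lib.MP_d6ddbd_nt.GA.Bas
import Pool.Agent.Lib.MP_d6ddbd_nt.GA.Bit
import Pool.Agent.Lib.MP_d6ddbd_nt.GA.Bsp
import Pool.Agent.Lib.MP_d6ddbd_nt.GA.Core
import Pool.Agent.Lib.MP_d6ddbd_nt.GA.Cube
import Pool.Agent.Lib.MP_d6ddbd_nt.GA.Det
import Pool.Agent.Lib.MP_d6ddbd_nt.GA.Dim
import Pool.Agent.Lib.MP_d6ddbd_nt.GA.Div
import Pool.Agent.Lib.MP_d6ddbd_nt.GA.Ds
import Pool.Agent.Lib.MP_d6ddbd_nt.GA.Eta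
import Pool.Agent.Lib.MP_d6ddbd_nt.GA.Gw
import Pool.Agent.Lib.MP_d6ddbd_nt.GA.Inj
import Pool.Agent.Lib.MP_d6ddbd_nt.GA.Inv
import Pool.Agent.Lib.MP_d6ddbd_nt.GA.Ker
import Pool.Agent.Lib.MP_d6ddbd_nt.GA.KgSim
import Pool.Agent.Lib.MP_d6ddbd_nt.GA.Ld
import Pool.Agent.Lib.MP_d6ddbd_nt.GA.Lift
import Pool.Agent.Lib.MP_d6ddbd_nt.GA.Loc
import Pool.Agent.Lib.MP_d6ddbd_nt.GA.Lq
import Pool.Agent.Lib.MP_d6ddbd_nt.GA.N3
import Pool.Agent.Lib.MP_d6ddbd_nt.GA.Nrm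
import Pool.Agent.Lib.MP_d6ddbd_nt.GA.Opt
import Pool.Agent.Lib.MP_d6ddbd_nt.GA.Pt
import Pool.Agent.Lib.MP_d6ddbd_nt.GA.RecN
import Pool.Agent.Lib.MP_d6ddbd_nt.GA.Sq
import Pool.Agent.Lib.MP_d6ddbd_nt.GA.Sur
import Pool.Agent.Lib.MP_d6ddbd_nt.GA.T3
import Pool.Agent.Lib.MP_d6ddbd_nt.GA.Th
import Pool.Agent.Lib.MP_d6ddbd_nt.GA.Top
import Pool.Agent.Lib.MP_d6ddbd_nt.GA.Un
import Pool.Agent.Lib.MP_d6ddbd_nt.GA.Val
import Pool.Agent.Lib.MP_d6ddbd_nt.GO.One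
import Pool.Agent.Lib.MP_d6ddbd_nt.GO.Fin

/-!
Density one for the twists of `X₀(11)`: assembly.
-/

set_option autoImplicit false

namespace Pool.Agent.Lib.MP_d6ddbd_nt.GO

open GA in
theorem algI : GA.I2Stmt := by
  have hN := norm_thm'
  have hU := un_thm
  have hT := t3_thm hN hU
  have hR := rel_thm' hT
  have hL := ld_thm
  have hQ := lq_thm hU
  have hI := inj_thm hN hL recn_thm hQ hU
  have hD := ds_thm hL recn_thm hQ hU hI (GA.det_thm hN)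
  have hF := lift_thm hL (loc_thm hU) pt_thm' hU
  have hB := bas_thm hN hL hQ hD hF
  have hV := div_thm hL sq_thm hU hR hI hB mob_thm
  have hO := opt_thm hL sq_thm hU hB mob_thm hV
  have h3 := n3_thm hN hT act_thm
  have hP := bsp_thm hL recn_thm hQ hU hI act_thm h3
  exact ⟨kg_thm, sim_thm, val_thm hL gw_thm dim_thm (dual_thm hL hQ), inv_thm sq_thm hR hU,
    ker2_thm hN hL hQ hU hI hB, dv_thm hL hB hV, cube2_thm (core_thm sq_thm hV hO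
      (bit_thm hL hQ hB act_thm hV hO) h3 hP (eta_thm recn_thm hU act_thm h3 hP hL)
      (top_thm hL recn_thm hQ sq_thm hU hI act_thm h3) (sur_thm hL hQ act_thm) (u_thm act_thm h3)
      (th_thm hU act_thm h3))⟩

/-- The bound holds for almost all members of the family. -/
theorem oneAll : OneStmt := one_of algI

end Pool.Agent.Lib.MP_d6ddbd_nt.GO
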