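import Pool.Agent.Lib.MP_d6ddbd_nt.GO.Stmt

/-!
The box norm inequality: repeated Cauchy-Schwarz over a product of finite sets.
-/

set_option autoImplicit false

open Finset
open scoped Classical

noncomputable section

namespace Pool.Agent.Lib.MP_d6ddbd_nt.GO

namespace Cs

/-- The mean over a finite set. -/
def mn {β : Type} (s : Finset β) (f : β → ℂ) : ℂ := (∑ u ∈ s, f u) / s.card

theorem av_eq {n : ℕ} {α : Type} (Z : Fin n → Finset α) (F : (Fin n → α) → ℂ) :
    av Z F = mn (Fintype.piFinset Z) F := rfl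

theorem mn_congr {β : Type} {s : Finset β} {f g : β → ℂ} (h : ∀ u ∈ s, f u = g u) :
    mn s f = mn s g := by
  unfold mn; rw [Finset.sum_congr rfl h]

theorem mn_const {β : Type} {s : Finset β} (hs : s.Nonempty) (c : ℂ) :
    mn s (fun _ => c) = c := by
  have h : (s.card : ℂ) ≠ 0 := by exact_mod_cast hs.card_pos.ne'
  unfold mn; rw [Finset.sum_const, nsmul_eq_mul]; field_simp

theorem mn_comm {β γ : Type} (s : Finset β) (t : Finset γ) (f : β → γ → ℂ) :
    mn s (fun a => mn t (f a)) = mn t (fun b => mn s fun a => f a b) := by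
  unfold mn
  simp only [← Finset.sum_div]
  rw [Finset.sum_comm, div_div, div_div, mul_comm]

/-- Cauchy-Schwarz for means. -/
theorem mn_sq {β : Type} (s : Finset β) (f : β → ℂ) :
    ‖mn s f‖ ^ 2 ≤ (∑ u ∈ s, ‖f u‖ ^ 2) / s.card := by
  rcases s.eq_empty_or_nonempty with rfl | hs
  · simp [mn]
  have h : (0 : ℝ) < s.card := by exact_mod_cast hs.card_pos
  have h1 : ‖∑ u ∈ s, f u‖ ≤ ∑ u ∈ s, ‖f u‖ := norm_sum_le _ _
  have h2 : (∑ u ∈ s, ‖f u‖) ^ 2 ≤ s.card * ∑ u ∈ s, ‖f u‖ ^ 2 := sq_sum_le_card_mul_sum_sq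
  have h3 : ‖∑ u ∈ s, f u‖ ^ 2 ≤ (∑ u ∈ s, ‖f u‖) ^ 2 := pow_le_pow_left₀ (norm_nonneg _) h1 2
  unfold mn
  rw [norm_div, Complex.norm_natCast, div_pow, div_le_div_iff₀ (by positivity) h]
  nlinarith [mul_le_mul_of_nonneg_right (h3.trans h2) h.le]

theorem ec_sub {K : ℕ} (a b : ZMod (2 ^ K)) : ec (a - b) = ec a * (starRingEnd ℂ) (ec b) := by
  unfold ec
  rw [sub_eq_add_neg, AddChar.map_add_eq_mul, AddChar.map_neg_eq_conj]

/-- The square of the norm of a mean of phases. -/
theorem mn_ec {K : ℕ} {β : Type} (s : Finset β) (g : β → ZMod (2 ^ K)) :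
    (mn s fun u => mn s fun u' => ec (g u - g u')) = ((‖mn s fun u => ec (g u)‖ ^ 2 : ℝ) : ℂ) := by
  rw [Complex.ofReal_pow, ← Complex.mul_conj']
  unfold mn
  simp only [ec_sub, map_div₀, map_sum, map_natCast, ← Finset.mul_sum, mul_div_assoc,
    ← Finset.sum_mul]
  ring

/-- Changing one coordinate at random does not change the mean. -/
theorem inv_sum {n : ℕ} {α : Type} (Z : Fin n → Finset α) (i : Fin n) (F : (Fin n → α) → ℂ) :
    ∑ z ∈ Fintype.piFinset Z, ∑ u ∈ Z i, F (Function.update z i u) =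
      ∑ z ∈ Fintype.piFinset Z, ∑ _u ∈ Z i, F z := by
  rw [← Finset.sum_product', ← Finset.sum_product']
  have hm : ∀ x ∈ Fintype.piFinset Z ×ˢ Z i,
      (Function.update x.1 i x.2, x.1 i) ∈ Fintype.piFinset Z ×ˢ Z i := by
    intro x hx
    rw [Finset.mem_product, Fintype.mem_piFinset] at hx ⊢
    refine ⟨fun j => ?_, hx.1 i⟩
    by_cases hj : j = i
    · subst hj; simpa using hx.2
    · simpa [Function.update_of_ne hj] using hx.1 j
  refine Finset.sum_nbij' (fun x => (Function.update x.1 i x.2, x.1 i))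
    (fun x => (Function.update x.1 i x.2, x.1 i)) hm hm ?_ ?_ ?_
  · intro x _; simp
  · intro x _; simp
  · intro x _; rfl

theorem inv_mn {n : ℕ} {α : Type} (Z : Fin n → Finset α) (i : Fin n) (hi : (Z i).Nonempty)
    (F : (Fin n → α) → ℂ) :
    mn (Fintype.piFinset Z) F =
      mn (Fintype.piFinset Z) fun z => mn (Z i) fun u => F (Function.update z i u) := by
  have h : ((Z i).card : ℂ) ≠ 0 := by exact_mod_cast hi.card_pos.ne'
  unfold mn
  rw [← Finset.sum_div, inv_sum]
  simp only [Finset.sum_const, nsmul_eq_mul, ← Finset.mul_sum]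
  rw [mul_div_cancel_left₀ _ h]

theorem cb_empty {n : ℕ} {α M : Type} [AddCommGroup M] (F : (Fin n → α) → M)
    (p p' : Fin n → α) : cb ∅ F p p' = F p := by
  have : mix ∅ p p' = p := by funext j; simp [mix]
  simp [cb, this]

theorem cb_insert {n : ℕ} {α M : Type} [AddCommGroup M] {J : Finset (Fin n)} {i : Fin n}
    (hi : i ∉ J) (F : (Fin n → α) → M) (p p' : Fin n → α) :
    cb (insert i J) F p p' = cb J F p p' - cb J F (Function.update p i (p' i)) p' := by
  unfold cb
  rw [Finset.sum_powerset_insert hi, sub_eq_add_neg, ← Finset.sum_neg_distrib]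
  congr 1
  refine Finset.sum_congr rfl fun T hT => ?_
  have hT' : i ∉ T := fun h => hi (Finset.mem_powerset.mp hT h)
  have : mix (insert i T) p p' = mix T (Function.update p i (p' i)) p' := by
    funext j
    by_cases hj : j = i
    · subst hj; simp [mix]
    · simp [mix, hj]
  rw [this, Finset.card_insert_of_notMem hT', pow_succ, mul_neg_one, neg_smul]

theorem cb_update {n : ℕ} {α M : Type} [AddCommGroup M] {J : Finset (Fin n)} {i : Fin n}
    (hi : i ∉ J) (F : (Fin n → α) → M) (p p' : Fin n → α) (u : α) :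
    cb J F p (Function.update p' i u) = cb J F p p' := by
  unfold cb
  refine Finset.sum_congr rfl fun T hT => ?_
  have : mix T p (Function.update p' i u) = mix T p p' := by
    funext j
    by_cases hj : j ∈ T
    · have : j ≠ i := fun h => hi (h ▸ Finset.mem_powerset.mp hT hj)
      simp [mix, hj, this]
    · simp [mix, hj]
  rw [this]

/-- One step of the induction. -/
theorem step {n K : ℕ} {α : Type} (Z : Fin n → Finset α) (Φ : (Fin n → α) → ZMod (2 ^ K))
    {J : Finset (Fin n)} {i : Fin n} (hi : i ∉ J) (hZ : (Z i).Nonempty) :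
    ‖av Z fun z => av Z fun z' => ec (cb J Φ z z')‖ ^ 2 ≤
      ‖av Z fun z => av Z fun z' => ec (cb (insert i J) Φ z z')‖ := by
  simp only [av_eq]
  set S := Fintype.piFinset Z with hS
  set H : (Fin n → α) → (Fin n → α) → ℂ :=
    fun z z' => mn (Z i) fun u => ec (cb J Φ (Function.update z i u) z') with hH
  have e1 : (mn S fun z => mn S fun z' => ec (cb J Φ z z')) = mn S fun z => mn S (H z) := by
    rw [inv_mn Z i hZ]
    exact mn_congr fun z _ => mn_comm _ _ _
  have e2 : (mn S fun z => mn S fun z' => ec (cb (insert i J) Φ z z')) =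
      mn S fun z => mn S fun z' => ((‖H z z'‖ ^ 2 : ℝ) : ℂ) := by
    have a1 : ∀ z, (mn S fun z' => ec (cb (insert i J) Φ z z')) = mn S fun z' =>
        mn (Z i) fun u' => ec (cb J Φ z z' - cb J Φ (Function.update z i u') z') := by
      intro z
      rw [inv_mn Z i hZ]
      refine mn_congr fun z' _ => mn_congr fun u' _ => ?_
      rw [cb_insert hi, cb_update hi, cb_update hi, Function.update_self]
    simp only [a1]
    rw [inv_mn Z i hZ]
    refine mn_congr fun z _ => ?_
    rw [mn_comm]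
    refine mn_congr fun z' _ => ?_
    simp only [Function.update_idem]
    exact mn_ec (Z i) fun u => cb J Φ (Function.update z i u) z'
  have e3 : (mn S fun z => mn S fun z' => ((‖H z z'‖ ^ 2 : ℝ) : ℂ)) =
      (((∑ z ∈ S, (∑ z' ∈ S, ‖H z z'‖ ^ 2) / S.card) / S.card : ℝ) : ℂ) := by
    unfold mn; push_cast; rfl
  rw [e1, e2, e3, Complex.norm_real]
  refine le_trans ?_ (le_abs_self _)
  refine (mn_sq _ _).trans (div_le_div_of_nonneg_right ?_ (Nat.cast_nonneg _))
  exact Finset.sum_le_sum fun z _ => mn_sq _ _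

end Cs

theorem cs_thm : CsStmt := by
  intro n K α Z Φ J hZ
  induction J using Finset.induction_on with
  | empty =>
    have hS : (Fintype.piFinset Z).Nonempty := Fintype.piFinset_nonempty.mpr hZ
    simp only [Cs.cb_empty, Cs.av_eq, Cs.mn_const hS, Finset.card_empty, pow_zero, pow_one, le_refl]
  | insert i J hi ih =>
    rw [Finset.card_insert_of_notMem hi, pow_succ, pow_mul]
    exact (pow_le_pow_left₀ (by positivity) ih 2).trans (Cs.step Z Φ hi (hZ i))

end Pool.Agent.Lib.MP_d6ddbd_nt.GO
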