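import Pool.Agent.Lib.MP_d6ddbd_nt.GO.Stmt

/-!
The bound in a cell of one colour.
-/

set_option autoImplicit false

open Finset
open scoped Classical

noncomputable section

namespace Pool.Agent.Lib.MP_d6ddbd_nt.GO

namespace CubeL

variable {n K r : ℕ}

/-- The matrix with changed signs. -/
def tw (γ : Fin r → ZMod 2) (M : Mat K r) : Mat K r :=
  fun i l => (-1) ^ (γ i).val * M i l * (-1) ^ (γ l).val

theorem sgn_mul {R : Type} [CommRing R] {m : ℕ} {a : R} (h : (m * 2) • a = 0) (e : ℕ) :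
    m • ((-1) ^ e * a) = m • a := by
  rcases neg_one_pow_eq_or R e with h1 | h1 <;> rw [h1]
  · rw [one_mul]
  · simp only [nsmul_eq_mul, Nat.cast_mul, Nat.cast_ofNat] at h ⊢
    linear_combination -h

theorem tw_smul {γ : Fin r → ZMod 2} {M : Mat K r} {m : ℕ} (h : (m * 2) • M = 0) :
    m • tw γ M = m • M := by
  ext i l
  have h1 : (m * 2) • M i l = 0 := congrFun (congrFun h i) l
  have h2 : tw γ M i l = (-1) ^ ((γ i).val + (γ l).val) * M i l := by
    rw [tw, pow_add]
    ring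
  rw [Matrix.smul_apply, Matrix.smul_apply, h2, sgn_mul h1]

theorem tw_vec (γ : Fin r → ZMod 2) (M : Mat K r) (x : Vec K r) :
    (tw γ M).mulVec x = sv γ (M.mulVec (sv γ x)) := by
  funext i
  simp only [Matrix.mulVec, dotProduct, sv, tw, Finset.mul_sum, mul_assoc]

theorem sv_sv (γ : Fin r → ZMod 2) (x : Vec K r) : sv γ (sv γ x) = x := by
  funext i
  rw [sv, sv, ← mul_assoc, ← mul_pow, neg_one_mul, neg_neg, one_pow, one_mul]

theorem sv_zero (γ : Fin r → ZMod 2) : sv γ (0 : Vec K r) = 0 := by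
  funext i
  simp [sv]

theorem bf_tw (γ : Fin r → ZMod 2) (M : Mat K r) (x y : Vec K r) (m : ℕ) :
    bf (m • y) (tw γ M) x = m • bf (sv γ y) M (sv γ x) := by
  rw [bf, bf, tw_vec, smul_dotProduct]
  congr 1
  refine Finset.sum_congr rfl fun i _ => ?_
  simp only [sv]
  ring

theorem sv_top (γ : Fin r → ZMod 2) (x : Vec (n + 1) r) : 2 ^ n • sv γ x = 2 ^ n • x := by
  funext i
  refine sgn_mul ?_ _
  rw [← pow_succ, nsmul_eq_mul, ZMod.natCast_self, zero_mul]

theorem ind_sv (γ : Fin r → ZMod 2) {v w : Vec (n + 1) r} (h : Ind v w) :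
    Ind (sv γ v) (sv γ w) := by
  simpa only [Ind, Nat.add_sub_cancel, sv_top] using h

theorem sum_ZZ (P : Fin n → Finset ℕ) (i₀ : Fin n) (f : (Fin n → ℕ) → ℝ) :
    ∑ z ∈ Fintype.piFinset (ZZ r P i₀), f (fun i => (z i).1) =
      2 ^ r * ∑ p ∈ Fintype.piFinset P, f p := by
  have h : ∑ z ∈ Fintype.piFinset (ZZ r P i₀), f (fun i => (z i).1) =
      ∑ q ∈ Fintype.piFinset P ×ˢ (univ : Finset (Fin r → ZMod 2)), f q.1 := by
    refine Finset.sum_nbij' (fun z => (fun i => (z i).1, (z i₀).2))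
      (fun q i => (q.1 i, if i = i₀ then q.2 else 0)) ?_ ?_ ?_ ?_ fun _ _ => rfl
    · intro z hz
      simp only [Fintype.mem_piFinset, ZZ, mem_product] at hz ⊢
      exact ⟨fun i => (hz i).1, mem_univ _⟩
    · intro q hq
      simp only [Fintype.mem_piFinset, ZZ, mem_product] at hq ⊢
      refine fun i => ⟨hq.1 i, ?_⟩
      split_ifs <;> simp
    · intro z hz
      simp only [Fintype.mem_piFinset, ZZ, mem_product] at hz
      funext i
      refine Prod.ext rfl ?_
      have := (hz i).2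
      by_cases hi : i = i₀
      · simp [hi]
      · simp only [hi, if_false, mem_singleton] at this ⊢
        exact this.symm
    · intro q _
      simp
  rw [h, sum_product]
  simp [mul_sum]

theorem av_le {α : Type} (Z : Fin n → Finset α) (Φ : (Fin n → α) → ZMod (2 ^ K)) :
    ‖av Z fun z => ec (Φ z)‖ ≤ 1 := by
  rw [av, norm_div, Complex.norm_natCast]
  refine div_le_one_of_le₀ ((norm_sum_le _ _).trans (le_of_eq ?_)) (Nat.cast_nonneg _)
  simp [ec]

theorem re_le {α : Type} {Z : Fin n → Finset α} {F : (Fin n → α) → ℂ} {a : ℝ}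
    (h0 : ∀ i, (Z i).Nonempty) (h : ‖av Z F‖ ≤ a) :
    ∑ z ∈ Fintype.piFinset Z, (F z).re ≤ a * (Fintype.piFinset Z).card := by
  have h1 : (0 : ℝ) < (Fintype.piFinset Z).card :=
    Nat.cast_pos.2 (Fintype.piFinset_nonempty.2 h0).card_pos
  rw [av, norm_div, Complex.norm_natCast, div_le_iff₀ h1] at h
  rw [← Complex.re_sum]
  exact (Complex.re_le_norm _).trans h

end CubeL

open CubeL in
theorem cube_thm (h1 : KerStmt) (h2 : CsStmt) (h3 : SgnStmt) : CubeStmt := by
  intro n r P B A δ a hn hF hc hδ ha hδa hS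
  have hP : ∀ i, (P i).Nonempty := fun i => by
    by_contra h
    have := hδ i
    rw [not_nonempty_iff_eq_empty.1 h] at this
    norm_num at this
  obtain ⟨p₀, hp₀⟩ := Fintype.piFinset_nonempty.2 hP
  obtain ⟨Y, c, hc1, hY, hA⟩ := h1 (n + 1) r (A p₀) (by omega) (hF.ev p₀ hp₀)
  let i₀ : Fin n := ⟨0, by omega⟩
  let i₁ : Fin n := ⟨1, by omega⟩
  have hne : i₀ ≠ i₁ := fun h => by simpa [i₀, i₁] using congrArg Fin.val h
  have hZ : ∀ i, (ZZ r P i₀ i).Nonempty := fun i => (hP i).product (by split_ifs <;> simp)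
  set Z := Fintype.piFinset (ZZ r P i₀) with hZd
  let F : Vec (n + 1) r × Vec (n + 1) r → (Fin n → ℕ × (Fin r → ZMod 2)) → ℝ :=
    fun t z => (ec (bf t.2 (tw (z i₀).2 (A fun i => (z i).1)) t.1)).re
  have k1 : ∀ z ∈ Z, (if B fun i => (z i).1 then (1 : ℝ) else 0) ≤
      16 / 2 ^ n + ∑ t ∈ Y, c t * F t z := by
    intro z hz
    have hp : (fun i => (z i).1) ∈ Fintype.piFinset P := by
      simp only [hZd, Fintype.mem_piFinset, ZZ, mem_product] at hz ⊢
      exact fun i => (hz i).1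
    have e1 : n + 1 - 2 = n - 1 := by omega
    have e2 : 2 ^ (n - 1) * 2 = 2 ^ (n + 1 - 1) := by
      rw [← pow_succ]
      congr 1
      omega
    obtain ⟨k0, k⟩ := hA (tw (z i₀).2 (A fun i => (z i).1)) (by
      rw [e1, tw_smul (e2 ▸ hF.ev _ hp)]
      exact hc _ hp _ hp₀)
    have e3 : (32 : ℝ) / 2 ^ (n + 1) = 16 / 2 ^ n := by
      rw [pow_succ]
      field_simp
      norm_num
    rw [e3] at k0 k
    split_ifs with hB
    · obtain ⟨v, w, h, hv, hw⟩ := hF.ker _ hp hB
      exact k ⟨_, _, ind_sv (z i₀).2 h, by rw [tw_vec, sv_sv, hv, sv_zero],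
        by rw [tw_vec, sv_sv, hw, sv_zero]⟩
    · exact k0
  have k2 : ∀ t ∈ Y, ∑ z ∈ Z, F t z ≤ a * Z.card := by
    intro t ht
    obtain ⟨k, y, hk2, hk, hi, e⟩ := hY t ht
    obtain ⟨J, hJ, -, rfl⟩ := exists_subsuperset_card_eq (subset_univ {i₀, i₁})
      (n := k) (card_le_two.trans hk2) (by simpa using hk)
    have e' : F t = fun z => (ec (Ph A i₀ J.card t.1 y z)).re := by
      funext z
      simp only [F, e, bf_tw, Ph]
    rw [e']
    refine re_le hZ ?_
    have j0 : i₀ ∈ J := hJ (by simp)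
    have j1 : i₁ ∈ J := hJ (by simp)
    have k3 := ((h2 n (n + 1) _ (ZZ r P i₀) (Ph A i₀ J.card t.1 y) J hZ).trans
      (h3 n (n + 1) r P B A t.1 y J i₀ i₁ δ hF j0 j1 hne hk hδ
        (hS _ _ hi J i₀ i₁ j0 j1 hne))).trans hδa
    refine (pow_le_pow_iff_left₀ (norm_nonneg _) ha (n := 2 ^ n) (by positivity)).1
      (le_trans ?_ k3)
    exact pow_le_pow_of_le_one (norm_nonneg _) (av_le _ _) (Nat.pow_le_pow_right two_pos hk)
  have k4 : (Y.card : ℝ) ≤ 4 ^ ((n + 1) * r) := by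
    have := card_le_univ Y
    simp only [Fintype.card_prod, Fintype.card_pi, ZMod.card, prod_const, card_univ,
      Fintype.card_fin] at this
    rw [← pow_mul, ← mul_pow] at this
    exact_mod_cast this
  have k5 : ∑ t ∈ Y, c t * ∑ z ∈ Z, F t z ≤ 4 ^ ((n + 1) * r) * (a * Z.card) := by
    have h0 : 0 ≤ a * Z.card := by positivity
    refine (sum_le_card_nsmul Y _ (a * Z.card) fun t ht => ?_).trans ?_
    · exact (mul_le_mul_of_nonneg_left (k2 t ht) (hc1 t).1).trans
        (mul_le_of_le_one_left h0 (hc1 t).2)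
    · rw [nsmul_eq_mul]
      exact mul_le_mul_of_nonneg_right k4 h0
  have k6 := sum_le_sum k1
  rw [sum_ZZ P i₀ fun p => if B p then (1 : ℝ) else 0, sum_add_distrib, sum_comm, sum_const,
    nsmul_eq_mul, sum_boole] at k6
  simp only [← mul_sum] at k6
  have k7 : (Z.card : ℝ) = 2 ^ r * (Fintype.piFinset P).card := by
    simpa only [sum_const, nsmul_eq_mul, mul_one] using sum_ZZ (r := r) P i₀ fun _ => 1
  rw [Bnd, add_zero]
  refine le_of_mul_le_mul_left ?_ (show (0 : ℝ) < 2 ^ r by positivity)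
  refine k6.trans ((add_le_add_right k5 _).trans (le_of_eq ?_))
  rw [k7]
  ring

end Pool.Agent.Lib.MP_d6ddbd_nt.GO
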