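import Pool.Agent.Lib.MP_d6ddbd_nt.GO.Stmt

/-!
Density one for the twists of `X₀(11)`: almost all twists are detected by the pool.
-/

set_option autoImplicit false

open Finset Filter Topology NumberField
open Pool.Agent.Stark (Pr og)
open Pool.Agent.Lib.MP_d6ddbd_nt.K11 Pool.Agent.Lib.MP_d6ddbd_nt.KI
open scoped Classical

noncomputable section

namespace Pool.Agent.Lib.MP_d6ddbd_nt.GO

namespace Det

theorem cnt_le3 (X : ℝ) {B B₁ B₂ B₃ : ℤ → Prop} (h : ∀ d, B d → B₁ d ∨ B₂ d ∨ B₃ d) :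
    cnt X B ≤ cnt X B₁ + cnt X B₂ + cnt X B₃ := by
  unfold cnt
  have hs : (Icc (-⌊X⌋) ⌊X⌋).filter B ⊆ ((Icc (-⌊X⌋) ⌊X⌋).filter B₁ ∪
      (Icc (-⌊X⌋) ⌊X⌋).filter B₂) ∪ (Icc (-⌊X⌋) ⌊X⌋).filter B₃ := by
    intro d hd
    rw [mem_filter] at hd
    simp only [mem_union, mem_filter]
    rcases h d hd.2 with h1 | h1 | h1
    · exact Or.inl (Or.inl ⟨hd.1, h1⟩)
    · exact Or.inl (Or.inr ⟨hd.1, h1⟩)
    · exact Or.inr ⟨hd.1, h1⟩
  have h1 := card_le_card hs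
  have h2 := card_union_le ((Icc (-⌊X⌋) ⌊X⌋).filter B₁ ∪ (Icc (-⌊X⌋) ⌊X⌋).filter B₂)
    ((Icc (-⌊X⌋) ⌊X⌋).filter B₃)
  have h3 := card_union_le ((Icc (-⌊X⌋) ⌊X⌋).filter B₁) ((Icc (-⌊X⌋) ⌊X⌋).filter B₂)
  exact_mod_cast (by omega)

theorem z2 (a : ZMod 2) (h : a ≠ 1) : a = 0 := by
  revert a; decide

/-- The saving of the large classes. -/
theorem sav (C c ε : ℝ) (N : ℕ) (hc : 0 < c) (hε : 0 < ε) :
    ∀ᶠ t : ℕ in atTop, C * (t : ℝ) ^ N * Real.exp (-(c * t)) ≤ ε := by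
  have h0 := Real.tendsto_pow_mul_exp_neg_atTop_nhds_zero N
  have h1 : Tendsto (fun t : ℕ => c * (t : ℝ)) atTop atTop :=
    tendsto_natCast_atTop_atTop.const_mul_atTop hc
  have h2 := (h0.comp h1).const_mul (C / c ^ N)
  rw [mul_zero] at h2
  filter_upwards [h2.eventually (eventually_le_nhds hε)] with t ht
  have e : C * (t : ℝ) ^ N * Real.exp (-(c * t)) =
      C / c ^ N * ((c * t) ^ N * Real.exp (-(c * t))) := by
    rw [mul_pow]; field_simp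
  rw [e]; exact ht

theorem expo (c t Ly : ℝ) (k : ℕ) (hc : 0 < c) (ht : 1 ≤ t) (hL : t ^ k ≤ Ly) :
    c / 2 ^ (k + 1) * t ≤ c * Ly * t ^ 2 / (t + 1) ^ (k + 1) := by
  have h1 : (t + 1) ^ (k + 1) ≤ (2 * t) ^ (k + 1) :=
    pow_le_pow_left₀ (by linarith) (by linarith) _
  have h2 : 0 < (t + 1) ^ (k + 1) := by positivity
  rw [le_div_iff₀ h2]
  have h3 : c / 2 ^ (k + 1) * t * (t + 1) ^ (k + 1) ≤ c / 2 ^ (k + 1) * t * (2 * t) ^ (k + 1) :=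
    mul_le_mul_of_nonneg_left h1 (by positivity)
  have h4 : c / 2 ^ (k + 1) * t * (2 * t) ^ (k + 1) = c * t ^ k * t ^ 2 := by
    rw [mul_pow]; field_simp; ring
  have h5 : c * t ^ k * t ^ 2 ≤ c * Ly * t ^ 2 := by gcongr
  linarith

end Det

theorem det_thm (h1 : FdStmt) (h2 : PoolStmt) (h3 : LargeStmt) (h4 : SmallStmt) (h5 : ExStmt) :
    DetStmt := by
  intro n D C Kg Val J₀ hA L _ _ θ hθ N ε hN hε
  obtain ⟨k, rfl⟩ : ∃ k, N = k + 1 := ⟨N - 1, by omega⟩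
  obtain ⟨S₀, δ, hδ, hlim, hS₀⟩ := h1.1 J₀ hA.al
  obtain ⟨C₁, c, hC₁, hc, hL⟩ := h3 L θ hθ
  have hε3 : 0 < ε / 3 := by positivity
  have hcc : 0 < c / 2 ^ (k + 1) := by positivity
  filter_upwards [h2 S₀ δ k hδ hlim (by omega), h4 L θ hθ (k + 1) (ε / 3) hN hε3,
    Det.sav (C₁ * 2 ^ (4 * (k + 1)) * 2) (c / 2 ^ (k + 1)) (ε / 3) (5 * (k + 1)) hcc hε3,
    eventually_ge_atTop (C + 11),
    tendsto_natCast_atTop_atTop.eventually_ge_atTop (6 / ε : ℝ)] with t hP hSm hsav ht htε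
  obtain ⟨y, S, hy, hlo, hhi, hS, hcard, hsum⟩ := hP
  have ht' : (C : ℝ) + 11 ≤ t := by exact_mod_cast ht
  have hC0 : (0 : ℝ) ≤ C := Nat.cast_nonneg C
  have ht1 : (1 : ℝ) ≤ t := by linarith
  have ht0 : (0 : ℝ) < t := by linarith
  have htk : (t : ℝ) ≤ (t : ℝ) ^ k := le_self_pow₀ ht1 (by omega)
  have hyl : Real.log y + 1 ≤ y := by
    have := Real.log_le_sub_one_of_pos hy
    linarith
  have hyC : (C : ℝ) + 11 ≤ y := by linarith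
  have hye : y ≤ Real.exp ((t : ℝ) ^ (k + 1)) := by
    rw [← Real.exp_log hy]; exact Real.exp_le_exp.2 hhi
  have hKg : ∀ q ∈ S, Kg q := by
    intro q hq
    obtain ⟨hp, hq0, hq1, -⟩ := hS q hq
    obtain ⟨O, φ, hO, hφ, hag⟩ := hS₀ q hq0 hp
    refine hA.kg q O φ hp ?_ hO hφ hag
    have : (C : ℝ) < q := by linarith
    exact_mod_cast this
  refine ⟨S, fun q hq => ?_, fun X hX1 hX2 => ?_⟩
  · have h := (hS q hq).2.2.2
    rw [Real.exp_add]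
    have h2e : (2 : ℝ) ≤ Real.exp 1 := by
      have := Real.add_one_le_exp (1 : ℝ)
      linarith
    have : 2 * y ≤ Real.exp 1 * Real.exp ((t : ℝ) ^ (k + 1)) :=
      mul_le_mul h2e hye hy.le (Real.exp_pos _).le
    linarith
  · have hX : 1 ≤ X := le_trans (Real.one_le_exp (by positivity)) hX1
    have hX0 : 0 < X := by linarith
    have hz : (11 : ℝ) ≤ Real.exp ((t : ℝ) ^ 2) := by
      have h1 := Real.add_one_le_exp ((t : ℝ) ^ 2)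
      have h2 : (t : ℝ) ≤ (t : ℝ) ^ 2 := le_self_pow₀ ht1 (by norm_num)
      linarith
    have hΛ : (t : ℝ) ^ (k + 1) ≤ ((t : ℝ) + 1) ^ (k + 1) :=
      pow_le_pow_left₀ ht0.le (by linarith) _
    have hlX : Real.log X ≤ ((t : ℝ) + 1) ^ (k + 1) := by
      rw [Real.log_le_iff_le_exp hX0]; exact hX2
    have hA1 := h5.2.1 X S hX0.le fun q hq => (hS q hq).1.ne_zero
    have hA2 := hL X y (Real.exp ((t : ℝ) ^ 2)) (((t : ℝ) + 1) ^ (k + 1)) S hX (by linarith) hz hlX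
      (hhi.trans hΛ) fun q hq =>
        ⟨(hS q hq).1, hA.ty q (hKg q hq), (hS q hq).2.2.1, (hS q hq).2.2.2⟩
    have hA3 := hSm X hX1
    refine le_trans (Det.cnt_le3 X (B₁ := fun d => d ≠ 0 ∧ ∃ q ∈ S, (q : ℤ) ∣ d)
      (B₂ := fun d => Fam d ∧ (∀ q ∈ S, ¬ (q : ℤ) ∣ d) ∧ ∃ α, SelC θ d α ∧
        (∀ q ∈ S, fv q α = 0) ∧ ∃ l : ℕ, l.Prime ∧ Real.exp ((t : ℝ) ^ 2) < l ∧
          ∃ 𝔭 ∈ ab L l, Odd (og 𝔭 α))
      (B₃ := fun d => Fam d ∧ om' d ≤ t ∧ ∃ α, SelC θ d α ∧ ¬ IsSquare α ∧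
        ∀ l : ℕ, l.Prime → Real.exp ((t : ℝ) ^ 2) < l → ∀ 𝔭 ∈ ab L l, Even (og 𝔭 α)) ?_) ?_
    · rintro d ⟨hF, hom, hD⟩
      by_cases hq : ∃ q ∈ S, (q : ℤ) ∣ d
      · exact Or.inl ⟨hF.sf.ne_zero, hq⟩
      · right
        unfold Det at hD
        push Not at hD hq
        obtain ⟨α, hα, hsq, hall⟩ := hD
        by_cases hl : ∃ l : ℕ, l.Prime ∧ Real.exp ((t : ℝ) ^ 2) < l ∧ ∃ 𝔭 ∈ ab L l, Odd (og 𝔭 α)
        · exact Or.inl ⟨hF, hq, α, hα, fun q hqS =>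
            Det.z2 _ (hall q hqS (hS q hqS).1 (hKg q hqS) (hq q hqS)), hl⟩
        · refine Or.inr ⟨hF, hom, α, hα, hsq, fun l hl1 hl2 𝔭 h𝔭 => ?_⟩
          by_contra hne
          exact hl ⟨l, hl1, hl2, 𝔭, h𝔭, Int.not_even_iff_odd.1 hne⟩
    · have hB1 : 2 * X * ∑ q ∈ S, 1 / (q : ℝ) ≤ ε / 3 * X := by
        have h6 : 2 * (1 / (t : ℝ)) ≤ ε / 3 := by
          rw [div_le_iff₀ hε] at htε
          rw [mul_one_div, div_le_iff₀ ht0]
          linarith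
        calc 2 * X * ∑ q ∈ S, 1 / (q : ℝ) ≤ 2 * X * (1 / t) := by gcongr
          _ = 2 * (1 / (t : ℝ)) * X := by ring
          _ ≤ ε / 3 * X := by gcongr
      have hSc : (0 : ℝ) < S.card := by
        by_contra hneg
        have h0 : (S.card : ℝ) = 0 := le_antisymm (not_lt.1 hneg) (Nat.cast_nonneg _)
        rw [h0] at hcard
        linarith
      rw [Real.log_exp] at hA2
      have hE : Real.exp (-(c * Real.log y * (t : ℝ) ^ 2 / ((t : ℝ) + 1) ^ (k + 1))) ≤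
          Real.exp (-(c / 2 ^ (k + 1) * t)) :=
        Real.exp_le_exp.2 (neg_le_neg (Det.expo c t _ k hc ht1 hlo))
      have hΛ4 : (((t : ℝ) + 1) ^ (k + 1)) ^ 4 ≤ 2 ^ (4 * (k + 1)) * (t : ℝ) ^ (4 * (k + 1)) := by
        rw [← pow_mul, ← mul_pow, mul_comm (k + 1) 4]
        exact pow_le_pow_left₀ (by linarith) (by linarith) _
      have hB2 : C₁ * X * (((t : ℝ) + 1) ^ (k + 1)) ^ 4 * y *
          Real.exp (-(c * Real.log y * (t : ℝ) ^ 2 / ((t : ℝ) + 1) ^ (k + 1))) ≤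
          ε / 3 * X * S.card := by
        calc _ ≤ C₁ * X * (2 ^ (4 * (k + 1)) * (t : ℝ) ^ (4 * (k + 1))) *
              (2 * (t : ℝ) ^ (k + 1) * S.card) * Real.exp (-(c / 2 ^ (k + 1) * t)) := by gcongr
          _ = C₁ * 2 ^ (4 * (k + 1)) * 2 * (t : ℝ) ^ (5 * (k + 1)) *
              Real.exp (-(c / 2 ^ (k + 1) * t)) * X * S.card := by
              rw [show 5 * (k + 1) = 4 * (k + 1) + (k + 1) by ring, pow_add (t : ℝ) (4 * (k + 1))]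
              ring
          _ ≤ ε / 3 * X * S.card := by gcongr
      have hB2' := le_of_mul_le_mul_right (hA2.trans hB2) hSc
      linarith

end Pool.Agent.Lib.MP_d6ddbd_nt.GO
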