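import Pool.Agent.Lib.MP_d6ddbd_nt.GO.Stmt
import Pool.Agent.Lib.MP_9177b7_ag.B.SieveN

/-!
Exceptional sets: many prime factors, divisors from a list, and the sieve.
-/

set_option autoImplicit false

open Finset
open Pool.Agent.Lib.MP_9177b7_ag.B (boxN denN CgN sieveN)
open scoped Classical

noncomputable section

namespace Pool.Agent.Lib.MP_d6ddbd_nt.GO

namespace Ex

theorem mult (X : ℝ) (hX : 0 ≤ X) (q : ℕ) (hq : q ≠ 0) :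
    (((Icc (-⌊X⌋) ⌊X⌋).filter fun d : ℤ => d ≠ 0 ∧ (q : ℤ) ∣ d).card : ℝ) ≤ 2 * X * (1 / q) := by
  have q0 : (0 : ℤ) < q := by exact_mod_cast Nat.pos_of_ne_zero hq
  have q1 : (0 : ℝ) < q := by exact_mod_cast q0
  have f0 : 0 ≤ ⌊X⌋ := Int.floor_nonneg.2 hX
  set M := ⌊X⌋ / q with hM
  have M0 : 0 ≤ M := Int.ediv_nonneg f0 q0.le
  have hs : ((Icc (-⌊X⌋) ⌊X⌋).filter fun d : ℤ => d ≠ 0 ∧ (q : ℤ) ∣ d) ⊆
      ((Icc (-M) M).erase 0).image fun m => (q : ℤ) * m := by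
    intro d hd
    obtain ⟨h1, h2, m, rfl⟩ := mem_filter.1 hd
    obtain ⟨h3, h4⟩ := mem_Icc.1 h1
    refine mem_image.2 ⟨m, mem_erase.2 ⟨fun h => h2 (by simp [h]), mem_Icc.2 ⟨?_, ?_⟩⟩, rfl⟩
    · have : -m ≤ M := (Int.le_ediv_iff_mul_le q0).2 (by linarith)
      omega
    · exact (Int.le_ediv_iff_mul_le q0).2 (by linarith)
  have h1 : ((((Icc (-M) M).erase 0).card : ℕ) : ℤ) = 2 * M := by
    rw [card_erase_of_mem (mem_Icc.2 ⟨by omega, M0⟩), Int.card_Icc]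
    omega
  have h2 := (card_le_card hs).trans card_image_le
  have h3 : (M : ℝ) * q ≤ X := by
    have : M * q ≤ ⌊X⌋ := Int.ediv_mul_le _ q0.ne'
    have h4 : ((M * q : ℤ) : ℝ) ≤ (⌊X⌋ : ℝ) := by exact_mod_cast this
    push_cast at h4
    exact h4.trans (Int.floor_le X)
  have h5 : ((((Icc (-M) M).erase 0).card : ℕ) : ℝ) = 2 * M := by exact_mod_cast h1
  have h6 : (M : ℝ) ≤ X * (1 / q) := by
    rw [mul_one_div, le_div_iff₀ q1]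
    exact h3
  calc _ ≤ ((((Icc (-M) M).erase 0).card : ℕ) : ℝ) := by exact_mod_cast h2
    _ = 2 * M := h5
    _ ≤ _ := by linarith

theorem two_pow_le (n : ℕ) (hn : n ≠ 0) : 2 ^ n.primeFactors.card ≤ n.divisors.card := by
  rw [Nat.card_divisors hn, ← prod_const]
  refine prod_le_prod' fun p hp => ?_
  have := (Nat.Prime.dvd_iff_one_le_factorization (Nat.prime_of_mem_primeFactors hp) hn).1
    (Nat.dvd_of_mem_primeFactors hp)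
  omega

theorem one (X y : ℝ) (hX : 1 ≤ X) (hy : 0 < y) :
    cnt X (fun d => d ≠ 0 ∧ y < 2 ^ om' d) ≤ 2 * X * (1 + Real.log X) / y := by
  have X0 : 0 ≤ X := by linarith
  set I := Icc (-⌊X⌋) ⌊X⌋ with hI
  set E := I.filter fun d : ℤ => d ≠ 0 ∧ y < 2 ^ om' d with hE
  have hc : cnt X (fun d => d ≠ 0 ∧ y < 2 ^ om' d) = (E.card : ℝ) := by
    rw [cnt]
    congr
  rw [hc, le_div_iff₀ hy]
  have h1 : ∀ d ∈ E, y ≤ ∑ q ∈ Icc 1 ⌊X⌋₊, if d ≠ 0 ∧ (q : ℤ) ∣ d then (1 : ℝ) else 0 := by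
    intro d hd
    obtain ⟨h1, h2, h3⟩ := mem_filter.1 hd
    obtain ⟨h4, h5⟩ := mem_Icc.1 h1
    have d0 : d.natAbs ≠ 0 := Int.natAbs_ne_zero.2 h2
    rw [sum_boole]
    refine h3.le.trans ?_
    have h6 : d.natAbs.divisors ⊆ (Icc 1 ⌊X⌋₊).filter fun q : ℕ => d ≠ 0 ∧ (q : ℤ) ∣ d := by
      intro q hq
      have h7 := Nat.dvd_of_mem_divisors hq
      have h8 := Nat.le_of_dvd (Nat.pos_of_ne_zero d0) h7
      have h9 : ((⌊X⌋₊ : ℕ) : ℤ) = ⌊X⌋ := Int.natCast_floor_eq_floor X0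
      exact mem_filter.2 ⟨mem_Icc.2 ⟨Nat.pos_of_mem_divisors hq, by omega⟩, h2,
        Int.natCast_dvd.2 h7⟩
    have := (two_pow_le _ d0).trans (card_le_card h6)
    rw [om']
    exact_mod_cast this
  have h2 : (∑ q ∈ Icc 1 ⌊X⌋₊, 1 / (q : ℝ)) ≤ 1 + Real.log X := by
    have h3 := harmonic_le_one_add_log ⌊X⌋₊
    rw [harmonic_eq_sum_Icc] at h3
    push_cast at h3
    have h4 : (0 : ℝ) < ⌊X⌋₊ := by exact_mod_cast Nat.floor_pos.2 hX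
    have h5 := Real.log_le_log h4 (Nat.floor_le X0)
    simp only [one_div]
    linarith
  calc (E.card : ℝ) * y = ∑ _d ∈ E, y := by rw [sum_const, nsmul_eq_mul]
    _ ≤ ∑ d ∈ E, ∑ q ∈ Icc 1 ⌊X⌋₊, if d ≠ 0 ∧ (q : ℤ) ∣ d then (1 : ℝ) else 0 := sum_le_sum h1
    _ ≤ ∑ d ∈ I, ∑ q ∈ Icc 1 ⌊X⌋₊, if d ≠ 0 ∧ (q : ℤ) ∣ d then (1 : ℝ) else 0 :=
      sum_le_sum_of_subset_of_nonneg (filter_subset _ _) fun d _ _ =>
        sum_nonneg fun q _ => by split_ifs <;> norm_num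
    _ = ∑ q ∈ Icc 1 ⌊X⌋₊, ((I.filter fun d : ℤ => d ≠ 0 ∧ (q : ℤ) ∣ d).card : ℝ) := by
      rw [sum_comm]
      exact sum_congr rfl fun q _ => sum_boole _ _
    _ ≤ ∑ q ∈ Icc 1 ⌊X⌋₊, 2 * X * (1 / (q : ℝ)) :=
      sum_le_sum fun q hq => mult X X0 q (by have := (mem_Icc.1 hq).1; omega)
    _ = 2 * X * ∑ q ∈ Icc 1 ⌊X⌋₊, 1 / (q : ℝ) := by rw [mul_sum]
    _ ≤ _ := by gcongr

theorem two (X : ℝ) (S : Finset ℕ) (hX : 0 ≤ X) (hS : ∀ q ∈ S, q ≠ 0) :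
    cnt X (fun d => d ≠ 0 ∧ ∃ q ∈ S, (q : ℤ) ∣ d) ≤ 2 * X * ∑ q ∈ S, 1 / (q : ℝ) := by
  have hs : ((Icc (-⌊X⌋) ⌊X⌋).filter fun d : ℤ => d ≠ 0 ∧ ∃ q ∈ S, (q : ℤ) ∣ d) ⊆
      S.biUnion fun q => (Icc (-⌊X⌋) ⌊X⌋).filter fun d : ℤ => d ≠ 0 ∧ (q : ℤ) ∣ d := by
    intro d hd
    obtain ⟨h1, h2, q, h3, h4⟩ := mem_filter.1 hd
    exact mem_biUnion.2 ⟨q, h3, mem_filter.2 ⟨h1, h2, h4⟩⟩
  have h1 := (card_le_card hs).trans card_biUnion_le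
  have hc : cnt X (fun d => d ≠ 0 ∧ ∃ q ∈ S, (q : ℤ) ∣ d) =
      (((Icc (-⌊X⌋) ⌊X⌋).filter fun d : ℤ => d ≠ 0 ∧ ∃ q ∈ S, (q : ℤ) ∣ d).card : ℝ) := by
    rw [cnt]
    congr
  rw [hc, mul_sum]
  refine le_trans ?_ (sum_le_sum fun q hq => mult X hX q (hS q hq))
  exact_mod_cast h1

theorem den (q : ℕ) (hq : q ≠ 0) :
    denN q (fun u : Fin 1 → ℤ => if (q : ℤ) ∣ u 0 then 1 else 0) = 1 / q := by
  rw [denN, pow_one, sum_boole]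
  congr 1
  have : ((boxN (0 : Fin 1 → ℤ) fun _ => q).filter fun u => (q : ℤ) ∣ u 0) = {0} := by
    have q0 : (0 : ℤ) < q := by exact_mod_cast Nat.pos_of_ne_zero hq
    ext u
    simp only [mem_filter, boxN, Fintype.mem_piFinset, mem_Ico, Pi.zero_apply, zero_add,
      mem_singleton]
    constructor
    · rintro ⟨h1, h2⟩
      funext i
      rw [Subsingleton.elim i 0]
      exact Int.eq_zero_of_dvd_of_nonneg_of_lt (h1 0).1 (h1 0).2 h2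
    · rintro rfl
      exact ⟨fun _ => ⟨le_rfl, q0⟩, dvd_zero _⟩
  rw [this]
  simp

theorem three : ∃ δ C : ℝ, 0 < δ ∧ δ ≤ 1 ∧ 0 < C ∧ ∀ (X : ℝ) (S : Finset ℕ), 1 ≤ X →
    (∀ q ∈ S, q.Prime ∧ (q : ℝ) ≤ X ^ δ) →
    cnt X (fun d => ∀ q ∈ S, ¬ (q : ℤ) ∣ d) ≤ C * X * Real.exp (-∑ q ∈ S, 1 / (q : ℝ)) := by
  obtain ⟨δ, C, hδ, hC, H⟩ := sieveN 1 1 one_pos
  refine ⟨min δ 1, 3 * C, lt_min hδ one_pos, min_le_right _ _, by positivity, fun X S hX hS => ?_⟩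
  have f1 : 1 ≤ ⌊X⌋ := Int.le_floor.2 (by exact_mod_cast hX)
  have hA : (((2 * ⌊X⌋ + 1).toNat : ℕ) : ℤ) = 2 * ⌊X⌋ + 1 := by omega
  have hA' : (((2 * ⌊X⌋ + 1).toNat : ℕ) : ℝ) = 2 * (⌊X⌋ : ℝ) + 1 := by exact_mod_cast hA
  have f2 : (1 : ℝ) ≤ ⌊X⌋ := by exact_mod_cast f1
  have f3 := Int.floor_le X
  have f4 := Int.lt_floor_add_one X
  have hd : ∀ q ∈ S, denN q (fun u : Fin 1 → ℤ => if (q : ℤ) ∣ u 0 then 1 else 0) = 1 / q :=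
    fun q hq => den q (hS q hq).1.ne_zero
  have h := H X (fun _ => -⌊X⌋) (fun _ => (2 * ⌊X⌋ + 1).toNat) S (fun q u => (q : ℤ) ∣ u 0) hX
    (fun _ => by rw [hA']; linarith)
    (fun q hq => ⟨(hS q hq).1,
      (hS q hq).2.trans (Real.rpow_le_rpow_of_exponent_le hX (min_le_left _ _))⟩)
    (fun q _ u v huv h => by
      have := dvd_sub h (huv 0)
      rwa [sub_sub_cancel] at this)
    (fun q hq => le_of_eq (by convert hd q hq))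
  have e1 : (∑ q ∈ S, denN q fun u : Fin 1 → ℤ => if (q : ℤ) ∣ u 0 then 1 else 0) =
      ∑ q ∈ S, 1 / (q : ℝ) := sum_congr rfl hd
  have h' : (((boxN (fun _ : Fin 1 => -⌊X⌋) fun _ => (2 * ⌊X⌋ + 1).toNat).filter
      fun u => ∀ q ∈ S, ¬ (q : ℤ) ∣ u 0).card : ℝ) ≤
      C * (2 * (⌊X⌋ : ℝ) + 1) * Real.exp (-∑ q ∈ S, 1 / (q : ℝ)) := by
    rw [Fin.prod_univ_one, hA'] at h
    rw [← e1]
    convert h
  have hc : cnt X (fun d => ∀ q ∈ S, ¬ (q : ℤ) ∣ d) ≤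
      (((boxN (fun _ : Fin 1 => -⌊X⌋) fun _ => (2 * ⌊X⌋ + 1).toNat).filter
        fun u => ∀ q ∈ S, ¬ (q : ℤ) ∣ u 0).card : ℝ) := by
    rw [cnt, Nat.cast_le]
    refine card_le_card_of_injOn (fun d _ => d) (fun d hd => ?_) fun d _ e _ h => congrFun h 0
    simp only [coe_filter, Set.mem_ofPred_eq] at hd
    obtain ⟨h3, h4⟩ := mem_Icc.1 hd.1
    have h5 : d < -⌊X⌋ + ((2 * ⌊X⌋ + 1).toNat : ℕ) := by omega
    exact mem_coe.2 (mem_filter.2 ⟨Fintype.mem_piFinset.2 fun _ => mem_Ico.2 ⟨h3, h5⟩, hd.2⟩)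
  refine hc.trans (h'.trans ?_)
  have : C * (2 * (⌊X⌋ : ℝ) + 1) ≤ 3 * C * X := by nlinarith
  gcongr

end Ex

theorem ex_thm : ExStmt :=
  ⟨fun X y hX hy => Ex.one X y hX hy, fun X S hX hS => Ex.two X S hX hS, Ex.three⟩

end Pool.Agent.Lib.MP_d6ddbd_nt.GO
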