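import Pool.Agent.Lib.MP_d6ddbd_nt.GO.Stmt
import Pool.Agent.Lib.MP_d6ddbd_nt.K11.V1
import Pool.Agent.Lib.MP_d6ddbd_nt.K11.V2
import Pool.Agent.Lib.MP_d6ddbd_nt.K11.V4
import Pool.Agent.Lib.MP_d6ddbd_nt.K11.R1
import Pool.Agent.Lib.MP_d6ddbd_nt.K11.R2

/-!
Sets of primes of positive density with a prescribed Frobenius element.
-/

set_option autoImplicit false

open Finset Filter Topology NumberField
open Pool.Agent.Stark (Pr og og_nonneg og_pos_iff)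
open Pool.Agent.Lib.MP_d6ddbd_nt.K11 Pool.Agent.Lib.MP_d6ddbd_nt.KI
open Pool.Agent.Shared.FrobeniusDensity
open scoped Classical

noncomputable section

namespace Pool.Agent.Lib.MP_d6ddbd_nt.GO

namespace Fd

theorem bdd_ind (S : Set ℕ) : Bdd (ind S) := ⟨1, fun p _ => by
  unfold ind
  split_ifs <;> simp⟩

/-- The primes whose Frobenius class generates a given cyclic group. -/
theorem gen (K : Type) [Field K] [NumberField K] [IsGalois ℚ K] (σ : K ≃ₐ[ℚ] K) (B : ℕ) :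
    ∃ (S : Set ℕ) (δ : ℝ), 0 < δ ∧ Lim (ind S) δ ∧ ∀ q ∈ S, q.Prime → B ≤ q ∧
      ∃ φ : K ≃ₐ[ℚ] K, IsFrob q φ ∧ Subgroup.zpowers φ = Subgroup.zpowers σ := by
  have hex : ∀ p : ℕ, ∃ φ : K ≃ₐ[ℚ] K, p.Prime → IsFrob p φ := fun p => by
    by_cases hp : p.Prime
    · obtain ⟨φ, h⟩ := exists_isFrob (K := K) hp
      exact ⟨φ, fun _ => h⟩
    · exact ⟨1, fun h => absurd h hp⟩
  choose φ hφ using hex
  obtain ⟨T, hT⟩ : ∃ T : Set (K ≃ₐ[ℚ] K),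
      ∀ τ, τ ∈ T ↔ ∃ g, Subgroup.zpowers (g⁻¹ * τ * g) = Subgroup.zpowers σ :=
    ⟨{τ | ∃ g, Subgroup.zpowers (g⁻¹ * τ * g) = Subgroup.zpowers σ}, fun _ => Iff.rfl⟩
  have hz : ∀ (a b g : K ≃ₐ[ℚ] K), Subgroup.zpowers a = Subgroup.zpowers b →
      Subgroup.zpowers (g⁻¹ * a * g) ≤ Subgroup.zpowers (g⁻¹ * b * g) := by
    intro a b g h
    rw [Subgroup.zpowers_le]
    obtain ⟨k, hk⟩ := Subgroup.mem_zpowers_iff.1 (h ▸ Subgroup.mem_zpowers a)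
    refine Subgroup.mem_zpowers_iff.2 ⟨k, ?_⟩
    have := conj_zpow (i := k) (a := g⁻¹) (b := b)
    rw [inv_inv] at this
    rw [this, hk]
  have hd := frobenius_density φ hφ T
    (fun τ g => (hT _).trans (Iff.trans ⟨?_, ?_⟩ (hT _).symm)) ?_
  · refine ⟨{p | B ≤ p ∧ φ p ∈ T}, _, ?_, Lim.congr (bdd_ind {p | φ p ∈ T}) (bdd_ind _) hd ?_, ?_⟩
    · refine div_pos (Nat.cast_pos.2 (Finset.card_pos.2 ⟨σ, ?_⟩))
        (Nat.cast_pos.2 Fintype.card_pos)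
      exact Finset.mem_filter.2 ⟨Finset.mem_univ _, (hT _).2 ⟨1, by simp⟩⟩
    · filter_upwards [eventually_ge_atTop B] with p hp _
      simp only [ind, Set.mem_ofPred_eq, hp, true_and]
    · rintro q ⟨h1, h2⟩ hq
      obtain ⟨g, hg⟩ := (hT _).1 h2
      exact ⟨h1, _, GF.isFrob_conj (hφ q hq) g, hg⟩
  · rintro ⟨g', h⟩
    exact ⟨g * g', by rw [← h]; simp only [mul_inv_rev, mul_assoc]⟩
  · rintro ⟨g', h⟩
    exact ⟨g⁻¹ * g', by rw [← h]; simp [mul_assoc]⟩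
  · intro a b h ha
    obtain ⟨g, hg⟩ := (hT _).1 ha
    exact (hT _).2 ⟨g, (le_antisymm (hz _ _ g h.symm) (hz _ _ g h)).trans hg⟩

/-- The same for places of `ℂ`. -/
theorem dens (J : Finset ℂ) (σ : G) (ha : ∀ x ∈ J, IsAlgebraic ℚ x) :
    ∃ (S : Set ℕ) (δ : ℝ), 0 < δ ∧ Lim (ind S) δ ∧ ∀ l ∈ S, l.Prime →
      ∃ (O : ValuationSubring ℂ) (φ : G) (a b : ℕ), Ov O l ∧ Frob O l φ ∧
        ∀ n : ℕ, ∀ x ∈ J, (φ ^ n) x = (σ ^ (a * n)) x ∧ (σ ^ n) x = (φ ^ (b * n)) x := by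
  obtain ⟨-, hb, -, hn, hf⟩ := v1_thm
  obtain ⟨K, _, _, _, j, hj⟩ := MP_9177b7_ag.CM.Frob.exists_field J J.finite_toSet ha
  obtain ⟨σ₀, hσ₀⟩ := V4.res j σ
  obtain ⟨B, hB⟩ := eventually_atTop.1 (V4.sep K)
  obtain ⟨S, δ, hδ, hS, hq⟩ := gen K σ₀ B
  refine ⟨S, δ, hδ, hS, fun l hlS hl => ?_⟩
  obtain ⟨hlN, φ₀, ⟨Q, hQ, hlQ, hφ₀⟩, hz⟩ := hq l hlS hl
  have hl0 : (l : 𝓞 K) ≠ 0 := Nat.cast_ne_zero.2 hl.ne_zero
  let 𝔭 : Pr K := ⟨Q, hQ, fun h => hl0 (by simpa [h] using hlQ)⟩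
  obtain ⟨O, hO⟩ := hb K j 𝔭
  have key : ∀ x : 𝓞 K, j x ∈ O.nonunits ↔ x ∈ Q := fun x => by
    by_cases hx : x = 0
    · simp [hx]
    · rw [hn K j O 𝔭 hO _ (by simpa using hx), og_pos_iff 𝔭 hx]
  have hOv : Ov O l := by simpa [Ov] using (key l).2 hlQ
  obtain ⟨φ, hφ⟩ := hf l O hl hOv
  obtain ⟨φ₁, hφ₁⟩ := V4.res j φ
  obtain rfl : φ₁ = φ₀ := hB l hlN _ _ hl Q hQ hlQ fun x => by
    have h1 : j x ∈ O := by
      by_cases hx : x = 0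
      · simp [hx]
      · exact (hO _ (by simpa using hx)).2 (og_nonneg 𝔭 x)
    have h2 := (hφ (j x) ((Algebra.IsAlgebraic.isAlgebraic (R := ℚ) (x : K)).algHom
      j.toRatAlgHom) h1).2
    rw [← hφ₁, ← map_pow, ← map_sub] at h2
    have h3 : φ₁ • x - x ^ l ∈ Q := (key _).1 h2
    simpa using Q.sub_mem h3 (hφ₀ x)
  obtain ⟨a, ha'⟩ := (Submonoid.mem_powers_iff _ _).1
    (mem_powers_iff_mem_zpowers.2 (hz ▸ Subgroup.mem_zpowers φ₁ : φ₁ ∈ Subgroup.zpowers σ₀))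
  obtain ⟨b, hb'⟩ := (Submonoid.mem_powers_iff _ _).1
    (mem_powers_iff_mem_zpowers.2 (hz ▸ Subgroup.mem_zpowers σ₀ : σ₀ ∈ Subgroup.zpowers φ₁))
  refine ⟨O, φ, a, b, hOv, hφ, fun n x hx => ?_⟩
  obtain ⟨z, rfl⟩ := hj x hx
  constructor
  · rw [← V4.res_pow j hφ₁, ← V4.res_pow j hσ₀, pow_mul, ha']
  · rw [← V4.res_pow j hφ₁, ← V4.res_pow j hσ₀, pow_mul, hb']

theorem cj_even {m : ℕ} (h : Even m) : cj ^ m = 1 := by
  obtain ⟨k, rfl⟩ := h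
  rw [← two_mul, pow_mul, pow_two, cj_mul_cj, one_pow]

theorem cyc {ω : G} {e₁ e₂ e₃ : ℂ} (h1 : ω e₁ = e₂) (h2 : ω e₂ = e₃) (h3 : ω e₃ = e₁) (k : ℕ) :
    (ω ^ (3 * k)) e₁ = e₁ := by
  induction k with
  | zero => rfl
  | succ k ih =>
    have e : (ω ^ 3) e₁ = e₁ := by
      rw [pow_succ, pow_two, RingAut.mul_apply, RingAut.mul_apply, h1, h2, h3]
    rw [Nat.mul_succ, pow_add, RingAut.mul_apply, e, ih]

theorem alg_root {e : ℂ} (h : fc e = 0) : IsAlgebraic ℚ e := by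
  refine ⟨Polynomial.X ^ 3 - 4 * Polynomial.X ^ 2 - 160 * Polynomial.X - 1264, fun h0 => ?_, ?_⟩
  · have := congrArg (Polynomial.eval 0) h0
    norm_num at this
  · simpa [fc, map_ofNat] using h

end Fd

open Fd in
theorem fd_thm : FdStmt := by
  refine ⟨fun J hJ => ?_, ?_⟩
  · obtain ⟨S, δ, hδ, hS, h⟩ := dens J cj hJ
    refine ⟨S, δ, hδ, hS, fun q hq hp => ?_⟩
    obtain ⟨O, φ, a, b, h1, h2, h3⟩ := h q hq hp
    refine ⟨O, φ, h1, h2, fun x hx => ?_⟩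
    have e1 := (h3 1 x hx).1
    rw [pow_one, mul_one] at e1
    rcases Nat.even_or_odd a with ha | ⟨k, rfl⟩
    · have e2 := (h3 1 x hx).2
      rw [pow_one, mul_one, (h3 b x hx).1, cj_even (ha.mul_right b)] at e2
      rw [e1, e2, cj_even ha]
    · rw [e1, pow_succ, cj_even (even_two_mul k), one_mul]
  · obtain ⟨-, -, hpt, h2t, ⟨e₁, e₂, e₃, hf, n12, n13, -, -, -, -, ⟨ω, w1, w2, w3⟩, -⟩, -⟩ := r1_thm
    have f1 : fc e₁ = 0 := by rw [hf]; ring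
    obtain ⟨S, δ, hδ, hS, h⟩ := dens {e₁} ω fun x hx => by
      rw [Finset.mem_singleton.1 hx]
      exact alg_root f1
    refine ⟨S, δ, hδ, hS, fun p hp hpp p2 p11 => ?_⟩
    obtain ⟨O, φ, a, b, h1, h2, h3⟩ := h p hp hpp
    obtain ⟨-, -, -, -, -, -, h4, h5⟩ := r2_thm v1_thm v2_thm r1_thm p O hpp p2 p11 h1
    obtain ⟨k3, k1, -⟩ := h5 φ h2
    obtain ⟨-, t1, t2⟩ := hpt e₁ 0 (by rw [f1]; ring)
    have tT : 2 • pt e₁ 0 = 0 := (h2t _).2 (.inr ⟨t2, by rw [t1, f1]⟩)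
    by_contra hne
    have e2 : φ (φ e₁) = e₁ := by
      have : φ • φ • pt e₁ 0 = pt e₁ 0 := by
        rcases h4 with h4 | h4 | h4
        · exact absurd h4 hne
        · exact (k1.1 h4).1 _ tT
        · rw [k3.1 h4 _ tT, k3.1 h4 _ tT]
      have e := congrArg (fun P : Pt => MP_02f36d_nt.xc P) this
      simpa only [xc_smul, t1] using e
    have m := Finset.mem_singleton_self e₁
    have e3 : (ω ^ (a * 2)) e₁ = e₁ := by
      rw [← (h3 2 e₁ m).1, pow_two, RingAut.mul_apply, e2]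
    have e4 : a % 3 = 0 := by
      have h6 : a % 3 = 0 ∨ a % 3 = 1 ∨ a % 3 = 2 := by omega
      rcases h6 with h6 | h6 | h6
      · exact h6
      · rw [show a * 2 = 2 + 3 * (a * 2 / 3) by omega, pow_add, RingAut.mul_apply, cyc w1 w2 w3,
          pow_two, RingAut.mul_apply, w1, w2] at e3
        exact absurd e3.symm n13
      · rw [show a * 2 = 1 + 3 * (a * 2 / 3) by omega, pow_add, RingAut.mul_apply, cyc w1 w2 w3,
          pow_one, w1] at e3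
        exact absurd e3.symm n12
    have e5 := (h3 1 e₁ m).2
    rw [pow_one, mul_one, (h3 b e₁ m).1, show a * b = 3 * (a / 3 * b) by
      rw [← mul_assoc, Nat.mul_div_cancel' (Nat.dvd_of_mod_eq_zero e4)], cyc w1 w2 w3, w1] at e5
    exact n12 e5.symm

end Pool.Agent.Lib.MP_d6ddbd_nt.GO
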