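import Pool.Agent.Lib.MP_d6ddbd_nt.GO.Alg
import Pool.Agent.Lib.MP_d6ddbd_nt.GA.Stmt

/-!
The final interface of the algebraic half gives what the counting needs.
-/

set_option autoImplicit false

open Finset

noncomputable section

namespace Pool.Agent.Lib.MP_d6ddbd_nt.GO

theorem cov_mz {n r : ℕ} (d : ℤ) (Q : Fin r → ℕ) (π π' : Fin n → ℕ) (J : Finset (Fin n))
    (a b : Fin n) :
    GA.Cov (GA.mz d Q (Function.update π b 1) (Function.update π' b 1)) d Q π π' a
      (J.erase b : Finset (Fin n)) := by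
  intro v _ hv
  unfold GA.mz at hv
  have k : ∀ i, i ≠ b → ¬ v ∣ π i * π' i := fun i hi e => hv (Dvd.dvd.mul_left (e.trans (by
    have := dvd_prod_of_mem (fun i => Function.update π b 1 i * Function.update π' b 1 i)
      (mem_univ i)
    simpa only [Function.update_of_ne hi] using this)) _)
  refine ⟨fun e => hv ?_, fun e => hv ?_, fun e => absurd ?_ hv, fun i e => hv ?_, fun i hi => ?_⟩
  · exact (((e ▸ by norm_num : v ∣ 22).mul_right _).mul_right _).mul_right _
  · exact (((e ▸ by norm_num : v ∣ 22).mul_right _).mul_right _).mul_right _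
  · exact (((Int.natCast_dvd.1 e).mul_left _).mul_right _).mul_right _
  · exact ((e ▸ dvd_prod_of_mem Q (mem_univ i) : v ∣ ∏ i, Q i).mul_left _).mul_right _
  · have hb := (mem_erase.1 (mem_coe.1 hi)).1
    exact ⟨fun e => k i hb (e ▸ dvd_mul_right _ _), fun _ e => k i hb (e ▸ dvd_mul_left _ _)⟩

theorem cubeT (h : GA.Cube2Stmt) : GA.CubeT := by
  intro K r Q d n P π π' J a b u y M hM hP hp hp' ha hb hab hK hD hI
  obtain ⟨U, σ, h1, h2, h3⟩ := h K r Q d n P π π' J a b u y M hP hp hp' ha hb hab hK hD hI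
    (hM ▸ cov_mz d Q π π' J a b)
  refine ⟨U, σ, h1, fun p hp _ => h2 p hp, fun l hl hn ho => ?_⟩
  obtain ⟨η, c1, c2⟩ := h3 l hl hn ho
  exact ⟨η, c1, fun p hp p' hp' _ _ => by rw [Nat.sub_right_comm]; exact c2 p hp p' hp'⟩

/-- The algebraic half from the interface. -/
theorem alg_thm (h : GA.I2Stmt) : AlgStmt := by
  obtain ⟨h1, h2, h3, h4, h5, h6, h7⟩ := h
  exact alg_of h1 h2 h3 h4 (fun K r Q d hK hv => (h5 K r Q d hK hv).2) h6 (cubeT h7)

end Pool.Agent.Lib.MP_d6ddbd_nt.GO
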