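import Pool.Agent.Lib.MP_d6ddbd_nt.GO.Stmt

/-!
A majorant for the matrices modulo `2 ^ K` with two independent kernel vectors.
-/

set_option autoImplicit false

open Finset
open scoped Classical

noncomputable section

namespace Pool.Agent.Lib.MP_d6ddbd_nt.GO

namespace Ker

variable {K r : ℕ}

theorem top_zero {M : Type} [AddCommGroup M] [Module (ZMod (2 ^ K)) M] (y : M) :
    2 ^ K • y = 0 := by
  rw [← Nat.cast_smul_eq_nsmul (ZMod (2 ^ K)), ZMod.natCast_self, zero_smul]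

theorem div_ex {b : ℕ} (hb : b ≤ K) (u : ZMod (2 ^ K)) (h : 2 ^ b • u = 0) :
    ∃ n : ℕ, n < 2 ^ b ∧ u = 2 ^ (K - b) • (n : ZMod (2 ^ K)) := by
  have h1 : ((2 ^ b * u.val : ℕ) : ZMod (2 ^ K)) = 0 := by
    rw [Nat.cast_mul, ZMod.natCast_zmod_val, ← nsmul_eq_mul, h]
  rw [ZMod.natCast_eq_zero_iff] at h1
  have e : 2 ^ K = 2 ^ b * 2 ^ (K - b) := by rw [← pow_add]; congr 1; omega
  have h2 : 2 ^ (K - b) ∣ u.val := by
    have h3 : 2 ^ b * 2 ^ (K - b) ∣ 2 ^ b * u.val := e ▸ h1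
    exact Nat.dvd_of_mul_dvd_mul_left (by positivity) h3
  obtain ⟨n, hn⟩ := h2
  refine ⟨n, ?_, ?_⟩
  · have h4 : u.val < 2 ^ K := ZMod.val_lt u
    have h5 : 2 ^ (K - b) * n < 2 ^ (K - b) * 2 ^ b := by
      rw [← hn, mul_comm, ← e]; exact h4
    exact Nat.lt_of_mul_lt_mul_left h5
  · rw [nsmul_eq_mul, ← Nat.cast_mul, ← hn, ZMod.natCast_zmod_val]

theorem two_cases (hK : 1 ≤ K) (u : ZMod (2 ^ K)) (h : 2 • u = 0) :
    u = 0 ∨ u = 2 ^ (K - 1) • (1 : ZMod (2 ^ K)) := by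
  obtain ⟨n, hn, e⟩ := div_ex (b := 1) hK u (by simpa using h)
  have : n = 0 ∨ n = 1 := by omega
  rcases this with rfl | rfl
  · left; simpa using e
  · right; simpa using e

theorem div_vec {b : ℕ} (hb : b ≤ K) (y : Vec K r) (h : 2 ^ b • y = 0) :
    ∃ y' : Vec K r, y = 2 ^ (K - b) • y' := by
  have : ∀ l, ∃ n : ℕ, n < 2 ^ b ∧ y l = 2 ^ (K - b) • (n : ZMod (2 ^ K)) :=
    fun l => div_ex hb (y l) (congrFun h l)
  choose n _ hn using this
  exact ⟨fun l => n l, funext hn⟩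

theorem card_tor {b : ℕ} (hb : b ≤ K) :
    (univ.filter fun u : ZMod (2 ^ K) => 2 ^ b • u = 0).card ≤ 2 ^ b := by
  calc _ ≤ ((range (2 ^ b)).image fun n : ℕ => 2 ^ (K - b) • (n : ZMod (2 ^ K))).card := by
        refine card_le_card fun u hu => ?_
        obtain ⟨n, hn, e⟩ := div_ex hb u (mem_filter.1 hu).2
        exact mem_image.2 ⟨n, mem_range.2 hn, e.symm⟩
    _ ≤ _ := card_image_le.trans (card_range _).le

theorem card_tor_vec {b : ℕ} (hb : b ≤ K) :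
    (univ.filter fun y : Vec K r => 2 ^ b • y = 0).card ≤ (2 ^ b) ^ r := by
  calc _ ≤ (Fintype.piFinset fun _ : Fin r =>
        univ.filter fun u : ZMod (2 ^ K) => 2 ^ b • u = 0).card := by
        refine card_le_card fun y hy => Fintype.mem_piFinset.2 fun l => ?_
        exact mem_filter.2 ⟨mem_univ _, congrFun (mem_filter.1 hy).2 l⟩
    _ ≤ _ := by
        rw [Fintype.card_piFinset, prod_const, card_univ, Fintype.card_fin]
        exact Nat.pow_le_pow_left (card_tor hb) r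

theorem fib {G H : Type} [AddCommGroup G] (f : G → H) (s k : Finset G) (t : Finset H)
    (hm : ∀ a ∈ s, f a ∈ t) (hk : ∀ a ∈ s, ∀ a' ∈ s, f a = f a' → a - a' ∈ k) :
    s.card ≤ k.card * t.card := by
  refine card_le_mul_card_image_of_maps_to hm _ fun b _ => ?_
  rcases (s.filter fun a => f a = b).eq_empty_or_nonempty with h | ⟨a₀, h₀⟩
  · rw [h]; simp
  · refine card_le_card_of_injOn (fun a => a - a₀) (fun a ha => ?_) fun a _ a' _ e => ?_
    · have ha' := mem_filter.1 (mem_coe.1 ha)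
      have h₀' := mem_filter.1 h₀
      exact mem_coe.2 (hk a ha'.1 a₀ h₀'.1 (ha'.2.trans h₀'.2.symm))
    · exact sub_left_injective e

theorem ind_base (hK : 1 ≤ K) {v w : Vec K r} (h : Ind v w) (s t : ZMod (2 ^ K)) (hs : 2 • s = 0)
    (ht : 2 • t = 0) (e : s • v + t • w = 0) : s = 0 ∧ t = 0 := by
  obtain ⟨h1, h2, h3⟩ := h
  rcases two_cases hK s hs with rfl | rfl <;> rcases two_cases hK t ht with rfl | rfl
  · exact ⟨rfl, rfl⟩
  · exact absurd (by simpa only [zero_smul, zero_add, smul_assoc, one_smul] using e) h2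
  · exact absurd (by simpa only [zero_smul, add_zero, smul_assoc, one_smul] using e) h1
  · exfalso
    simp only [smul_assoc, one_smul] at e
    apply h3
    have h4 : 2 ^ (K - 1) • w + 2 ^ (K - 1) • w = 0 := by
      rw [← two_nsmul, ← mul_nsmul', ← pow_succ', Nat.sub_add_cancel hK, top_zero]
    exact add_right_cancel (e.trans h4.symm)

theorem ind_free (hK : 1 ≤ K) {v w : Vec K r} (h : Ind v w) (s t : ZMod (2 ^ K))
    (e : s • v + t • w = 0) : s = 0 ∧ t = 0 := by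
  have key : ∀ m : ℕ, 2 ^ m • s = 0 → 2 ^ m • t = 0 → s = 0 ∧ t = 0 := by
    intro m
    induction m with
    | zero => intro a b; exact ⟨by simpa using a, by simpa using b⟩
    | succ m ih =>
      intro a b
      have := ind_base hK h (2 ^ m • s) (2 ^ m • t)
        (by rw [← mul_nsmul', ← pow_succ']; exact a) (by rw [← mul_nsmul', ← pow_succ']; exact b)
        (by rw [smul_assoc, smul_assoc, ← smul_add, e, smul_zero])
      exact ih this.1 this.2
  exact key K (top_zero s) (top_zero t)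

theorem decomp (y : Vec K r) (h : 2 ^ 2 • y ≠ 0) :
    ∃ (k : ℕ) (y' : Vec K r), 2 ≤ k ∧ k ≤ K - 1 ∧ 2 ^ (K - 1) • y' ≠ 0 ∧
      y = 2 ^ (K - 1 - k) • y' := by
  have ex : ∃ m, 2 ^ m • y = 0 := ⟨K, top_zero y⟩
  have h1 : Nat.find ex ≤ K := Nat.find_min' ex (top_zero y)
  have h0 := Nat.find_spec ex
  have h2 : 3 ≤ Nat.find ex := by
    by_contra hc
    apply h
    have e : 2 ^ 2 = 2 ^ (2 - Nat.find ex) * 2 ^ Nat.find ex := by
      rw [← pow_add]; congr 1; omega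
    rw [e, mul_nsmul', h0, smul_zero]
  obtain ⟨y', e⟩ := div_vec h1 y h0
  have h3 : 2 ^ (Nat.find ex - 1) • y ≠ 0 := Nat.find_min ex (by omega)
  refine ⟨Nat.find ex - 1, y', by omega, by omega, fun hc => h3 ?_, ?_⟩
  · generalize Nat.find ex = m at *
    rw [e, ← mul_nsmul', ← pow_add, ← hc]; congr 2; omega
  · generalize Nat.find ex = m at *
    rw [e]; congr 2; omega

theorem ec_add (a b : ZMod (2 ^ K)) : ec (a + b) = ec a * ec b := by
  unfold ec; exact AddChar.map_add_eq_mul _ _ _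

theorem ec_zero : ec (0 : ZMod (2 ^ K)) = 1 := by unfold ec; exact AddChar.map_zero_eq_one _

theorem ec_re (a : ZMod (2 ^ K)) : (ec a).re ≤ 1 := by
  refine (Complex.re_le_norm _).trans ?_
  unfold ec
  rw [ZMod.stdAddChar_apply, Circle.norm_coe]

theorem csum (F : Finset (Vec K r)) (hF : ∀ y ∈ F, ∀ y' ∈ F, y + y' ∈ F)
    (hn : ∀ y ∈ F, -y ∈ F) (z y₀ : Vec K r) (h₀ : y₀ ∈ F) (hz : y₀ ⬝ᵥ z ≠ 0) :
    ∑ y ∈ F, (ec (y ⬝ᵥ z)).re = 0 := by
  have e : ∑ y ∈ F, ec (y ⬝ᵥ z) = ∑ y ∈ F, ec ((y + y₀) ⬝ᵥ z) := by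
    symm
    refine sum_nbij' (fun y => y + y₀) (fun y => y + -y₀) (fun y hy => hF y hy y₀ h₀)
      (fun y hy => hF y hy _ (hn y₀ h₀)) (fun y _ => by simp) (fun y _ => by simp) fun y _ => rfl
  simp only [add_dotProduct, ec_add] at e
  rw [← sum_mul] at e
  have h1 : ec (y₀ ⬝ᵥ z) ≠ 1 := fun hc =>
    hz (ZMod.injective_stdAddChar (hc.trans ec_zero.symm))
  have h2 : ∑ y ∈ F, ec (y ⬝ᵥ z) = 0 := by
    by_contra hc
    exact h1 (mul_left_cancel₀ hc (e.symm.trans (mul_one _).symm))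
  rw [← Complex.re_sum, h2, Complex.zero_re]

theorem csum_nonneg (F : Finset (Vec K r)) (hF : ∀ y ∈ F, ∀ y' ∈ F, y + y' ∈ F)
    (hn : ∀ y ∈ F, -y ∈ F) (z : Vec K r) : 0 ≤ ∑ y ∈ F, (ec (y ⬝ᵥ z)).re := by
  by_cases h : ∃ y₀ ∈ F, y₀ ⬝ᵥ z ≠ 0
  · obtain ⟨y₀, h₀, hz⟩ := h
    exact (csum F hF hn z y₀ h₀ hz).ge
  · push Not at h
    exact sum_nonneg fun y hy => by rw [h y hy, ec_zero]; simp

theorem two_idx (hK : 1 ≤ K) {v w : Vec K r} (h : Ind v w) (j : Fin r) : ∃ l, l ≠ j := by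
  by_contra hc
  push Not at hc
  have e : w j • v + (-v j) • w = 0 := by
    funext l
    rw [hc l]
    simp only [Pi.add_apply, Pi.smul_apply, smul_eq_mul, Pi.zero_apply]
    ring
  have h1 := (ind_free hK h _ _ e).1
  apply h.2.1
  funext l
  rw [hc l]
  simp [h1]

theorem lam_ex (hr : ∀ j : Fin r, ∃ l, l ≠ j) (x a : Vec K r) (hx : 2 ^ (K - 1) • x ≠ 0) :
    ∃ lam : Vec K r, 2 ^ (K - 1) • (lam ⬝ᵥ x) ≠ 0 ∧
      (a ≠ 0 → ∃ y', lam ⬝ᵥ y' = 0 ∧ y' ⬝ᵥ a ≠ 0) := by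
  obtain ⟨k, hk⟩ := Function.ne_iff.1 hx
  have hk' : 2 ^ (K - 1) • x k ≠ 0 := hk
  by_cases ha : a = 0
  · exact ⟨Pi.single k 1, by simpa using hk', fun h => absurd ha h⟩
  by_cases h : ∃ j k, j ≠ k ∧ a j ≠ 0 ∧ 2 ^ (K - 1) • x k ≠ 0
  · obtain ⟨j, k, hjk, hj, hk⟩ := h
    refine ⟨Pi.single k 1, by simpa using hk, fun _ => ⟨Pi.single j 1, ?_, by simpa using hj⟩⟩
    simp [hjk.symm]
  · push Not at h
    obtain ⟨j, hj⟩ := Function.ne_iff.1 ha
    have hj' : a j ≠ 0 := hj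
    have hjk : j = k := by
      by_contra hc
      exact hk' (h j k hc hj')
    subst hjk
    obtain ⟨l, hl⟩ := hr j
    have h1 : 2 ^ (K - 1) • x l = 0 := h j l hl.symm hj'
    have h2 : a l = 0 := by
      by_contra hc
      exact hk' (h l j hl hc)
    refine ⟨Pi.single j 1 - Pi.single l 1, ?_, fun _ => ⟨Pi.single j 1 + Pi.single l 1, ?_, ?_⟩⟩
    · rw [sub_dotProduct, single_dotProduct, single_dotProduct, one_mul, one_mul, smul_sub, h1,
        sub_zero]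
      exact hk'
    · simp [hl, hl.symm]
    · rw [add_dotProduct, single_dotProduct, single_dotProduct, one_mul, one_mul, h2, add_zero]
      exact hj'

/-- The small kernel of the reference matrix. -/
def NN (A₀ : Mat K r) : Finset (Vec K r) := univ.filter fun u => 2 ^ 2 • u = 0 ∧ A₀.mulVec u = 0

/-- The primitive kernel vectors. -/
def PK (A : Mat K r) : Finset (Vec K r) :=
  univ.filter fun x => 2 ^ (K - 1) • x ≠ 0 ∧ A.mulVec x = 0

theorem same {A A₀ : Mat K r} (hA : 2 ^ (K - 2) • A = 2 ^ (K - 2) • A₀) (x : Vec K r) :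
    A.mulVec (2 ^ (K - 2) • x) = A₀.mulVec (2 ^ (K - 2) • x) := by
  rw [Matrix.mulVec_smul, Matrix.mulVec_smul, ← Matrix.smul_mulVec, hA, Matrix.smul_mulVec]

theorem card_PK (hK : 3 ≤ K) {A A₀ : Mat K r} (hA : 2 ^ (K - 2) • A = 2 ^ (K - 2) • A₀)
    {v w : Vec K r} (h : Ind v w) (hv : A.mulVec v = 0) (hw : A.mulVec w = 0) :
    2 ^ K * (2 ^ K * (NN A₀).card) ≤ 32 * (PK A).card := by
  have key := fib (G := ZMod (2 ^ K) × ZMod (2 ^ K) × Vec K r)
    (fun p => (2 • p.1 + 1) • v + p.2.1 • w + p.2.2) (univ ×ˢ univ ×ˢ NN A₀)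
    (((univ.filter fun u : ZMod (2 ^ K) => 2 ^ 3 • u = 0) ×ˢ
      (univ.filter fun u : ZMod (2 ^ K) => 2 ^ 2 • u = 0)).image
        fun q => (q.1, q.2, -((2 • q.1) • v + q.2 • w))) (PK A) ?_ ?_
  · rw [card_product, card_product, card_univ, ZMod.card] at key
    refine key.trans (Nat.mul_le_mul_right _ (card_image_le.trans ?_))
    rw [card_product]
    exact Nat.mul_le_mul (card_tor hK) (card_tor (b := 2) (by omega))
  · rintro ⟨a, b, u⟩ hp
    have hu := (mem_filter.1 (mem_product.1 (mem_product.1 hp).2).2).2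
    simp only at hu
    refine mem_filter.2 ⟨mem_univ _, fun hc => ?_, ?_⟩
    · have e1 : 2 ^ (K - 1) • u = 0 := by
        have e : 2 ^ (K - 1) = 2 ^ (K - 3) * 2 ^ 2 := by rw [← pow_add]; congr 1; omega
        rw [e, mul_nsmul', hu.1, smul_zero]
      simp only [smul_add, e1, add_zero] at hc
      rw [← smul_assoc, ← smul_assoc] at hc
      have h1 := (ind_free (by omega) h _ _ hc).1
      have e2 : 2 ^ (K - 1) • 2 • a = 0 := by
        rw [← mul_nsmul', ← pow_succ, Nat.sub_add_cancel (by omega), top_zero]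
      rw [smul_add, e2, zero_add] at h1
      apply h.1
      rw [← one_smul (ZMod (2 ^ K)) v, ← smul_assoc, h1, zero_smul]
    · obtain ⟨u', e⟩ := div_vec (b := 2) (by omega) u hu.1
      have e1 : A.mulVec u = 0 := by rw [e, same hA, ← e, hu.2]
      simp only [Matrix.mulVec_add, Matrix.mulVec_smul, hv, hw, e1, smul_zero, add_zero]
  · rintro ⟨a, b, u⟩ hp ⟨a', b', u'⟩ hp' e
    have hu := (mem_filter.1 (mem_product.1 (mem_product.1 hp).2).2).2.1
    have hu' := (mem_filter.1 (mem_product.1 (mem_product.1 hp').2).2).2.1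
    simp only at hu hu' e
    have e1 : u - u' = -((2 • (a - a')) • v + (b - b') • w) := by
      rw [← sub_eq_zero] at e ⊢
      rw [← e]
      module
    have e2 : (2 ^ 2 • 2 • (a - a')) • v + (2 ^ 2 • (b - b')) • w = 0 := by
      rw [smul_assoc, smul_assoc (2 ^ 2) (b - b'), ← smul_add, ← neg_eq_zero, ← smul_neg, ← e1,
        smul_sub, hu, hu', sub_zero]
    have h1 := ind_free (by omega) h _ _ e2
    refine mem_image.2 ⟨(a - a', b - b'), mem_product.2 ⟨mem_filter.2 ⟨mem_univ _, ?_⟩,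
      mem_filter.2 ⟨mem_univ _, h1.2⟩⟩, ?_⟩
    · have h2 := h1.1
      rw [← mul_nsmul'] at h2
      exact h2
    · simp only [Prod.mk_sub_mk, e1]

/-- The hyperplane of a functional. -/
def HH (lam : Vec K r) : Finset (Vec K r) := univ.filter fun y => lam ⬝ᵥ y = 0

/-- The vectors whose multiple is in the small kernel. -/
def MM (A₀ : Mat K r) : Finset (Vec K r) := univ.filter fun x => 2 ^ (K - 2) • x ∈ NN A₀

theorem card_HH (lam : Vec K r) : (2 ^ K) ^ r ≤ (HH lam).card * 2 ^ K := by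
  have key := fib (fun y : Vec K r => lam ⬝ᵥ y) univ (HH lam) univ (fun _ _ => mem_univ _)
    fun a _ a' _ e => mem_filter.2 ⟨mem_univ _, by rw [dotProduct_sub, e, sub_self]⟩
  rwa [card_univ, card_univ, Fintype.card_fun, ZMod.card, Fintype.card_fin] at key

theorem card_MM (A₀ : Mat K r) : (MM A₀).card ≤ (2 ^ (K - 2)) ^ r * (NN A₀).card := by
  have key := fib (fun y : Vec K r => 2 ^ (K - 2) • y) (MM A₀)
    (univ.filter fun y : Vec K r => 2 ^ (K - 2) • y = 0) (NN A₀) (fun _ h => (mem_filter.1 h).2)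
    fun a _ a' _ e => mem_filter.2 ⟨mem_univ _, by rw [smul_sub, e, sub_self]⟩
  exact key.trans (Nat.mul_le_mul_right _ (card_tor_vec (Nat.sub_le _ _)))

theorem inner_bd (hK : 3 ≤ K) {A A₀ : Mat K r} (hA : 2 ^ (K - 2) • A = 2 ^ (K - 2) • A₀)
    (x lam : Vec K r)
    (hl : 2 ^ (K - 2) • A₀.mulVec x ≠ 0 →
      ∃ y', lam ⬝ᵥ y' = 0 ∧ y' ⬝ᵥ (2 ^ (K - 2) • A₀.mulVec x) ≠ 0) :
    (if A.mulVec x = 0 then ((HH lam).card : ℝ) else 0) - (if x ∈ MM A₀ then (2 ^ 2) ^ r else 0) ≤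
      ∑ y ∈ (HH lam).filter (fun y => ¬ 2 ^ 2 • y = 0), (ec (y ⬝ᵥ A.mulVec x)).re := by
  have e := sum_filter_add_sum_filter_not (HH lam) (fun y => 2 ^ 2 • y = 0)
    fun y => (ec (y ⬝ᵥ A.mulVec x)).re
  have a1 : ∀ y ∈ HH lam, ∀ y' ∈ HH lam, y + y' ∈ HH lam := fun y hy y' hy' =>
    mem_filter.2 ⟨mem_univ _, by
      rw [dotProduct_add, (mem_filter.1 hy).2, (mem_filter.1 hy').2, add_zero]⟩
  have a2 : ∀ y ∈ HH lam, -y ∈ HH lam := fun y hy =>
    mem_filter.2 ⟨mem_univ _, by rw [dotProduct_neg, (mem_filter.1 hy).2, neg_zero]⟩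
  have h1 : (if A.mulVec x = 0 then ((HH lam).card : ℝ) else 0) ≤
      ∑ y ∈ HH lam, (ec (y ⬝ᵥ A.mulVec x)).re := by
    split_ifs with h
    · simp [h, ec_zero]
    · exact csum_nonneg _ a1 a2 _
  have e4 : ∀ y : Vec K r, 2 ^ 2 • 2 ^ (K - 2) • y = 0 := fun y => by
    rw [← mul_nsmul', ← pow_add, Nat.add_sub_cancel' (by omega), top_zero]
  have h2 : ∑ y ∈ (HH lam).filter (fun y => 2 ^ 2 • y = 0), (ec (y ⬝ᵥ A.mulVec x)).re ≤
      if x ∈ MM A₀ then (2 ^ 2) ^ r else 0 := by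
    split_ifs with h
    · refine (sum_le_card_nsmul _ _ 1 fun y _ => ec_re _).trans ?_
      rw [nsmul_eq_mul, mul_one]
      have h3 : ((HH lam).filter (fun y => 2 ^ 2 • y = 0)).card ≤ (2 ^ 2) ^ r :=
        (card_le_card (filter_subset_filter _ (subset_univ _))).trans
          (card_tor_vec (b := 2) (by omega))
      exact_mod_cast h3
    · have h3 : 2 ^ (K - 2) • A₀.mulVec x ≠ 0 := fun hc => h (mem_filter.2 ⟨mem_univ _,
        mem_filter.2 ⟨mem_univ _, e4 x, by rw [Matrix.mulVec_smul, hc]⟩⟩)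
      obtain ⟨y', hy, hz⟩ := hl h3
      refine (csum _ (fun y hy y' hy' => ?_) (fun y hy => ?_) _ (2 ^ (K - 2) • y') ?_ ?_).le
      · exact mem_filter.2 ⟨a1 _ (mem_filter.1 hy).1 _ (mem_filter.1 hy').1, by
          rw [smul_add, (mem_filter.1 hy).2, (mem_filter.1 hy').2, add_zero]⟩
      · exact mem_filter.2 ⟨a2 _ (mem_filter.1 hy).1, by
          rw [smul_neg, (mem_filter.1 hy).2, neg_zero]⟩
      · exact mem_filter.2 ⟨mem_filter.2 ⟨mem_univ _, by rw [dotProduct_smul, hy, smul_zero]⟩, e4 _⟩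
      · rwa [smul_dotProduct, ← dotProduct_smul, ← Matrix.mulVec_smul, same hA, Matrix.mulVec_smul]
  linarith

end Ker

open Ker in
theorem ker_thm : KerStmt := by
  intro K r A₀ hK _
  by_cases hI : ∃ v w : Vec K r, Ind v w
  swap
  · refine ⟨∅, fun _ => 0, fun _ => ⟨le_rfl, zero_le_one⟩, by simp, fun A _ => ⟨?_, ?_⟩⟩
    · rw [sum_empty]; positivity
    · rintro ⟨v, w, h, -⟩
      exact absurd ⟨v, w, h⟩ hI
  obtain ⟨v₀, w₀, h₀⟩ := hI
  have hl : ∀ x : Vec K r, ∃ lam : Vec K r, 2 ^ (K - 1) • x ≠ 0 →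
      2 ^ (K - 1) • (lam ⬝ᵥ x) ≠ 0 ∧ (2 ^ (K - 2) • A₀.mulVec x ≠ 0 →
        ∃ y', lam ⬝ᵥ y' = 0 ∧ y' ⬝ᵥ (2 ^ (K - 2) • A₀.mulVec x) ≠ 0) := fun x => by
    by_cases hx : 2 ^ (K - 1) • x = 0
    · exact ⟨0, fun h => absurd hx h⟩
    · obtain ⟨lam, h⟩ := lam_ex (two_idx (by omega) h₀) x (2 ^ (K - 2) • A₀.mulVec x) hx
      exact ⟨lam, fun _ => h⟩
  choose lam hlam using hl
  have hN : (1 : ℝ) ≤ (NN A₀).card := by
    exact_mod_cast card_pos.2 ⟨0, mem_filter.2 ⟨mem_univ _, by simp⟩⟩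
  have hH : ∀ x, (1 : ℝ) ≤ (HH (lam x)).card := fun x => by
    exact_mod_cast card_pos.2 ⟨0, mem_filter.2 ⟨mem_univ _, by simp⟩⟩
  have h8 : (8 : ℝ) ≤ 2 ^ K := by
    calc (8 : ℝ) = 2 ^ 3 := by norm_num
      _ ≤ _ := pow_le_pow_right₀ (by norm_num) hK
  obtain ⟨κ, hκ⟩ : ∃ κ : ℝ, κ = 32 / (2 ^ K * (2 ^ K * (NN A₀).card)) := ⟨_, rfl⟩
  have κ0 : 0 < κ := by rw [hκ]; positivity
  have κ1 : κ ≤ 1 := by
    rw [hκ, div_le_one (by positivity)]
    nlinarith [mul_le_mul h8 hN zero_le_one (by positivity : (0 : ℝ) ≤ 2 ^ K)]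
  refine ⟨univ.filter fun t => 2 ^ (K - 1) • t.1 ≠ 0 ∧ t.2 ∈ HH (lam t.1) ∧ ¬ 2 ^ 2 • t.2 = 0,
    fun t => κ / (HH (lam t.1)).card, fun t => ⟨by positivity, ?_⟩, fun t ht => ?_, fun A hA => ?_⟩
  · exact (div_le_self κ0.le (hH _)).trans κ1
  · obtain ⟨hx, hy, h4⟩ := (mem_filter.1 ht).2
    obtain ⟨k, y', k1, k2, hy', e⟩ := decomp t.2 h4
    refine ⟨k, y', k1, k2, ⟨hx, hy', fun hc => (hlam _ hx).1 ?_⟩, e⟩
    have h1 := (mem_filter.1 hy).2
    have e1 : 2 ^ (K - 1) = 2 ^ k * 2 ^ (K - 1 - k) := by rw [← pow_add]; congr 1; omega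
    rw [← dotProduct_smul, hc, e1, mul_nsmul', ← e, dotProduct_smul, h1, smul_zero]
  have key : κ * (PK A).card - 32 / 2 ^ K ≤ ∑ t ∈ univ.filter fun t : Vec K r × Vec K r =>
      2 ^ (K - 1) • t.1 ≠ 0 ∧ t.2 ∈ HH (lam t.1) ∧ ¬ 2 ^ 2 • t.2 = 0,
      κ / (HH (lam t.1)).card * (ec (bf t.2 A t.1)).re := by
    obtain ⟨ρ, hρ⟩ : ∃ ρ : ℝ, ρ = (2 ^ 2) ^ r * 2 ^ K / (2 ^ K) ^ r := ⟨_, rfl⟩
    have ρ0 : 0 ≤ ρ := by rw [hρ]; positivity
    have h1 : ∀ x, (if x ∈ PK A then κ else 0) - (if x ∈ MM A₀ then κ * ρ else 0) ≤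
        ∑ y, if 2 ^ (K - 1) • x ≠ 0 ∧ y ∈ HH (lam x) ∧ ¬ 2 ^ 2 • y = 0 then
          κ / (HH (lam x)).card * (ec (bf y A x)).re else 0 := fun x => by
      by_cases hx : 2 ^ (K - 1) • x = 0
      · have h2 : x ∉ PK A := fun hc => (mem_filter.1 hc).2.1 hx
        rw [if_neg h2, sum_eq_zero fun y _ => if_neg fun hc => hc.1 hx]
        split_ifs
        · nlinarith
        · simp
      · have h2 := inner_bd hK hA x (lam x) (hlam x hx).2
        have h3 : (∑ y, if 2 ^ (K - 1) • x ≠ 0 ∧ y ∈ HH (lam x) ∧ ¬ 2 ^ 2 • y = 0 then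
            κ / (HH (lam x)).card * (ec (bf y A x)).re else 0) = κ / (HH (lam x)).card *
            ∑ y ∈ (HH (lam x)).filter (fun y => ¬ 2 ^ 2 • y = 0), (ec (y ⬝ᵥ A.mulVec x)).re := by
          rw [← sum_filter, mul_sum]
          refine sum_congr ?_ fun y _ => rfl
          ext y
          simp only [mem_filter, mem_univ, true_and, ne_eq, hx, not_false_eq_true]
        have h4 := hH x
        rw [h3]
        refine le_trans ?_ (mul_le_mul_of_nonneg_left h2 (by positivity))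
        rw [mul_sub]
        refine sub_le_sub ?_ ?_
        · by_cases h5 : A.mulVec x = 0
          · have h6 : x ∈ PK A := mem_filter.2 ⟨mem_univ _, hx, h5⟩
            rw [if_pos h6, if_pos h5, div_mul_cancel₀ _ (by positivity)]
          · have h6 : x ∉ PK A := fun hc => h5 (mem_filter.1 hc).2.2
            rw [if_neg h6, if_neg h5, mul_zero]
        · split_ifs
          · have h6 : ((2 : ℝ) ^ K) ^ r ≤ (HH (lam x)).card * 2 ^ K := by
              exact_mod_cast card_HH (lam x)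
            rw [div_mul_eq_mul_div, mul_div_assoc]
            refine mul_le_mul_of_nonneg_left ?_ κ0.le
            rw [hρ, div_le_div_iff₀ (by positivity) (by positivity), mul_assoc]
            refine mul_le_mul_of_nonneg_left (h6.trans (mul_comm _ _).le) (by positivity)
          · simp
    rw [sum_filter, Fintype.sum_prod_type]
    refine le_trans ?_ (sum_le_sum fun x _ => h1 x)
    rw [sum_sub_distrib, sum_ite_mem, sum_ite_mem, univ_inter, univ_inter, sum_const, sum_const,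
      nsmul_eq_mul, nsmul_eq_mul, mul_comm]
    refine sub_le_sub_left ?_ _
    have h7 : ((MM A₀).card : ℝ) ≤ (2 ^ (K - 2)) ^ r * (NN A₀).card := by
      exact_mod_cast card_MM A₀
    refine (mul_le_mul_of_nonneg_right h7 (by positivity)).trans (le_of_eq ?_)
    have e : ((2 : ℝ) ^ K) ^ r = (2 ^ (K - 2)) ^ r * (2 ^ 2) ^ r := by
      rw [← mul_pow, ← pow_add, Nat.sub_add_cancel (by omega)]
    rw [hκ, hρ, e]
    field_simp
  refine ⟨?_, ?_⟩
  · have : 0 ≤ κ * (PK A).card := by positivity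
    linarith
  · rintro ⟨v, w, h, hv, hw⟩
    have h1 : (2 : ℝ) ^ K * (2 ^ K * (NN A₀).card) ≤ 32 * (PK A).card := by
      exact_mod_cast card_PK hK hA h hv hw
    have h2 : 1 ≤ κ * (PK A).card := by
      rw [hκ, div_mul_eq_mul_div, le_div_iff₀ (by positivity), one_mul]
      exact h1
    linarith

end Pool.Agent.Lib.MP_d6ddbd_nt.GO
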