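import Pool.Agent.Lib.MP_d6ddbd_nt.GO.Stmt
import Pool.Agent.Lib.MP_d6ddbd_nt.K11.AllX

/-!
Selmer classes that ramify at a large prime.
-/

set_option autoImplicit false

open Finset NumberField
open Pool.Agent.Stark (Pr og)
open Pool.Agent.Lib.MP_d6ddbd_nt.K11 Pool.Agent.Lib.MP_d6ddbd_nt.KI
open Pool.Agent.Lib.MP_d6ddbd_nt.GG (sg bnd)
open scoped Classical

noncomputable section

namespace Pool.Agent.Lib.MP_d6ddbd_nt.GO

namespace Large

variable {L : Type} [Field L] [NumberField L] {θ : L}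

/-- The class `α` of the twist by `d` is not detected by `S` and ramifies over `l`. -/
def Bp (θ : L) (S : Finset ℕ) (d : ℤ) (l : ℕ) (α : L) : Prop :=
  Fam d ∧ (∀ q ∈ S, ¬ (q : ℤ) ∣ d) ∧ SelC θ d α ∧ (∀ q ∈ S, fv q α = 0) ∧
    ∃ 𝔭 ∈ ab L l, Odd (og 𝔭 α)

theorem wc (hθ : Cub θ) {S : Finset ℕ} {d : ℤ} {l : ℕ} {α : L} (h : Bp θ S d l α) : Wc d ∅ α :=
  (((lAll L θ hθ d h.1).1 α).1 h.2.2.1).1

theorem ex_pr (hθ : Cub θ) : ∃ 𝔭 : ℕ → Pr L, ∀ q : ℕ, q.Prime → 11 < q → nr q = 1 →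
    nm (𝔭 q) = q ∧ ∀ α : L, α ≠ 0 → (∀ 𝔮 ∈ ab L q, Even (og 𝔮 α)) → fv q α = nsq (𝔭 q) α := by
  obtain ⟨-, -, -, 𝔯, -⟩ := (pr_thm L θ hθ).1
  have key : ∀ q : ℕ, ∃ 𝔭 : Pr L, q.Prime → 11 < q → nr q = 1 →
      nm 𝔭 = q ∧ ∀ α : L, α ≠ 0 → (∀ 𝔮 ∈ ab L q, Even (og 𝔮 α)) → fv q α = nsq 𝔭 α := fun q => by
    by_cases h : q.Prime ∧ 11 < q ∧ nr q = 1
    · obtain ⟨a, -, -, b, -⟩ := (pr_thm L θ hθ).2.2.1 q h.1 (by omega) (by omega)
      obtain ⟨𝔭, 𝔮, -, c, e, f⟩ := b h.2.2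
      have m : 𝔭 ∈ ab L q := (c _).2 (Or.inl rfl)
      refine ⟨𝔭, fun _ _ _ => ⟨e, fun α h0 he => ?_⟩⟩
      have : ((ab L q).filter fun 𝔯 => nm 𝔯 = q) = {𝔭} := by
        ext 𝔯
        rw [mem_filter, mem_singleton, c]
        refine ⟨fun k => k.1.resolve_right fun k' => ?_, fun k => ⟨Or.inl k, k ▸ e⟩⟩
        have k2 := k.2
        rw [k', f] at k2
        nlinarith [h.2.1]
      rw [fv, this, sum_singleton, Cheb.hq_unr 𝔭 (a 𝔭 m).2.1 h0 (he 𝔭 m) (a 𝔭 m).1, nsq]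
    · exact ⟨𝔯, fun a b c => absurd ⟨a, b, c⟩ h⟩
  choose 𝔭 h using key
  exact ⟨𝔭, h⟩

theorem gm (hθ : Cub θ) {S : Finset ℕ} {n : ℤ} {l : ℕ} {α : L} (hl : l.Prime)
    (h : Bp θ S (n * l) l α) : GG.Gm n.natAbs l α := by
  have w := wc hθ h
  have n0 : n ≠ 0 := left_ne_zero_of_mul h.1.sf.ne_zero
  obtain ⟨𝔭, a, b⟩ := h.2.2.2.2
  refine ⟨w.ne, fun 𝔮 h' => ?_, 𝔭, (mem_ab' hl.ne_zero).1 a, b⟩
  obtain ⟨-, p, c, e, f⟩ := (pr_thm L θ hθ).2.2.2.2.1 𝔮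
  have k : 2 * n.natAbs * l ≠ 0 := by simp [n0, hl.ne_zero]
  refine w.ev p c (fun hd => h' ((mem_ab' k).1 ((f _ k).2 ?_))) (by simp) 𝔮 e
  rw [mul_assoc]
  refine Dvd.dvd.mul_left ?_ 2
  simpa [Int.natAbs_mul] using Int.natCast_dvd.1 hd

theorem bnd_le {C c D X y z Y Λ : ℝ} (hC : 0 < C) (hc : 0 < c) (hD : 1 ≤ D) (hX : 1 ≤ X)
    (hy : 11 ≤ y) (hz : 11 ≤ z) (h1 : z ≤ Y) (h2 : Y ≤ X) (h3 : Real.log X ≤ Λ)
    (h4 : Real.log y ≤ Λ) : bnd C c (D * X) y Y ≤ C * (Real.log D + 3) ^ 3 * Λ ^ 3 * y * Y *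
      Real.exp (-(c / (Real.log D + 3) * Real.log y * Real.log z / Λ)) := by
  have a1 : 1 ≤ Real.log y := by
    rw [Real.le_log_iff_exp_le (by linarith)]
    linarith [Real.exp_one_lt_d9]
  have a2 := Real.log_nonneg hD
  have a3 := Real.log_nonneg hX
  have a4 := Real.log_le_log (by linarith) h1
  have a5 := Real.log_le_log (by linarith) h2
  have a6 : 0 ≤ Real.log z := Real.log_nonneg (by linarith)
  have e : Real.log (D * X * y * Y) = Real.log D + Real.log X + Real.log y + Real.log Y := by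
    rw [Real.log_mul (by positivity) (by linarith), Real.log_mul (by positivity) (by linarith),
      Real.log_mul (by linarith) (by linarith)]
  have b1 : Real.log (D * X * y * Y) ≤ (Real.log D + 3) * Λ := by nlinarith
  have b2 : 0 < Real.log (D * X * y * Y) := by linarith
  have hΛ : 0 < Λ := by linarith
  have b3 : c / (Real.log D + 3) * Real.log y * Real.log z / Λ ≤
      c * Real.log y * Real.log Y / Real.log (D * X * y * Y) := by
    have := mul_nonneg (mul_nonneg hc.le (zero_le_one.trans a1)) (a6.trans a4)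
    rw [show c / (Real.log D + 3) * Real.log y * Real.log z / Λ =
      c * Real.log y * Real.log z / ((Real.log D + 3) * Λ) by field_simp]
    gcongr
  have hY : 0 ≤ Y := by linarith
  rw [bnd, mul_assoc C _ (Λ ^ 3), ← mul_pow]
  gcongr

theorem dyad {z X : ℝ} {l : ℕ} (hz : 1 ≤ z) (h1 : z < l) (h2 : (l : ℝ) ≤ X) :
    ∃ j ∈ range (⌊2 * Real.log X⌋₊ + 1), 2 ^ j * z < l ∧ (l : ℝ) ≤ 2 * (2 ^ j * z) := by
  have h : ∃ j : ℕ, (l : ℝ) ≤ 2 * (2 ^ j * z) := by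
    obtain ⟨j, hj⟩ := pow_unbounded_of_one_lt (l : ℝ) one_lt_two
    exact ⟨j, by nlinarith [pow_pos (two_pos (α := ℝ)) j]⟩
  have k : 2 ^ Nat.find h * z < l := by
    rcases e : Nat.find h with _ | j
    · simpa using h1
    · have := Nat.find_min h (m := j) (by omega)
      rw [pow_succ]
      linarith
  refine ⟨_, mem_range.2 (Nat.lt_succ_of_le (Nat.le_floor ?_)), k, Nat.find_spec h⟩
  have p := pow_pos (two_pos (α := ℝ)) (Nat.find h)
  have := Real.log_le_log p (show 2 ^ Nat.find h ≤ X by nlinarith)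
  rw [Real.log_pow] at this
  nlinarith [Real.log_two_gt_d9, (Nat.cast_nonneg (Nat.find h) : (0 : ℝ) ≤ _)]

end Large

open Large

theorem large_thm (hL : GG.LsStmt) : LargeStmt := by
  intro L _ _ θ hθ
  obtain ⟨C, c, hC, hc, H⟩ := hL 3
  obtain ⟨𝔭, h𝔭⟩ := ex_pr hθ
  set D : ℝ := |(discr L : ℝ)| with hD'
  have hD : 1 ≤ D := by
    rw [hD', ← Int.cast_abs]
    exact_mod_cast Int.one_le_abs (discr_ne_zero L)
  have hκ : 0 < Real.log D + 3 := by linarith [Real.log_nonneg hD]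
  refine ⟨6 * C * (Real.log D + 3) ^ 3, c / (Real.log D + 3), by positivity, by positivity,
    fun X y z Λ S hX hy hz h3 h4 hS => ?_⟩
  set E : ℝ := C * (Real.log D + 3) ^ 3 * Λ ^ 3 * y *
    Real.exp (-(c / (Real.log D + 3) * Real.log y * Real.log z / Λ)) with hE
  have a1 : 1 ≤ Λ := by
    refine le_trans ?_ h4
    rw [Real.le_log_iff_exp_le (by linarith)]
    linarith [Real.exp_one_lt_d9]
  have hE0 : 0 ≤ E := by positivity
  have hq : ∀ q ∈ S, 11 < q := fun q h => by exact_mod_cast hy.trans_lt (hS q h).2.2.1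
  let J : ℝ → ℤ → Finset ℕ := fun Y n => (range (⌊X⌋₊ + 1)).filter fun l =>
    l.Prime ∧ Y < l ∧ (l : ℝ) ≤ 2 * Y ∧ ∃ α, Bp θ S (n * l) l α
  have key : ∀ (Y : ℝ) (n : ℤ), z ≤ Y → |(n : ℝ)| ≤ X → ((J Y n).card : ℝ) * S.card ≤ E * Y := by
    intro Y n h1 hn
    rcases (J Y n).eq_empty_or_nonempty with e | ⟨l₀, hl₀⟩
    · rw [e, card_empty, Nat.cast_zero, zero_mul]
      exact mul_nonneg hE0 (by linarith)
    obtain ⟨b0, -, b1, -, α₀, b2⟩ := mem_filter.1 hl₀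
    have b3 : (l₀ : ℝ) ≤ X := (Nat.le_floor_iff (by linarith)).1 (Nat.lt_succ_iff.1 (mem_range.1 b0))
    choose! γ hγ using fun l (hl : l ∈ J Y n) => (mem_filter.1 hl).2.2.2.2
    have h := H L (D * X) y Y n.natAbs (J Y n) S γ 𝔭 (fun _ => 1) hθ.rk.le (by nlinarith)
      (by rw [Nat.cast_natAbs, Int.cast_abs]; nlinarith)
      ⟨by simpa using left_ne_zero_of_mul b2.1.sf.ne_zero, by linarith, by linarith,
        fun l hl => ?_, fun q h => ?_⟩ (by simp)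
    · refine le_trans (le_of_eq ?_) (h.trans ((bnd_le hC hc hD hX hy hz h1 (by linarith) h3
        h4).trans (le_of_eq (by rw [hE]; ring))))
      rw [← nsmul_eq_mul, ← sum_const]
      refine sum_congr rfl fun l hl => ?_
      rw [sum_congr rfl (g := fun _ => 1) fun q h => ?_]
      · simp
      · have w := wc hθ (hγ l hl)
        rw [← (h𝔭 q (hS q h).1 (hq q h) (hS q h).2.1).2 _ w.ne
          (w.ev q (hS q h).1 ((hγ l hl).2.1 q h) (by simp)), (hγ l hl).2.2.2.1 q h]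
        simp [sg]
    · obtain ⟨-, c1, c2, c3, -⟩ := mem_filter.1 hl
      refine ⟨c1, c2, c3, fun hd => ?_, fun h => (hγ l hl).2.1 l h (dvd_mul_left _ _),
        gm hθ c1 (hγ l hl)⟩
      rcases c1.dvd_mul.1 hd with hd | hd
      · have : (l : ℝ) ≤ 2 := by exact_mod_cast Nat.le_of_dvd two_pos hd
        linarith
      · exact c1.not_isUnit (by simpa using Int.isUnit_iff_natAbs_eq.1 ((hγ l hl).1.sf (l : ℤ)
          (mul_dvd_mul_right (Int.natCast_dvd.2 hd) _)))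
    · refine ⟨(hS q h).1, (hS q h).2.2.1, (hS q h).2.2.2, fun hd => ?_,
        (h𝔭 q (hS q h).1 (hq q h) (hS q h).2.1).1⟩
      rcases (hS q h).1.dvd_mul.1 hd with hd | hd
      · have := Nat.le_of_dvd two_pos hd
        have := hq q h
        omega
      · exact b2.2.1 q h ((Int.natCast_dvd.2 hd).mul_right _)
  let N : ℝ → Finset ℤ := fun Y => (Icc (-(⌊X / Y⌋₊ : ℤ)) ⌊X / Y⌋₊).erase 0
  have sub : ((Icc (-⌊X⌋) ⌊X⌋).filter fun d : ℤ => Fam d ∧ (∀ q ∈ S, ¬ (q : ℤ) ∣ d) ∧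
      ∃ α, SelC θ d α ∧ (∀ q ∈ S, fv q α = 0) ∧ ∃ l : ℕ, l.Prime ∧ z < l ∧
        ∃ 𝔭 ∈ ab L l, Odd (og 𝔭 α)) ⊆ (range (⌊2 * Real.log X⌋₊ + 1)).biUnion fun j =>
      (N (2 ^ j * z)).biUnion fun n => (J (2 ^ j * z) n).image fun l : ℕ => n * l := fun d hd => by
    obtain ⟨d1, d2, d3, α, d4, d5, l, d6, d7, d8⟩ := mem_filter.1 hd
    have b : Bp θ S d l α := ⟨d2, d3, d4, d5, d8⟩
    obtain ⟨n, rfl⟩ : ∃ n : ℤ, d = n * l := by
      by_contra hn
      obtain ⟨𝔮, e1, e2⟩ := d8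
      exact Int.not_even_iff_odd.2 e2 ((wc hθ b).ev l d6
        (fun ⟨n, e⟩ => hn ⟨n, by rw [e, mul_comm]⟩) (by simp) 𝔮 e1)
    have n0 : n ≠ 0 := left_ne_zero_of_mul d2.sf.ne_zero
    have n1 : (1 : ℝ) ≤ |(n : ℝ)| := by exact_mod_cast Int.one_le_abs n0
    have n2 : |(n : ℝ)| * l ≤ X := by
      have := Int.le_floor.1 (abs_le.2 (mem_Icc.1 d1))
      push_cast at this
      rwa [abs_mul, Nat.abs_cast] at this
    have n3 : (l : ℝ) ≤ X := by nlinarith [(Nat.cast_nonneg l : (0 : ℝ) ≤ _)]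
    obtain ⟨j, j1, j2, j3⟩ := dyad (by linarith) d7 n3
    have p : 0 < 2 ^ j * z := by positivity
    refine mem_biUnion.2 ⟨j, j1, mem_biUnion.2 ⟨n, mem_erase.2 ⟨n0, mem_Icc.2 (abs_le.1 ?_)⟩,
      mem_image.2 ⟨l, mem_filter.2 ⟨mem_range.2 (Nat.lt_succ_of_le (Nat.le_floor n3)),
        d6, j2, j3, α, b⟩, rfl⟩⟩⟩
    rw [Int.natCast_floor_eq_floor (by positivity), Int.le_floor, le_div_iff₀ p]
    push_cast
    nlinarith
  have c1 : ∀ j : ℕ, ((((N (2 ^ j * z)).biUnion fun n => (J (2 ^ j * z) n).image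
      fun l : ℕ => n * l).card : ℕ) : ℝ) * S.card ≤ 2 * X * E := fun j => by
    have p1 : z ≤ 2 ^ j * z := by nlinarith [one_le_pow₀ (one_le_two (α := ℝ)) (n := j)]
    have p : 0 < 2 ^ j * z := by linarith
    have f1 := Nat.floor_le (a := X / (2 ^ j * z)) (by positivity)
    refine (mul_le_mul_of_nonneg_right (Nat.cast_le.2 (card_biUnion_le.trans
      (sum_le_sum fun n _ => card_image_le))) (by positivity)).trans ?_
    rw [Nat.cast_sum, sum_mul]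
    refine (sum_le_card_nsmul _ _ (E * (2 ^ j * z)) fun n hn => key _ n p1 ?_).trans ?_
    · have : |(n : ℝ)| ≤ ⌊X / (2 ^ j * z)⌋₊ := by
        exact_mod_cast abs_le.2 (mem_Icc.1 (mem_erase.1 hn).2)
      exact this.trans (f1.trans (div_le_self (by linarith) (by linarith)))
    · have : (N (2 ^ j * z)).card = 2 * ⌊X / (2 ^ j * z)⌋₊ := by
        rw [card_erase_of_mem (by simp), Int.card_Icc]
        omega
      rw [this, nsmul_eq_mul]
      push_cast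
      rw [le_div_iff₀ p] at f1
      nlinarith
  have c2 : ((⌊2 * Real.log X⌋₊ + 1 : ℕ) : ℝ) ≤ 3 * Λ := by
    have := Nat.floor_le (a := 2 * Real.log X) (by linarith [Real.log_nonneg hX])
    push_cast
    linarith
  refine (mul_le_mul_of_nonneg_right (Nat.cast_le.2 ((card_le_card (by convert sub)).trans
    card_biUnion_le)) (by positivity)).trans ?_
  rw [Nat.cast_sum, sum_mul]
  refine (sum_le_card_nsmul _ _ _ fun j _ => c1 j).trans ?_
  rw [card_range, nsmul_eq_mul]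
  refine (mul_le_mul_of_nonneg_right c2 (by positivity)).trans (le_of_eq ?_)
  rw [hE]
  ring

end Pool.Agent.Lib.MP_d6ddbd_nt.GO
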