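import Pool.Agent.Lib.MP_d6ddbd_nt.GO.Stmt

/-!
Density one for the twists of `X₀(11)`: the bound in a cell with a valid set of primes.
-/

set_option autoImplicit false

open Finset
open Pool.Agent.Lib.MP_d6ddbd_nt.K11 Pool.Agent.Lib.MP_d6ddbd_nt.KI
open Pool.Agent.Lib.MP_d6ddbd_nt.GG (sg bnd Opn Chr)
open scoped Classical

namespace Pool.Agent.Lib.MP_d6ddbd_nt.GO

namespace Loc1

variable {n : ℕ}

theorem nd {d₀ : ℤ} {Q : Finset ℕ} {J : Finset (Fin n)} {i₀ i₁ : Fin n} {p p' : Fin n → ℕ} {l : ℕ}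
    (hl : T3 d₀ l) (h11 : 11 < l) (hQ : ∀ q ∈ Q, q.Prime ∧ nr q = 1) (hp : ∀ i, (p i).Prime)
    (hp' : ∀ i, (p' i).Prime) (h1 : ∀ i, i ≠ i₀ → l ≠ p i)
    (h2 : ∀ i, i ≠ i₀ → i ≠ i₁ → l ≠ p' i) : ¬ l ∣ 2 * md d₀ Q J i₀ i₁ p p' := by
  have a1 : ¬ l ∣ 2 := fun h => by have := Nat.le_of_dvd two_pos h; omega
  have a2 : ¬ l ∣ 22 := hl.1.not_dvd_mul (m := 2) (n := 11) a1 fun h => by
    have := Nat.le_of_dvd (by norm_num) h
    omega
  refine hl.1.not_dvd_mul a1 (hl.1.not_dvd_mul (hl.1.not_dvd_mul (hl.1.not_dvd_mul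
    (hl.1.not_dvd_mul a2 fun h => hl.2.2 (Int.natCast_dvd.2 h)) fun h => ?_) fun h => ?_)
    fun h => ?_)
  · obtain ⟨q, hq, h⟩ := (Prime.dvd_finsetProd_iff hl.1.prime _).1 h
    have e := (Nat.prime_dvd_prime_iff_eq hl.1 (hQ q hq).1).1 h
    have h3 := hl.2.1
    rw [e, (hQ q hq).2] at h3
    exact one_ne_zero h3
  · obtain ⟨i, hi, h⟩ := (Prime.dvd_finsetProd_iff hl.1.prime _).1 h
    exact h1 i (ne_of_mem_erase hi) ((Nat.prime_dvd_prime_iff_eq hl.1 (hp i)).1 h)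
  · obtain ⟨i, hi, h⟩ := (Prime.dvd_finsetProd_iff hl.1.prime _).1 h
    exact h2 i (ne_of_mem_erase (mem_of_mem_erase hi)) (ne_of_mem_erase hi)
      ((Nat.prime_dvd_prime_iff_eq hl.1 (hp' i)).1 h)

theorem sub_le {y g : Fin n → ℝ} (hy : ∀ i, 11 ≤ y i) (h0 : ∀ i, 0 ≤ g i)
    (h : ∀ i, g i ≤ 2 * y i) (s : Finset (Fin n)) : ∏ i ∈ s, g i ≤ ∏ i, 2 * y i :=
  (prod_le_prod (fun i _ => h0 i) fun i _ => h i).trans (prod_le_prod_of_subset_of_one_le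
    (subset_univ s) (fun i _ => (h0 i).trans (h i)) fun i _ _ => by linarith [hy i])

theorem size {d₀ : ℤ} {Q : Finset ℕ} {J : Finset (Fin n)} {i₀ i₁ : Fin n} {p p' : Fin n → ℕ}
    {y : Fin n → ℝ} (hy : ∀ i, 11 ≤ y i) (h01 : i₀ ≠ i₁) (hp : ∀ i, (p i : ℝ) ≤ 2 * y i)
    (hp' : ∀ i, (p' i : ℝ) ≤ 2 * y i) : (md d₀ Q J i₀ i₁ p p' : ℝ) * y i₀ * y i₁ ≤
      22 * |(d₀ : ℝ)| * (∏ q ∈ Q, (q : ℝ)) * ∏ i, (2 * y i) ^ 3 := by
  have a1 := sub_le hy (fun i => Nat.cast_nonneg _) hp (univ.erase i₀)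
  have a2 := sub_le hy (fun i => Nat.cast_nonneg _) hp' ((J.erase i₀).erase i₁)
  have a3 := sub_le (g := y) hy (fun i => by linarith [hy i]) (fun i => by linarith [hy i]) {i₀, i₁}
  have a4 : 0 ≤ y i₀ * y i₁ := mul_nonneg (by linarith [hy i₀]) (by linarith [hy i₁])
  have a5 : (0 : ℝ) ≤ ∏ i, 2 * y i := prod_nonneg fun i _ => by linarith [hy i]
  rw [prod_pair h01] at a3
  unfold md
  push_cast
  rw [Nat.cast_natAbs, Int.cast_abs, prod_pow, mul_assoc _ (y i₀)]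
  calc _ ≤ 22 * |(d₀ : ℝ)| * (∏ q ∈ Q, (q : ℝ)) * (∏ i, 2 * y i) * (∏ i, 2 * y i) *
        ∏ i, 2 * y i := by gcongr
    _ = _ := by ring

theorem est {C c M y Y Λ V : ℝ} (hC : 0 < C) (hc : 0 < c) (hM : 1 ≤ M) (hy : 11 ≤ y) (hY : 11 ≤ Y)
    (hV : 0 ≤ V) (h1 : V ≤ Real.log y) (h2 : V ≤ Real.log Y) (h : M * y * Y ≤ Real.exp Λ) :
    bnd C c M y Y ≤ C * Λ ^ 3 * Real.exp (-(c * V ^ 2 / Λ)) * (y * Y) := by
  have a1 : 1 < M * y * Y := by nlinarith [mul_le_mul hM hy (by norm_num) (by linarith)]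
  have a2 := Real.log_pos a1
  have a3 : Real.log (M * y * Y) ≤ Λ := (Real.log_le_iff_le_exp (by linarith)).2 h
  have a4 : c * V ^ 2 / Λ ≤ c * Real.log y * Real.log Y / Real.log (M * y * Y) := by
    have := hV.trans h1
    have := hV.trans h2
    rw [sq, ← mul_assoc]
    gcongr
  have a5 := Real.exp_le_exp.2 (neg_le_neg a4)
  have a6 : 0 < Λ := a2.trans_le a3
  have a7 : 0 < y * Y := by positivity
  unfold bnd
  calc _ = C * Real.log (M * y * Y) ^ 3 * Real.exp (-(c * Real.log y * Real.log Y /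
        Real.log (M * y * Y))) * (y * Y) := by ring
    _ ≤ _ := by gcongr

theorem card_le {s : Finset ℕ} {y : ℝ} (hy : 0 ≤ y) (h : ∀ p ∈ s, y < p ∧ (p : ℝ) ≤ 2 * y) :
    (s.card : ℝ) ≤ 2 * y := by
  have h1 : s ⊆ Icc 1 ⌊2 * y⌋₊ := fun p hp => mem_Icc.2
    ⟨Nat.cast_pos.1 (hy.trans_lt (h p hp).1), Nat.le_floor (h p hp).2⟩
  have h2 := card_le_card h1
  rw [Nat.card_Icc, Nat.add_sub_cancel] at h2
  exact (Nat.cast_le.2 h2).trans (Nat.floor_le (by linarith))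

theorem triv (B : (Fin n → ℕ) → Prop) {P : Fin n → Finset ℕ} {y : Fin n → ℝ} {τ α : ℝ}
    (hy : ∀ i, 0 ≤ y i) (hτ : 0 ≤ τ) (hα : 0 ≤ α) (h : ∀ i, ((P i).card : ℝ) ≤ 2 * y i) {i : Fin n}
    (hi : ((P i).card : ℝ) ≤ τ * y i) : Bnd B P α (τ * 2 ^ n * ∏ i, y i) := by
  refine (Nat.cast_le.2 (card_filter_le _ _)).trans (le_add_of_nonneg_of_le (by positivity) ?_)
  have e : (2 : ℝ) ^ n * ∏ i, y i = ∏ i, 2 * y i := by simp [prod_mul_distrib]
  have h1 := hy i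
  rw [Fintype.card_piFinset, Nat.cast_prod, mul_assoc, e, ← mul_prod_erase _ _ (mem_univ i),
    ← mul_prod_erase _ _ (mem_univ i), ← mul_assoc]
  exact mul_le_mul (hi.trans (by nlinarith)) (prod_le_prod (fun _ _ => Nat.cast_nonneg _)
    fun j _ => h j) (prod_nonneg fun _ _ => Nat.cast_nonneg _) (by positivity)

end Loc1

theorem loc1_thm (hL : GG.LsG) (h1 : CubeStmt) (h2 : PartStmt) (h3 : ColStmt) : Loc1Stmt := by
  intro n D C Kg Val J₀ hn hA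
  obtain ⟨C', c', hC, hc, hL⟩ := hL D
  refine ⟨C', c', hC, hc, fun d₀ P Q y Λ V τ δ a hF hP hV hQ hN hS => ?_⟩
  obtain ⟨r, A, hr, hm, hT⟩ := hA.mat d₀ P Q hF hP hV
  obtain ⟨κ, k1, k2⟩ := h3 n (n + 1) r P _ A (by omega) hm
  have y0 : ∀ i, 0 < y i := fun i => by linarith [hN.y11 i]
  have t0 := hN.t0
  have a0 := hN.a0
  have b0 : 0 ≤ τ * 2 ^ n * ∏ i, y i :=
    mul_nonneg (by positivity) (prod_nonneg fun i _ => (y0 i).le)
  have key : ∀ P' : Fin n → Finset ℕ, (∀ i, P' i ⊆ P i) →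
      (∀ i, ∀ p ∈ P' i, ∀ p' ∈ P' i, κ i p = κ i p') → Bnd (fun p => ¬ Two (dd d₀ p) n) P'
        (16 / 2 ^ n + 4 ^ ((n + 1) * Q.card) * a) (τ * 2 ^ n * ∏ i, y i) := by
    intro P' hs hk
    by_cases hb : ∃ i, ((P' i).card : ℝ) ≤ τ * y i
    · obtain ⟨i, hi⟩ := hb
      exact Loc1.triv _ (fun i => (y0 i).le) t0.le (by positivity)
        (fun i => Loc1.card_le (y0 i).le fun p hp => hN.bx i p (hs i hp)) hi
    have hb' : ∀ i, τ * y i ≤ (P' i).card := fun i => (not_le.1 fun h => hb ⟨i, h⟩).le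
    have pf : Fintype.piFinset P' ⊆ Fintype.piFinset P := Fintype.piFinset_subset _ _ hs
    have d0 : ∀ i : Fin n, 0 ≤ δ := fun i => by
      by_contra hd
      have := hN.dg i
      have := mul_pos t0 (y0 i)
      nlinarith
    have h4 := h1 n r P' (fun p => ¬ Two (dd d₀ p) n) A δ a hn
      ⟨fun p hp => hm.ev p (pf hp), fun p hp => hm.ker p (pf hp),
        fun J p hp p' hp' => hm.dv J p (pf hp) p' (pf hp')⟩
      (fun p hp p' hp' => k2 p (pf hp) p' (pf hp') fun i =>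
        hk i _ (Fintype.mem_piFinset.1 hp i) _ (Fintype.mem_piFinset.1 hp' i))
      (fun i => (hN.dg i).trans (by rw [mul_assoc]; exact mul_le_mul_of_nonneg_left (hb' i) (d0 i)))
      a0 hN.cs fun x z hxz J i₀ i₁ m0 m1 h01 p hp p' hp' hD => by
      obtain ⟨U, σ, θ, u1, u2, u3, u4, u5⟩ := hT x z hxz J i₀ i₁ m0 m1 h01 p (pf hp) p' (pf hp') hD
      have q1 := Fintype.mem_piFinset.1 (pf hp)
      have q2 := Fintype.mem_piFinset.1 (pf hp')
      have ne : ∀ {i j l m}, l ∈ P i → m ∈ P j → j ≠ i → l ≠ m := fun {i j l m} hl hm h e =>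
        disjoint_left.1 (hP.dj j i h) hm (e ▸ hl)
      have nd : ∀ {i l}, l ∈ P i → (∀ i, i ≠ i₀ → l ≠ p i) → (∀ i, i ≠ i₀ → i ≠ i₁ → l ≠ p' i) →
          ¬ l ∣ 2 * md d₀ Q J i₀ i₁ p p' := fun {i l} hl => Loc1.nd (hP.ty i l hl)
        (by exact_mod_cast (hN.y11 i).trans_lt (hN.bx i l hl).1) hQ (fun i => (hP.ty i _ (q1 i)).1)
        fun i => (hP.ty i _ (q2 i)).1
      have M0 : md d₀ Q J i₀ i₁ p p' ≠ 0 := fun h =>
        nd (q1 i₀) (fun i hi => ne (q1 i₀) (q1 i) hi) (fun i hi _ => ne (q1 i₀) (q2 i) hi)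
          (by simp [h])
      refine ⟨fun l b => θ l (σ b), fun l hl e ho b hb b' hb' =>
        (u5 l (hs _ hl) e ho).2 b (hs _ hb) b' (hs _ hb'), ?_⟩
      have h5 := hL U _ (y i₀) (y i₁) ((P' i₁).filter fun l => l ≠ p i₁ ∧
        Obs J.card z (cb (J.erase i₀) A p (Function.update p' i₁ l)) x) (P' i₀) θ σ (fun _ => 1)
        u1 u2 M0 (by linarith [hN.y11 i₀]) (by linarith [hN.y11 i₁]) u3 (fun l hl => by
          obtain ⟨l1, l2, l3⟩ := mem_filter.1 hl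
          have l4 := hs _ l1
          refine ⟨(hP.ty _ l l4).1, (hN.bx _ l l4).1, (hN.bx _ l l4).2, nd l4 (fun i _ => ?_)
            fun i _ hi => ne l4 (q2 i) hi, fun h => ne l4 (hs _ h) h01 rfl, (u5 l l4 l2 l3).1⟩
          by_cases hi : i = i₁
          · exact hi ▸ l2
          · exact ne l4 (q1 i) hi) fun b hb => by
          have l4 := hs _ hb
          exact ⟨(hP.ty _ b l4).1, (hN.bx _ b l4).1, (hN.bx _ b l4).2,
            nd l4 (fun i hi => ne l4 (q1 i) hi) fun i hi _ => ne l4 (q2 i) hi, (u4 b l4).1,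
            (u4 b l4).2, by simp⟩
      simp only [one_mul] at h5
      refine h5.trans ((Loc1.est hC hc (by exact_mod_cast Nat.pos_of_ne_zero M0) (hN.y11 i₀)
        (hN.y11 i₁) hN.V0 (hN.lo i₀) (hN.lo i₁) ((Loc1.size hN.y11 h01
          (fun i => (hN.bx i _ (q1 i)).2) fun i => (hN.bx i _ (q2 i)).2).trans hS)).trans ?_)
      have c0 := y0 i₀
      have c1 := y0 i₁
      have c2 := d0 i₀
      have c3 := hb' i₀
      have c4 := hb' i₁
      calc _ ≤ δ * τ ^ 2 * (y i₀ * y i₁) := mul_le_mul_of_nonneg_right hN.sv (by positivity)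
        _ = δ * (τ * y i₀) * (τ * y i₁) := by ring
        _ ≤ _ := by gcongr
    refine h4.trans (add_le_add ?_ b0)
    gcongr
    norm_num
  have h6 := h2 n P _ _ κ (2 ^ Q.card ^ 2) _ _ b0
    (fun i => le_trans (le_of_eq (by congr; exact Subsingleton.elim _ _)) ((k1 i).trans
      (Nat.pow_le_pow_right two_pos (Nat.pow_le_pow_left hr 2))))
    fun c => key _ (fun i p hp => by
      simp only [mem_filter] at hp
      exact hp.1) fun i p hp p' hp' => by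
      simp only [mem_filter] at hp hp'
      exact hp.2.trans hp'.2.symm
  rwa [Nat.cast_pow, Nat.cast_ofNat] at h6

end Pool.Agent.Lib.MP_d6ddbd_nt.GO
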