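import Pool.Agent.Lib.MP_d6ddbd_nt.GO.Stmt
import Pool.Agent.Lib.MP_9177b7_ag.B.ZAsm1
import Pool.Agent.Lib.MP_9177b7_ag.B.Zero
import Pool.Agent.Lib.MP_9177b7_ag.B.Fac
import Pool.Agent.Lib.MP_9177b7_ag.B.ZetaBd
import Pool.Agent.Lib.MP_9177b7_ag.B.Theta
import Pool.Agent.Lib.MP_9177b7_ag.B.Pack
import Pool.Agent.Lib.MP_9177b7_ag.B.Red
import Pool.Agent.Lib.MP_9177b7_ag.B.Mert

/-!
Many primes at which a class of the cubic field is not a square.
-/

set_option autoImplicit false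

open Finset Filter Topology NumberField
open Pool.Agent.Lib.MP_d6ddbd_nt.K11 Pool.Agent.Lib.MP_d6ddbd_nt.KI
open Pool.Agent.Lib.MP_9177b7_ag
open Pool.Agent.Lib.MP_9177b7_ag.B (tsumP Pz LL)
open Pool.Agent.Shared.FrobeniusDensity (Bdd Lim psum_mono psum_mul)
open Pool.Agent.Shared.PrimeZeta (nI psum tendsto_psum_nI)
open scoped Classical

noncomputable section

namespace Pool.Agent.Lib.MP_d6ddbd_nt.GO

namespace Ps

theorem zeroS : B.ZeroStmt := B.zero (B.fac (B.zetaBd (B.theta_bd (B.pack B.red))))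

theorem bdd_one : Bdd fun _ => (1 : ℝ) := ⟨1, fun _ _ => by simp⟩

/-- The upper bound for the primes of degree one of a sextic field. -/
theorem upper : ∃ c C : ℝ, 0 < c ∧ c ≤ 1 ∧ ∀ (M : Type) [Field M] [NumberField M],
    Module.finrank ℚ M = 6 → ∀ (Lg x : ℝ), LL M ≤ Lg → 1 ≤ Lg → 2 ≤ x →
      Lg / c ≤ Real.log x →
      tsumP (fun q => nI M q) x ≤ Real.log (Real.log x) + 5 * Real.log (Lg / c) + C := by
  obtain ⟨c, B₀, hc0, hc1, hZ⟩ := zeroS 6
  obtain ⟨C₁, h1⟩ := B.mert.1 6 1 1 one_pos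
  obtain ⟨C₂, h2⟩ := B.mert.2
  refine ⟨c, C₁ + 2 * B₀ + 6 * (C₁ + C₂), hc0, hc1, fun M _ _ hM Lg x hL hL1 hx hlx => ?_⟩
  obtain ⟨ρ, hρ, hz⟩ := hZ M hM.le Lg hL
  have hLg : 0 < Lg := by linarith
  have hl0 : 0 < Real.log x := Real.log_pos (by linarith)
  set a : ℝ := (Real.log x)⁻¹ with ha
  set b : ℝ := c / Lg with hb
  have ha0 : 0 < a := by positivity
  have hb0 : 0 < b := by positivity
  have hbi : b⁻¹ = Lg / c := by rw [hb, inv_div]
  have hab : a ≤ b := by
    rw [ha, inv_le_comm₀ hl0 hb0, hbi]; exact hlx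
  have hb1 : 1 ≤ b⁻¹ := by
    rw [hbi, le_div_iff₀ hc0]; linarith
  have hn : ∀ q : ℕ, q.Prime → (nI M q : ℝ) ≤ 6 := fun q hq => by
    have := B.ZAsm.nI_le' M hq
    rw [hM] at this
    exact_mod_cast this
  have e1 : tsumP (fun q => nI M q) x ≤ Pz M a + C₁ := by
    have := h1 (fun q => nI M q) x a (fun q hq => by
      rw [abs_of_nonneg (by positivity)]; exact hn q hq) hx
      (by rw [ha, inv_mul_cancel₀ hl0.ne']) (by rw [ha, inv_mul_cancel₀ hl0.ne'])
    rw [abs_le] at this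
    rw [Pz]
    linarith [this.1]
  have hlog : 0 ≤ Real.log (b / a) := Real.log_nonneg (by rw [le_div_iff₀ ha0]; linarith)
  have e2 : Pz M a ≤ Pz M b + Real.log (b / a) + 2 * B₀ := by
    rcases le_total ρ a with h | h
    · have := (hz a b ha0 hab le_rfl).1 h
      have h0 := (abs_nonneg _).trans this
      linarith [(abs_le.1 this).2]
    rcases le_total b ρ with h' | h'
    · have := ((hz a b ha0 hab le_rfl).2.1 h').1
      have h0 := (abs_nonneg _).trans this
      linarith [(abs_le.1 this).2]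
    · have t1 := ((hz a ρ ha0 h h').2.1 le_rfl).1
      have t2 := (hz ρ b hρ h' le_rfl).1 le_rfl
      have t3 : Real.log (ρ / a) ≤ Real.log (b / a) := Real.log_le_log (by positivity) (by gcongr)
      linarith [(abs_le.1 t1).2, (abs_le.1 t2).2]
  have e3 : Pz M b ≤ 6 * (Real.log b⁻¹ + C₁ + C₂) := by
    have hy : 2 ≤ Real.exp b⁻¹ := by linarith [Real.add_one_le_exp b⁻¹]
    have t1 := h1 (fun _ => 1) (Real.exp b⁻¹) b (fun q hq => by norm_num) hy
      (by rw [Real.log_exp, mul_inv_cancel₀ hb0.ne']) (by rw [Real.log_exp, mul_inv_cancel₀ hb0.ne'])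
    have t2 := h2 _ hy
    rw [Real.log_exp] at t2
    have t3 := psum_mono (B.ZAsm.bdd_nI M) (bdd_one.mul 6) (fun q hq => by
      simpa using hn q hq) (s := 1 + b) (by linarith)
    rw [psum_mul] at t3
    rw [Pz]
    linarith [(abs_le.1 t1).2]
  have e4 : Real.log (b / a) = Real.log (Real.log x) - Real.log b⁻¹ := by
    rw [Real.log_div hb0.ne' ha0.ne', ha, Real.log_inv, Real.log_inv]; ring
  rw [← hbi]
  linarith

theorem two_pow_le (T : Finset ℕ) (hT : ∀ l ∈ T, l.Prime) : (2 : ℝ) ^ T.card ≤ ∏ l ∈ T, (l : ℝ) := by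
  rw [← prod_const]
  exact prod_le_prod (fun _ _ => by norm_num) fun l hl => by exact_mod_cast (hT l hl).two_le

/-- The primes of a finite set. -/
theorem small : ∃ C : ℝ, ∀ (T : Finset ℕ) (W : ℝ), (∀ l ∈ T, l.Prime) → 1 ≤ W →
    (T.card : ℝ) ≤ 2 * W → ∑ l ∈ T, 1 / (l : ℝ) ≤ Real.log W + C := by
  obtain ⟨C₂, h2⟩ := B.mert.2
  refine ⟨C₂ + 2, fun T W hT hW hc => ?_⟩
  have hy : 2 ≤ 2 * W := by linarith
  have t1 := h2 _ hy
  have t2 : Real.log (Real.log (2 * W)) ≤ Real.log W + 1 := by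
    have h0 : 0 < Real.log (2 * W) := Real.log_pos (by linarith)
    have h1 := Real.log_le_sub_one_of_pos h0
    have h3 := Real.log_le_sub_one_of_pos (show (0 : ℝ) < 2 by norm_num)
    rw [Real.log_mul (by norm_num) (by linarith)] at h1 ⊢
    linarith
  have t3 : ∑ l ∈ T.filter (fun l : ℕ => (l : ℝ) ≤ 2 * W), 1 / (l : ℝ) ≤ tsumP (fun _ => 1) (2 * W) := by
    refine sum_le_sum_of_subset_of_nonneg (fun l hl => ?_) fun _ _ _ => by positivity
    rw [mem_filter] at hl ⊢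
    exact ⟨mem_range.2 (Nat.lt_succ_of_le (Nat.le_floor hl.2)), hT l hl.1⟩
  have t4 : ∑ l ∈ T.filter (fun l : ℕ => ¬ (l : ℝ) ≤ 2 * W), 1 / (l : ℝ) ≤ 1 := by
    calc _ ≤ ∑ _l ∈ T.filter (fun l : ℕ => ¬ (l : ℝ) ≤ 2 * W), 1 / (2 * W) :=
          sum_le_sum fun l hl => one_div_le_one_div_of_le (by linarith)
            (not_le.1 (mem_filter.1 hl).2).le
      _ ≤ T.card * (1 / (2 * W)) := by
          rw [sum_const, nsmul_eq_mul]
          gcongr
          exact filter_subset _ _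
      _ ≤ 1 := by rw [mul_one_div, div_le_one (by linarith)]; exact hc
  rw [← sum_filter_add_sum_filter_not T fun l : ℕ => (l : ℝ) ≤ 2 * W]
  linarith

theorem split {c c' s : ℕ → ℝ} (T : Finset ℕ) (x : ℝ) (h0 : ∀ p, 0 ≤ s p)
    (h : ∀ p, p.Prime → p ∉ T → 2 * c p - c' p ≤ 6 * s p)
    (h' : ∀ p, p.Prime → 2 * c p - c' p ≤ 6) :
    2 * tsumP c x - tsumP c' x ≤ 6 * tsumP s x + 6 * ∑ l ∈ T, 1 / (l : ℝ) := by
  set S := (Finset.range (⌊x⌋₊ + 1)).filter Nat.Prime with hS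
  have t1 : ∑ p ∈ S, (if p ∈ T then 1 / (p : ℝ) else 0) ≤ ∑ l ∈ T, 1 / (l : ℝ) := by
    rw [← sum_filter]
    exact sum_le_sum_of_subset_of_nonneg (fun l hl => (mem_filter.1 hl).2) fun _ _ _ => by
      positivity
  have t2 : 2 * tsumP c x - tsumP c' x ≤
      6 * tsumP s x + 6 * ∑ p ∈ S, (if p ∈ T then 1 / (p : ℝ) else 0) := by
    rw [tsumP, tsumP, tsumP, mul_sum, mul_sum, mul_sum, ← sum_sub_distrib, ← sum_add_distrib]
    refine sum_le_sum fun p hp => ?_
    have hp' := (mem_filter.1 hp).2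
    have hp0 : (0 : ℝ) < p := by exact_mod_cast hp'.pos
    have e : 2 * (c p / p) - c' p / p = (2 * c p - c' p) / p := by ring
    rw [e]
    split_ifs with hT
    · have := div_le_div_of_nonneg_right (h' p hp') hp0.le
      have h1 : 0 ≤ s p / p := div_nonneg (h0 p) hp0.le
      rw [mul_one_div]
      linarith
    · have := div_le_div_of_nonneg_right (h p hp' hT) hp0.le
      rw [mul_div_assoc] at this
      linarith
  linarith

end Ps

open Ps in
theorem ps_thm (h1 : QdStmt) (h2 : RngStmt) : PsStmt := by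
  intro L _ _ θ hθ
  obtain ⟨c, C₁, hc0, hc1, hup⟩ := Ps.upper
  obtain ⟨C₂, hsm⟩ := Ps.small
  have hlim := (h2 (fun q => nI L q) 1 (B.ZAsm.bdd_nI L) (tendsto_psum_nI L)).1
  have hll : Tendsto (fun x : ℝ => Real.log (Real.log x)) atTop atTop :=
    Real.tendsto_log_atTop.comp Real.tendsto_log_atTop
  obtain ⟨x₀, hx₀⟩ := eventually_atTop.1 ((hlim.eventually (lt_mem_nhds
    (show (13 / 14 : ℝ) < 1 by norm_num))).and ((hll.eventually_gt_atTop 0).and
    ((eventually_ge_atTop (2 : ℝ)).and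
      (Real.tendsto_log_atTop.eventually_ge_atTop ((109 / c) ^ 2)))))
  refine ⟨C₂ + 1 + (5 * Real.log (109 / c) + C₁) / 6, x₀, fun T α x hT hE hα hx hW => ?_⟩
  obtain ⟨l1, l2, l3, l4⟩ := hx₀ x hx
  obtain ⟨M, _, _, hM, hd, hn⟩ := h1 L θ hθ T α hT hE hα
  set P : ℝ := ∏ l ∈ T, (l : ℝ) with hP
  have hP2 := two_pow_le T hT
  rw [← hP] at hP2
  have hP1 : 1 ≤ P := (one_le_pow₀ (by norm_num)).trans hP2
  set W : ℝ := Real.log (3 * P) with hWd
  have hW1 : 1 ≤ W := by
    rw [hWd, Real.le_log_iff_exp_le (by linarith)]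
    linarith [Real.exp_one_lt_d9]
  have hlW : 0 ≤ Real.log W := Real.log_nonneg hW1
  have hcard : (T.card : ℝ) ≤ 2 * W := by
    have t1 : Real.log (2 ^ T.card) ≤ W := Real.log_le_log (by positivity) (by linarith)
    rw [Real.log_pow] at t1
    have t2 : (0 : ℝ) ≤ T.card := Nat.cast_nonneg _
    nlinarith [Real.log_two_gt_d9]
  have hLL : LL M ≤ 109 * W := by
    have t0 : (1 : ℝ) ≤ |(discr M : ℝ)| := by
      rw [← Int.cast_abs]
      exact_mod_cast Int.one_le_abs (discr_ne_zero M)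
    have t1 : |(discr M : ℝ)| ≤ (22 * P) ^ 36 := by
      have := (Nat.cast_le (α := ℝ)).2 hd
      rw [Nat.cast_natAbs, Int.cast_abs] at this
      push_cast at this
      exact this
    have t2 : 22 * P ≤ (3 * P) ^ 3 := by nlinarith [one_le_pow₀ (n := 2) hP1]
    have t3 : |(discr M : ℝ)| ≤ (3 * P) ^ 108 := by
      rw [show 108 = 3 * 36 from rfl, pow_mul]
      exact t1.trans (pow_le_pow_left₀ (by linarith) t2 _)
    have t4 := Real.log_le_log (by linarith) t3
    rw [Real.log_pow, ← hWd] at t4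
    rw [LL]
    push_cast at t4
    linarith
  have hK : 0 < 109 / c := by positivity
  have hlx : 109 * W / c ≤ Real.log x := by
    have h0 : 0 ≤ Real.log x := Real.log_nonneg (by linarith)
    rw [show 109 * W / c = 109 / c * W by ring]
    refine (pow_le_pow_iff_left₀ (mul_nonneg hK.le (by linarith)) h0 two_ne_zero).1 ?_
    rw [mul_pow, sq (Real.log x)]
    exact mul_le_mul l4 hW (sq_nonneg _) h0
  have u1 := hup M hM (109 * W) x hLL (by linarith) l3 hlx
  rw [show 109 * W / c = 109 / c * W by ring, Real.log_mul hK.ne' (by linarith)] at u1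
  have u2 := hsm T W hT hW1 hcard
  have hL3 : ∀ p : ℕ, p.Prime → (nI L p : ℝ) ≤ 3 := fun p hp => by
    have := B.ZAsm.nI_le' L hp
    rw [hθ.rk] at this
    exact_mod_cast this
  have u3 := Ps.split (c := fun q => nI L q) (c' := fun q => nI M q) (s := ind {p | Ns T α p})
    (insert 2 (insert 11 T)) x (fun p => by rw [ind]; split_ifs <;> norm_num)
    (fun p hp hpT => by
      have g1 := hL3 p hp
      have g2 : (0 : ℝ) ≤ nI M p := Nat.cast_nonneg _
      rw [ind]
      split_ifs with h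
      · linarith
      · simp only [mem_insert, not_or] at hpT
        have : (2 * nI L p : ℝ) ≤ nI M p := by exact_mod_cast hn p hp hpT.2.2 hpT.1 hpT.2.1 h
        linarith)
    (fun p hp => by
      have g1 := hL3 p hp
      have g2 : (0 : ℝ) ≤ nI M p := Nat.cast_nonneg _
      linarith)
  have u4 : ∑ l ∈ insert 2 (insert 11 T), 1 / (l : ℝ) ≤ ∑ l ∈ T, 1 / (l : ℝ) + 1 := by
    have g : ∀ (a : ℕ) (S : Finset ℕ), ∑ l ∈ insert a S, 1 / (l : ℝ) ≤
        1 / (a : ℝ) + ∑ l ∈ S, 1 / (l : ℝ) := fun a S => by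
      by_cases h : a ∈ S
      · rw [insert_eq_of_mem h]
        exact le_add_of_nonneg_left (by positivity)
      · rw [sum_insert h]
    have g1 := g 2 (insert 11 T)
    have g2 := g 11 T
    push_cast at g1 g2
    linarith
  rw [lt_div_iff₀ l2] at l1
  linarith

end Pool.Agent.Lib.MP_d6ddbd_nt.GO
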