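import Pool.Agent.Lib.MP_d6ddbd_nt.GO.Stmt
import Pool.Agent.Lib.MP_d6ddbd_nt.K11.Pr
import Pool.Agent.Lib.MP_ca56d1_nt.SUnit

/-!
The number of square classes with given ramification, and the quadratic extension of the cubic
field that is attached to such a class.
-/

set_option autoImplicit false

open Finset NumberField
open Pool.Agent.Stark
open Pool.Agent.Lib.MP_d6ddbd_nt.K11
open Pool.Agent.Shared.PrimeZeta (nI idl mem_idl card_idl)
open scoped Classical

noncomputable section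

namespace Pool.Agent.Lib.MP_d6ddbd_nt.GO

namespace Qd

variable {L : Type} [Field L] [NumberField L]

theorem card_ab {θ : L} (h : Cub θ) {l : ℕ} (hl : l.Prime) : (ab L l).card ≤ 3 := by
  obtain ⟨⟨ϑ, -, -, 𝔭, h2, -⟩, ⟨𝔮, 𝔯, -, h11, -⟩, h3, -⟩ := pr_thm L θ h
  have pair : ∀ 𝔞 𝔟 : Pr L, (∀ 𝔠, 𝔠 ∈ ab L l ↔ 𝔠 = 𝔞 ∨ 𝔠 = 𝔟) → (ab L l).card ≤ 3 := by
    intro 𝔞 𝔟 H
    have : ab L l = {𝔞, 𝔟} := by
      ext 𝔠
      rw [H, mem_insert, mem_singleton]
    rw [this]
    exact card_le_two.trans (by norm_num)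
  by_cases e2 : l = 2
  · rw [e2, h2, card_singleton]
    norm_num
  by_cases e11 : l = 11
  · exact pair 𝔮 𝔯 (e11 ▸ h11)
  obtain ⟨-, -, a0, a1, a3, a | a | a⟩ := h3 l hl e2 e11
  · obtain ⟨𝔞, h, -⟩ := a0 a
    rw [h, card_singleton]
    norm_num
  · obtain ⟨𝔞, 𝔟, -, h, -⟩ := a1 a
    exact pair 𝔞 𝔟 h
  · exact (a3 a).1.le

theorem card_chr (S : Finset (Pr L)) : Nat.card (Chr S) ≤ Nat.card (Chr (∅ : Finset (Pr L))) := by
  have := Nat.finite_of_card_ne_zero (SUnitAux.card_Chr_ne (∅ : Finset (Pr L)))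
  have hle : Chr S ≤ Chr (∅ : Finset (Pr L)) := fun ψ hψ =>
    ⟨fun q hq => absurd hq (notMem_empty q), hψ.2⟩
  exact Nat.card_le_card_of_injective _ (Submodule.inclusion_injective hle)

variable {M : Type} [Field M] [NumberField M] [Algebra L M] {α : L}

theorem eI_one (E : Quad L M α) (Q : Pr M) (h2 : og (below L Q) (2 : L) = 0)
    (he : Even (og (below L Q) α)) : eI L Q = 1 := by
  rcases E.efg Q with h | h | ⟨hQ, h, -⟩
  · exact h.2.1
  · exact h.2.1
  exfalso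
  set q := below L Q with hq
  have a0 : emb q α ≠ 0 := (map_ne_zero _).2 E.a_ne
  have hns : ¬ LSq q α := fun hs => E.ne_of_lsq hs hQ
  have hu : Unr (wv q) (emb q α) := by
    refine (isLoc_wv q).unr_of_odd ?_ a0 (by rw [ord_emb]; exact he)
    rw [← map_ofNat (emb q) 2, ord_emb]
    exact h2
  obtain ⟨π, hπ⟩ := Q.valuation_exists_uniformizer M
  have h1 : og Q π = 1 := by
    rw [og, ord, hπ]
    simp
  have π0 : π ≠ 0 := by
    rintro rfl
    simp [og] at h1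
  obtain ⟨g, k, rfl⟩ := E.span π
  have hy : g ^ 2 - α * k ^ 2 ≠ 0 := E.norm_ne (by
    by_contra hn
    push Not at hn
    exact π0 (by simp [hn.1, hn.2]))
  have h3 := (E.og_norm Q hy).2.2
  rw [← E.og_act, hQ, h, h1, ← hq] at h3
  have h4 : og q (g ^ 2 - α * k ^ 2) = 1 := by
    push_cast at h3
    omega
  have h5 := (isLoc_wv q).hs_of_unr a0 hu ((map_ne_zero (emb q)).2 hy)
  rw [if_neg (show ¬ IsSquare (emb q α) from hns), ord_emb, h4, map_sub, map_mul, map_pow,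
    map_pow, hs_norm] at h5
  simp at h5

theorem nI_le (p : ℕ) (hp : p.Prime) : nI L p ≤ ((ab L p).filter fun 𝔭 => nm 𝔭 = p).card := by
  rw [← card_idl]
  refine le_trans (card_le_card ?_) (card_image_le (f := fun 𝔭 : Pr L => 𝔭.asIdeal))
  intro I hI
  have h := mem_idl.1 hI
  have h0 : I ≠ ⊥ := by
    rintro rfl
    rw [Ideal.absNorm_bot] at h
    exact hp.ne_zero h.symm
  refine mem_image.2 ⟨⟨I, Ideal.isPrime_of_irreducible_absNorm (h ▸ hp), h0⟩,
    mem_filter.2 ⟨(mem_ab' hp.ne_zero).2 ?_, h⟩, rfl⟩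
  have := Ideal.absNorm_mem I
  rwa [h] at this

theorem two_nI (E : Quad L M α) (p : ℕ) (hp : p.Prime)
    (H : ∀ 𝔭 ∈ ab L p, nm 𝔭 = p → LSq 𝔭 α) : 2 * nI L p ≤ nI M p := by
  obtain ⟨SK, hS⟩ := exists_above (K := M) ((ab L p).filter fun 𝔭 => nm 𝔭 = p)
  have h1 := E.card_above _ SK hS
  rw [filter_eq_empty_iff.2 fun 𝔭 h𝔭 hn => hn (H 𝔭 (mem_filter.1 h𝔭).1 (mem_filter.1 h𝔭).2),
    card_empty, add_zero] at h1
  have h2 : SK.card ≤ nI M p := by
    rw [← card_idl]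
    refine card_le_card_of_injOn (fun Q : Pr M => Q.asIdeal) (fun Q hQ => ?_)
      fun _ _ _ _ h => IsDedekindDomain.HeightOneSpectrum.ext h
    obtain ⟨h3, h4⟩ := mem_filter.1 ((hS Q).1 hQ)
    have h5 := E.ne_of_lsq (H _ h3 h4)
    rcases E.efg Q with h | h | h
    · exact mem_idl.2 (h.2.2.trans h4)
    · exact absurd h.1 h5
    · exact absurd h.1 h5
  have := nI_le (L := L) p hp
  omega

end Qd

theorem cls_thm : ClsStmt := by
  intro L _ _ θ h
  refine ⟨2 ^ Fintype.card (InfinitePlace L) * Nat.card (Chr (∅ : Finset (Pr L))), fun T hT => ?_⟩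
  set S : Finset (Pr L) := T.biUnion fun l => ab L l with hS
  have hc : S.card ≤ 3 * T.card := by
    refine card_biUnion_le.trans ?_
    rw [mul_comm]
    exact (sum_le_card_nsmul _ _ 3 fun l hl => Qd.card_ab h (hT l hl)).trans (by simp)
  have hfin : Finite (Sel S) := Nat.finite_of_card_ne_zero (by
    rw [SUnitAux.card_Sel]
    exact mul_ne_zero (pow_ne_zero _ two_ne_zero) (SUnitAux.card_Chr_ne S))
  have := Fintype.ofFinite (Sel S)
  choose r hr using cl_surj (k := L)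
  refine ⟨univ.image fun c : Sel S => r c.1, card_image_le.trans ?_, fun α hα => ?_⟩
  · rw [card_univ, ← Nat.card_eq_fintype_card, SUnitAux.card_Sel, pow_add, mul_right_comm,
      show (8 : ℕ) = 2 ^ 3 by norm_num, ← pow_mul]
    exact Nat.mul_le_mul (Nat.mul_le_mul_left _ (Qd.card_chr S))
      (Nat.pow_le_pow_right two_pos hc)
  · have hs : IsSel S α := ⟨hα.1, fun q hq => by
      obtain ⟨-, l, hl, h1, -⟩ := (pr_thm L θ h).2.2.2.2.1 q
      exact hα.2 l hl (fun hlT => hq (mem_biUnion.2 ⟨l, hlT, h1⟩)) q h1⟩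
    obtain ⟨h0, h1⟩ := hr (cl α)
    obtain ⟨t, ht⟩ := (cl_eq_cl hα.1 h0).1 h1.symm
    have t0 : t ≠ 0 := by
      rintro rfl
      exact mul_ne_zero hα.1 h0 (by simpa using ht)
    refine ⟨r (cl α), mem_image.2 ⟨⟨cl α, α, hs, rfl⟩, mem_univ _, rfl⟩, t / r (cl α),
      div_ne_zero t0 h0, ?_⟩
    field_simp
    linear_combination ht

theorem qd_thm (hD : GG.DiscStmt) : QdStmt := by
  intro L _ _ θ h T α hT hα hns
  obtain ⟨M, _, _, _, ⟨E⟩⟩ := exists_quad hns
  have hrk : Module.finrank ℚ M = 6 := by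
    rw [← Module.finrank_mul_finrank ℚ L M, h.rk, E.finrank_eq]
  refine ⟨M, inferInstance, inferInstance, hrk, ?_, fun p hp h1 h2 h3 h4 => ?_⟩
  · have h0 : 22 * ∏ l ∈ T, l ≠ 0 :=
      mul_ne_zero (by norm_num) (prod_ne_zero_iff.2 fun l hl => (hT l hl).ne_zero)
    have := hD M _ h0 fun p Q hp hd hQ => by
      have e2 : p ≠ 2 := by
        rintro rfl
        exact hd (Dvd.dvd.mul_right (by norm_num) _)
      have e11 : p ≠ 11 := by
        rintro rfl
        exact hd (Dvd.dvd.mul_right (by norm_num) _)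
      have eT : p ∉ T := fun hpT => hd (Dvd.dvd.mul_left (dvd_prod_of_mem (fun l => l) hpT) _)
      have hq : below L Q ∈ ab L p := by
        rw [mem_ab' hp.ne_zero]
        change algebraMap (𝓞 L) (𝓞 M) p ∈ Q.asIdeal
        rwa [map_natCast]
      obtain ⟨a1, a2, -⟩ := ((pr_thm L θ h).2.2.1 p hp e2 e11).1 _ hq
      rw [← map_natCast (algebraMap L M), og_algebraMap, a1,
        Qd.eI_one E Q a2 (hα.2 p hp eT _ hq)]
      simp
    rwa [hrk] at this
  · refine Qd.two_nI E p hp fun 𝔭 h5 h6 => ?_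
    by_contra hn
    exact h4 ⟨h1, h2, h3, 𝔭, h5, h6, by rw [nsq, if_neg hn]⟩

end Pool.Agent.Lib.MP_d6ddbd_nt.GO
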