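import Pool.Agent.Lib.MP_d6ddbd_nt.GO.Stmt
import Pool.Agent.Lib.MP_9177b7_ag.B.Mert

/-!
Density one for the twists of `X₀(11)`: truncated prime sums and the pool.
-/

set_option autoImplicit false

open Finset Filter Topology
open Pool.Agent.Lib.MP_9177b7_ag.B (tsumP mert)
open Pool.Agent.Shared.FrobeniusDensity (Bdd Lim)
open Pool.Agent.Shared.PrimeZeta (psum)
open scoped Classical

noncomputable section

namespace Pool.Agent.Lib.MP_d6ddbd_nt.GO

namespace Rng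

theorem one {c : ℕ → ℝ} {δ : ℝ} (hB : Bdd c) (hL : Lim c δ) :
    Tendsto (fun x : ℝ => tsumP c x / Real.log (Real.log x)) atTop (𝓝 δ) := by
  obtain ⟨B, hB⟩ := hB
  obtain ⟨C, hC⟩ := mert.1 B 1 1 one_pos
  have hl : Tendsto (fun x : ℝ => Real.log (Real.log x)) atTop atTop :=
    Real.tendsto_log_atTop.comp Real.tendsto_log_atTop
  have h1 : Tendsto (fun x : ℝ => 1 + (Real.log x)⁻¹) atTop (𝓝[>] 1) := by
    refine tendsto_nhdsWithin_iff.2 ⟨?_, ?_⟩
    · simpa using (tendsto_inv_atTop_zero.comp Real.tendsto_log_atTop).const_add 1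
    · filter_upwards [eventually_gt_atTop (1 : ℝ)] with x hx
      have := inv_pos.2 (Real.log_pos hx)
      simpa using this
  have h2 : Tendsto (fun x : ℝ => psum c (1 + (Real.log x)⁻¹) / Real.log (Real.log x)) atTop
      (𝓝 δ) := by
    refine (hL.comp h1).congr fun x => ?_
    simp
  have h3 : Tendsto (fun x : ℝ => (psum c (1 + (Real.log x)⁻¹) - tsumP c x) /
      Real.log (Real.log x)) atTop (𝓝 0) := by
    refine squeeze_zero_norm' ?_ (tendsto_const_nhds (x := C).div_atTop hl)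
    filter_upwards [eventually_ge_atTop (2 : ℝ), hl.eventually_gt_atTop 0] with x hx h0
    have hp : 0 < Real.log x := Real.log_pos (by linarith)
    have he : (Real.log x)⁻¹ * Real.log x = 1 := inv_mul_cancel₀ hp.ne'
    rw [Real.norm_eq_abs, abs_div, abs_of_pos h0]
    exact div_le_div_of_nonneg_right (hC c x _ hB hx he.ge he.le) h0.le
  have h4 := h2.sub h3
  rw [sub_zero] at h4
  refine h4.congr fun x => ?_
  ring

theorem pw {c : ℕ → ℝ} {δ : ℝ} (hB : Bdd c) (hL : Lim c δ) {k : ℕ} (hk : 1 ≤ k) :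
    Tendsto (fun t : ℕ => tsumP c (Real.exp (t ^ k)) / Real.log t) atTop (𝓝 (k * δ)) := by
  have h0 : Tendsto (fun t : ℕ => Real.exp ((t : ℝ) ^ k)) atTop atTop :=
    Real.tendsto_exp_atTop.comp
      ((tendsto_pow_atTop (by omega)).comp tendsto_natCast_atTop_atTop)
  have hk' : (k : ℝ) ≠ 0 := by exact_mod_cast (by omega : k ≠ 0)
  refine (((one hB hL).comp h0).const_mul (k : ℝ)).congr fun t => ?_
  simp only [Function.comp, Real.log_exp, Real.log_pow]
  rw [← mul_div_assoc, mul_div_mul_left _ _ hk']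

theorem dy {A b : ℝ} (hA : 0 < A) (R : Finset ℕ) (w : ℕ → ℝ) (hR : ∀ q ∈ R, A < q)
    (h : ∀ j : ℕ, ∑ q ∈ R.filter (fun q : ℕ => 2 ^ j * A < q ∧ (q : ℝ) ≤ 2 * (2 ^ j * A)), w q ≤ b)
    (n : ℕ) : ∑ q ∈ R.filter (fun q : ℕ => (q : ℝ) ≤ 2 ^ n * A), w q ≤ n * b := by
  induction n with
  | zero =>
    rw [filter_false_of_mem fun q hq => by simpa using hR q hq]
    simp
  | succ n ih =>
    rw [← sum_filter_add_sum_filter_not _ fun q : ℕ => (q : ℝ) ≤ 2 ^ n * A, filter_filter,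
      filter_filter]
    have hp : 0 < 2 ^ n * A := by positivity
    have e1 : R.filter (fun q : ℕ => (q : ℝ) ≤ 2 ^ (n + 1) * A ∧ (q : ℝ) ≤ 2 ^ n * A) =
        R.filter (fun q : ℕ => (q : ℝ) ≤ 2 ^ n * A) :=
      filter_congr fun q _ => ⟨fun h => h.2, fun h => ⟨by rw [pow_succ]; linarith, h⟩⟩
    have e2 : R.filter (fun q : ℕ => (q : ℝ) ≤ 2 ^ (n + 1) * A ∧ ¬ (q : ℝ) ≤ 2 ^ n * A) =
        R.filter (fun q : ℕ => 2 ^ n * A < q ∧ (q : ℝ) ≤ 2 * (2 ^ n * A)) :=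
      filter_congr fun q _ => by
        rw [not_le, pow_succ, and_comm, mul_comm _ (2 : ℝ), mul_assoc]
    rw [e1, e2]
    push_cast
    linarith [h n]

theorem dif (T : Set ℕ) {A B : ℝ} (hA : 0 ≤ A) (hAB : A ≤ B) :
    ∃ R : Finset ℕ, (∀ q ∈ R, q.Prime ∧ q ∈ T ∧ A < q ∧ (q : ℝ) ≤ B) ∧
      tsumP (ind T) B - tsumP (ind T) A = ∑ q ∈ R, 1 / (q : ℝ) := by
  refine ⟨(((range (⌊B⌋₊ + 1)).filter Nat.Prime).filter fun q : ℕ => ¬ (q : ℝ) ≤ A).filter
    fun q => q ∈ T, fun q hq => ?_, ?_⟩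
  · simp only [mem_filter, mem_range, Nat.lt_succ_iff, not_le] at hq
    exact ⟨hq.1.1.2, hq.2, hq.1.2, (Nat.le_floor_iff (hA.trans hAB)).1 hq.1.1.1⟩
  · have e : ((range (⌊B⌋₊ + 1)).filter Nat.Prime).filter (fun q : ℕ => (q : ℝ) ≤ A) =
        (range (⌊A⌋₊ + 1)).filter Nat.Prime := by
      ext q
      simp only [mem_filter, mem_range, Nat.lt_succ_iff, Nat.le_floor_iff hA,
        Nat.le_floor_iff (hA.trans hAB)]
      exact ⟨fun h => ⟨h.2, h.1.2⟩, fun h => ⟨⟨h.1.trans hAB, h.2⟩, h.1⟩⟩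
    unfold tsumP
    rw [← sum_filter_add_sum_filter_not _ fun q : ℕ => (q : ℝ) ≤ A, e, add_sub_cancel_left,
      sum_filter (fun q => q ∈ T)]
    refine sum_congr rfl fun q _ => ?_
    unfold ind
    split_ifs <;> simp

end Rng

theorem rng_thm : RngStmt := by
  intro c δ hB hL
  refine ⟨Rng.one hB hL, fun k hk => ?_⟩
  have h := (Rng.pw hB hL (k := k + 1) (by omega)).sub (Rng.pw hB hL hk)
  have e : ((k + 1 : ℕ) : ℝ) * δ - k * δ = δ := by
    push_cast
    ring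
  rw [e] at h
  refine h.congr fun t => ?_
  ring

theorem pool_thm (h : RngStmt) : PoolStmt := by
  intro T δ k hδ hL hk
  have hB : Bdd (ind T) := ⟨1, fun p _ => by
    unfold ind
    split_ifs <;> simp⟩
  have h1 := ((h _ δ hB hL).2 k hk).eventually_const_lt (half_lt_self hδ)
  have h2 := (Real.tendsto_log_atTop.comp tendsto_natCast_atTop_atTop).eventually_gt_atTop (2 / δ)
  filter_upwards [h1, h2, eventually_ge_atTop 1] with t h1 h2 ht
  have ht' : (1 : ℝ) ≤ t := by exact_mod_cast ht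
  have hl : 2 / δ < Real.log t := h2
  have hl0 : 0 < Real.log t := lt_trans (by positivity) hl
  have hkk : (t : ℝ) ^ k ≤ (t : ℝ) ^ (k + 1) := pow_le_pow_right₀ ht' (by omega)
  have hk1 : (t : ℝ) ≤ (t : ℝ) ^ k := by simpa using pow_le_pow_right₀ ht' hk
  set A := Real.exp ((t : ℝ) ^ k) with hA
  have hA0 : 0 < A := Real.exp_pos _
  obtain ⟨R, hR, hs⟩ := Rng.dif T hA0.le (Real.exp_le_exp.2 hkk)
  have hm : 1 < ∑ q ∈ R, 1 / (q : ℝ) := by
    rw [hs, lt_div_iff₀ hl0] at h1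
    rw [div_lt_iff₀ hδ] at hl
    linarith
  set N : ℝ := 2 * (t : ℝ) ^ (k + 1) with hN
  have hN0 : 0 < N := by positivity
  have hA1 : 2 * (t : ℝ) ≤ A := by
    have := Real.quadratic_le_exp_of_nonneg (by linarith : (0 : ℝ) ≤ t)
    have := Real.exp_le_exp.2 hk1
    nlinarith [sq_nonneg ((t : ℝ) - 1)]
  obtain ⟨j, hj⟩ : ∃ j : ℕ, 1 / N < ∑ q ∈ R.filter
      (fun q : ℕ => 2 ^ j * A < q ∧ (q : ℝ) ≤ 2 * (2 ^ j * A)), 1 / (q : ℝ) := by
    by_contra hn
    have h3 := Rng.dy hA0 R _ (fun q hq => (hR q hq).2.2.1) (fun j => not_lt.1 fun h => hn ⟨j, h⟩)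
      (2 * t ^ (k + 1))
    rw [filter_true_of_mem fun q hq => ?_] at h3
    · push_cast at h3
      rw [← hN, mul_one_div_cancel hN0.ne'] at h3
      linarith
    · refine (hR q hq).2.2.2.trans ?_
      have e : Real.exp ((t : ℝ) ^ (k + 1)) = Real.exp 1 ^ (t ^ (k + 1)) := by
        rw [← Real.exp_nat_mul]
        simp
      have h4 : Real.exp 1 ≤ 2 ^ 2 := by linarith [Real.exp_one_lt_d9]
      rw [e, pow_mul]
      refine (pow_le_pow_left₀ (Real.exp_pos 1).le h4 _).trans ?_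
      exact le_mul_of_one_le_right (by positivity) (by linarith)
  set y : ℝ := 2 ^ j * A with hy
  set U := R.filter (fun q : ℕ => y < q ∧ (q : ℝ) ≤ 2 * y) with hU
  have hAy : A ≤ y := le_mul_of_one_le_left hA0.le (one_le_pow₀ (by norm_num))
  have hy0 : 0 < y := hA0.trans_le hAy
  have hb : ∀ S ⊆ U, ∑ q ∈ S, 1 / (q : ℝ) ≤ S.card / y := fun S hS => by
    have := sum_le_card_nsmul S (fun q : ℕ => 1 / (q : ℝ)) (1 / y) fun q hq =>
      one_div_le_one_div_of_le hy0 (mem_filter.1 (hS hq)).2.1.le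
    rwa [nsmul_eq_mul, mul_one_div] at this
  have hc : y / N ≤ U.card := by
    have := hj.le.trans (hb U Subset.rfl)
    rw [div_le_div_iff₀ hN0 hy0] at this
    rw [div_le_iff₀ hN0]
    linarith
  obtain ⟨S, hSU, hS⟩ := exists_subset_card_eq (Nat.ceil_le.2 hc)
  obtain ⟨q, hq⟩ : U.Nonempty := by
    rw [← card_pos, ← Nat.cast_pos (α := ℝ)]
    exact (div_pos hy0 hN0).trans_le hc
  refine ⟨y, S, hy0, (Real.le_log_iff_exp_le hy0).2 hAy, (Real.log_le_iff_le_exp hy0).2 ?_,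
    fun q hq => ?_, ?_, (hb S hSU).trans ?_⟩
  · exact (mem_filter.1 hq).2.1.le.trans (hR q (mem_filter.1 hq).1).2.2.2
  · obtain ⟨h3, h4⟩ := mem_filter.1 (hSU hq)
    exact ⟨(hR q h3).1, (hR q h3).2.1, h4⟩
  · rw [hS, mul_comm, ← div_le_iff₀ hN0]
    exact Nat.le_ceil _
  · have h3 : (S.card : ℝ) ≤ y / N + 1 := by
      rw [hS]
      exact (Nat.ceil_lt_add_one (div_pos hy0 hN0).le).le
    have h4 : 1 / N ≤ 1 / (2 * t) := one_div_le_one_div_of_le (by linarith) (by linarith)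
    have h5 : 1 / y ≤ 1 / (2 * t) := one_div_le_one_div_of_le (by linarith) (by linarith)
    calc (S.card : ℝ) / y ≤ (y / N + 1) / y := div_le_div_of_nonneg_right h3 hy0.le
      _ = 1 / N + 1 / y := by field_simp
      _ ≤ 1 / (2 * t) + 1 / (2 * t) := add_le_add h4 h5
      _ = 1 / t := by ring

end Pool.Agent.Lib.MP_d6ddbd_nt.GO
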