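import Pool.Agent.Lib.MP_d6ddbd_nt.GO.Stmt

/-! The effect of the signs on the bilinear form. -/

set_option autoImplicit false

open Finset

namespace Pool.Agent.Lib.MP_d6ddbd_nt.GO

namespace Sga

theorem sgn : ∀ a b c d : ZMod 2, (2 : ℤ) ∣ (-1) ^ a.val * (-1) ^ b.val - 1 ∧
    (4 : ℤ) ∣ (-1) ^ a.val * (-1) ^ b.val - (-1) ^ c.val * (-1) ^ d.val -
      2 * (((a + c).val : ℤ) + ((b + d).val : ℤ)) := by decide

theorem entry {R : Type} [CommRing R] (a b c d : ZMod 2) {t m₀ m₁ : R} (x y : R)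
    (h0 : t * 2 * (m₀ - m₁) = 0) (h1 : t * 2 * 2 * m₁ = 0) :
    t * ((-1) ^ a.val * y * (m₀ * ((-1) ^ b.val * x))) -
      t * ((-1) ^ c.val * y * (m₁ * ((-1) ^ d.val * x))) =
      t * (y * ((m₀ - m₁) * x)) + (((a + c).val : R) * (t * 2 * (y * (m₁ * x))) +
        ((b + d).val : R) * (t * 2 * (y * m₁ * x))) := by
  obtain ⟨⟨α, hα⟩, β, hβ⟩ := sgn a b c d
  have e1 := congrArg (Int.cast : ℤ → R) hα
  have e2 := congrArg (Int.cast : ℤ → R) hβ
  push_cast at e1 e2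
  linear_combination (t * (m₀ - m₁) * x * y) * e1 + (t * m₁ * x * y) * e2 + (α * x * y) * h0 +
    (β * x * y) * h1

end Sga

theorem sga_thm : SgaStmt := by
  intro K r k M₀ M₁ x y γ₀ γ₁ h1 h2 h3 h4
  have e : K - k = K - 1 - k + 1 := by omega
  rw [e] at h3 h4 ⊢
  simp only [bf, sv, dotProduct, Matrix.mulVec, Matrix.vecMul, nsmul_eq_mul, mul_add, mul_sub,
    Finset.mul_sum, Finset.sum_mul, Finset.sum_add_distrib, Matrix.sub_apply, pow_succ,
    Nat.cast_mul, Nat.cast_ofNat]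
  rw [Finset.sum_comm (f := fun l i => ((γ₀ l + γ₁ l).val : ZMod (2 ^ K)) *
    (((2 ^ (K - 1 - k) : ℕ) : ZMod (2 ^ K)) * 2 * (y i * M₁ i l * x l)))]
  simp only [← Finset.sum_sub_distrib, ← Finset.sum_add_distrib]
  refine Finset.sum_congr rfl fun i _ => Finset.sum_congr rfl fun j _ =>
    Sga.entry _ _ _ _ _ _ ?_ ?_
  · simpa [pow_succ] using congrFun (congrFun h3 i) j
  · simpa [pow_succ] using congrFun (congrFun h4 i) j

end Pool.Agent.Lib.MP_d6ddbd_nt.GO
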