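import Pool.Agent.Lib.MP_d6ddbd_nt.GO.Stmt
import Pool.Agent.Lib.MP_d6ddbd_nt.K11.AllX
import Pool.Agent.Lib.MP_9177b7_ag.B.Mert

/-!
Density one for the twists of `X₀(11)`: classes that ramify only at small primes.
-/

set_option autoImplicit false

open Finset Filter Topology NumberField
open Pool.Agent.Stark (Pr og LSq)
open Pool.Agent.Lib.MP_d6ddbd_nt.K11 Pool.Agent.Lib.MP_d6ddbd_nt.KI
open Pool.Agent.Lib.MP_9177b7_ag.B (tsumP)
open scoped Classical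

noncomputable section

namespace Pool.Agent.Lib.MP_d6ddbd_nt.GO

namespace Small

/-- The primes up to `z`. -/
def pz (z : ℝ) : Finset ℕ := (range (⌊z⌋₊ + 1)).filter Nat.Prime

theorem mem_pz {z : ℝ} (hz : 0 ≤ z) {q : ℕ} : q ∈ pz z ↔ (q : ℝ) ≤ z ∧ q.Prime := by
  rw [pz, mem_filter, mem_range, Nat.lt_succ_iff, Nat.le_floor_iff hz]

theorem cnt_cover {ι κ : Type} (X : ℝ) (B : ℤ → Prop) (A : Finset ι) (s : ι → Finset κ)
    (B' : ι → κ → ℤ → Prop) (h : ∀ d, B d → ∃ T ∈ A, ∃ β ∈ s T, B' T β d) :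
    cnt X B ≤ ∑ T ∈ A, ∑ β ∈ s T, cnt X (B' T β) := by
  unfold cnt
  have h1 : (Icc (-⌊X⌋) ⌊X⌋).filter B ⊆
      A.biUnion fun T => (s T).biUnion fun β => (Icc (-⌊X⌋) ⌊X⌋).filter (B' T β) := by
    intro d hd
    rw [mem_filter] at hd
    obtain ⟨T, hT, β, hβ, e⟩ := h d hd.2
    exact mem_biUnion.2 ⟨T, hT, mem_biUnion.2 ⟨β, hβ, mem_filter.2 ⟨hd.1, e⟩⟩⟩
  have h2 := (card_le_card h1).trans (card_biUnion_le.trans
    (sum_le_sum fun T _ => card_biUnion_le))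
  exact_mod_cast h2

theorem cnt_div (X : ℝ) (P : ℕ) (hP : 0 < P) (S : Finset ℕ) :
    cnt X (fun d => (P : ℤ) ∣ d ∧ ∀ q ∈ S, ¬ (q : ℤ) ∣ d) ≤
      cnt (X / P) (fun d => ∀ q ∈ S, ¬ (q : ℤ) ∣ d) := by
  unfold cnt
  have p0 : (0 : ℝ) < P := by exact_mod_cast hP
  have p1 : (P : ℤ) ≠ 0 := by exact_mod_cast hP.ne'
  have key : ∀ m : ℤ, (P : ℤ) * m ≤ ⌊X⌋ → m ≤ ⌊X / P⌋ := fun m hm => by
    rw [Int.le_floor, le_div_iff₀ p0]
    have := Int.le_floor.1 hm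
    push_cast at this
    linarith
  refine Nat.cast_le.2 (card_le_card_of_injOn (fun d => d / P) ?_ ?_)
  · intro d hd
    simp only [coe_filter, mem_Icc, Set.mem_ofPred_eq] at hd ⊢
    obtain ⟨⟨a, b⟩, ⟨m, rfl⟩, c⟩ := hd
    rw [Int.mul_ediv_cancel_left _ p1]
    refine ⟨⟨?_, key m b⟩, fun q hq e => c q hq (e.mul_left _)⟩
    have := key (-m) (by linarith)
    linarith
  · intro d hd d' hd' e
    simp only [coe_filter, mem_Icc, Set.mem_ofPred_eq] at hd hd'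
    obtain ⟨-, ⟨m, rfl⟩, -⟩ := hd
    obtain ⟨-, ⟨m', rfl⟩, -⟩ := hd'
    simp only [Int.mul_ediv_cancel_left _ p1] at e
    rw [e]

theorem sum_pow (z : ℝ) :
    ∑ T ∈ (pz z).powerset, (8 : ℝ) ^ T.card / ∏ l ∈ T, (l : ℝ) ≤
      Real.exp (8 * tsumP (fun _ => 1) z) := by
  have h1 : ∑ T ∈ (pz z).powerset, (8 : ℝ) ^ T.card / ∏ l ∈ T, (l : ℝ) =
      ∏ l ∈ pz z, (1 + 8 / (l : ℝ)) := by
    rw [prod_one_add]
    exact sum_congr rfl fun T _ => by rw [prod_div_distrib, prod_const]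
  rw [h1, tsumP, mul_sum, Real.exp_sum]
  refine prod_le_prod (fun l _ => by positivity) fun l _ => ?_
  have := Real.add_one_le_exp (8 * (1 / (l : ℝ)))
  rw [mul_one_div] at this ⊢
  linarith

theorem sum_ind (S : Set ℕ) (x : ℝ) :
    ∑ q ∈ (pz x).filter (· ∈ S), 1 / (q : ℝ) = tsumP (ind S) x := by
  rw [tsumP, sum_filter]
  refine sum_congr rfl fun q _ => ?_
  unfold ind
  split_ifs <;> simp

theorem prod_le {T : Finset ℕ} {t : ℕ} (hT : T ⊆ pz (Real.exp (t ^ 2))) (hc : T.card ≤ t) :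
    1 ≤ ∏ l ∈ T, (l : ℝ) ∧ ∏ l ∈ T, (l : ℝ) ≤ Real.exp (t ^ 3) := by
  have h : ∀ l ∈ T, (1 : ℝ) ≤ l ∧ (l : ℝ) ≤ Real.exp (t ^ 2) := fun l hl => by
    obtain ⟨a, b⟩ := (mem_pz (Real.exp_pos _).le).1 (hT hl)
    exact ⟨by exact_mod_cast b.one_le, a⟩
  refine ⟨?_, ?_⟩
  · calc (1 : ℝ) = ∏ _l ∈ T, (1 : ℝ) := by simp
      _ ≤ _ := prod_le_prod (fun _ _ => zero_le_one) fun l hl => (h l hl).1
  · calc ∏ l ∈ T, (l : ℝ) ≤ ∏ _l ∈ T, Real.exp (t ^ 2) :=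
          prod_le_prod (fun _ _ => by positivity) fun l hl => (h l hl).2
      _ = Real.exp (T.card * t ^ 2) := by rw [prod_const, Real.exp_nat_mul]
      _ ≤ _ := by
        refine Real.exp_le_exp.2 ?_
        have : (T.card : ℝ) ≤ t := by exact_mod_cast hc
        nlinarith [sq_nonneg (t : ℝ)]

variable {L : Type} [Field L] [NumberField L] {θ : L}

theorem lsq_mul {𝔭 : Pr L} {β s : L} (hs : s ≠ 0) (h : LSq 𝔭 (β * s ^ 2)) : LSq 𝔭 β := by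
  have : LSq 𝔭 (β * s ^ 2 * s⁻¹ ^ 2) := by
    rw [LSq, map_mul, map_pow]
    exact IsSquare.mul h (IsSquare.sq _)
  convert this using 1
  field_simp

theorem ev_of {T : Finset ℕ} {β γ : L} (hγ : γ ≠ 0) (h : Ev T (β * γ ^ 2)) : Ev T β := by
  have b0 : β ≠ 0 := fun e => h.1 (by rw [e, zero_mul])
  refine ⟨b0, fun l hl hT 𝔭 h𝔭 => ?_⟩
  have := h.2 l hl hT 𝔭 h𝔭
  rw [og, Pool.Agent.Stark.ord_mul b0 (pow_ne_zero 2 hγ), Pool.Agent.Stark.ord_pow] at this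
  exact (Int.even_add.1 this).2 (by push_cast; exact even_two_mul _)

theorem not_dvd (hθ : Cub θ) {d : ℤ} (hd : Fam d) {T : Finset ℕ} {β γ : L} (hγ : γ ≠ 0)
    (hs : SelC θ d (β * γ ^ 2)) (he : Ev T (β * γ ^ 2)) {q : ℕ} (hq : q.Prime)
    (hN : Ns T β q) : ¬ (q : ℤ) ∣ d := by
  intro e
  obtain ⟨h1, -, -, 𝔭, h𝔭, hn, h2⟩ := hN
  obtain ⟨a, -, -, b⟩ := locdAll L θ hθ d q hd hq e
  have c := ((a _ hs.1 hs.2.1 𝔭 h𝔭 hn).1 (he.2 q hq h1)).symm.trans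
    ((b _ hs.1 hs.2.1).1 (hs.2.2 q hq) 𝔭 h𝔭 hn)
  have f : LSq 𝔭 (β * γ ^ 2) := by
    by_contra f
    rw [nsq, if_neg f] at c
    exact one_ne_zero c
  rw [nsq, if_pos (lsq_mul hγ f)] at h2
  exact zero_ne_one h2

theorem num {t δ P X : ℝ} {N : ℕ} (hN : 200 ≤ N) (ht : 2 ≤ t) (hδ : 0 < δ) (hδt : 2 ≤ δ * t)
    (hP : 1 ≤ P) (hP' : P ≤ Real.exp (t ^ 3)) (hX : Real.exp (t ^ N) ≤ X) :
    1 ≤ X / P ∧ Real.exp (t ^ (N - 1)) ≤ (X / P) ^ δ ∧ t ≤ Real.exp (t ^ (N - 1)) ∧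
      Real.log (3 * P) ^ 2 ≤ Real.log (Real.exp (t ^ (N - 1))) ∧
      17 * Real.log t - 3 ≤ Real.log (Real.log (Real.exp (t ^ (N - 1)))) / 7 -
        3 * Real.log (Real.log (3 * P)) := by
  obtain ⟨M, rfl⟩ : ∃ M, N = M + 1 := ⟨N - 1, by omega⟩
  rw [Nat.add_sub_cancel, Real.log_exp]
  have t1 : 1 ≤ t := by linarith
  have t0 : 0 < t := by linarith
  have p0 : 0 < P := by linarith
  have m1 : t ^ 8 ≤ t ^ M := pow_le_pow_right₀ t1 (by omega)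
  have m2 : t ^ 1 ≤ t ^ M := pow_le_pow_right₀ t1 (by omega)
  have m3 : t ^ 3 ≤ t ^ M := pow_le_pow_right₀ t1 (by omega)
  have m0 : 0 < t ^ M := pow_pos t0 M
  have e : (199 : ℝ) ≤ M := by exact_mod_cast (by omega : 199 ≤ M)
  clear hN
  have t3 : 8 ≤ t ^ 3 := by nlinarith [pow_le_pow_left₀ (by norm_num : (0 : ℝ) ≤ 2) ht 3]
  have a1 : t ^ (M + 1) / 2 ≤ t ^ (M + 1) - t ^ 3 := by
    rw [pow_succ]
    nlinarith
  have a2 : Real.exp (t ^ (M + 1) / 2) ≤ X / P := by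
    rw [le_div_iff₀ p0]
    calc Real.exp (t ^ (M + 1) / 2) * P ≤ Real.exp (t ^ (M + 1) - t ^ 3) * Real.exp (t ^ 3) :=
          mul_le_mul (Real.exp_le_exp.2 a1) hP' p0.le (Real.exp_pos _).le
      _ = Real.exp (t ^ (M + 1)) := by rw [← Real.exp_add, sub_add_cancel]
      _ ≤ X := hX
  have l1 : 1 ≤ Real.log (3 * P) := by
    rw [Real.le_log_iff_exp_le (by positivity)]
    have := Real.exp_one_lt_d9
    linarith
  have l2 : Real.log (3 * P) ≤ 2 * t ^ 3 := by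
    rw [Real.log_mul (by norm_num) p0.ne']
    have a := Real.log_le_sub_one_of_pos (by norm_num : (0 : ℝ) < 3)
    have b := (Real.log_le_iff_le_exp p0).2 hP'
    linarith
  refine ⟨(Real.one_le_exp (by positivity)).trans a2, ?_, ?_, ?_, ?_⟩
  · refine le_trans ?_ (Real.rpow_le_rpow (Real.exp_pos _).le a2 hδ.le)
    rw [← Real.exp_mul]
    refine Real.exp_le_exp.2 ?_
    rw [pow_succ]
    nlinarith
  · have := Real.add_one_le_exp (t ^ M)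
    rw [pow_one] at m2
    linarith
  · have a : Real.log (3 * P) ^ 2 ≤ (2 * t ^ 3) ^ 2 := pow_le_pow_left₀ (by linarith) l2 2
    have b : 4 ≤ t ^ 2 := by nlinarith
    have c : t ^ 8 = t ^ 2 * (t ^ 3) ^ 2 := by ring
    nlinarith [sq_nonneg (t ^ 3)]
  · have a : Real.log (Real.log (3 * P)) ≤ Real.log (2 * t ^ 3) := Real.log_le_log (by linarith) l2
    rw [Real.log_mul (x := 2) (by norm_num) (by positivity), Real.log_pow] at a
    have b := Real.log_le_sub_one_of_pos (by norm_num : (0 : ℝ) < 2)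
    have c := Real.log_nonneg t1
    rw [Real.log_pow]
    push_cast at a
    nlinarith

end Small

open GO.Small in
/-- Classes that ramify only at small primes are rare. -/
theorem small_thm (h1 : ClsStmt) (h2 : PsStmt) (h3 : ExStmt) : SmallStmt := by
  intro L _ _ θ hθ N ε hN hε
  obtain ⟨C₁, hC₁⟩ := h1 L θ hθ
  obtain ⟨C₂, x₀, hC₂⟩ := h2 L θ hθ
  obtain ⟨-, -, δ, C₃, δ0, -, c0, hC₃⟩ := h3
  obtain ⟨C₄, hC₄⟩ := Pool.Agent.Lib.MP_9177b7_ag.B.mert.2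
  choose! s hs using hC₁
  set K : ℝ := C₁ * C₃ * Real.exp (3 + C₂) * Real.exp (8 * C₄) with hK
  have ev : ∀ a : ℝ, ∀ᶠ t : ℕ in atTop, a ≤ (t : ℝ) := fun a =>
    tendsto_natCast_atTop_atTop.eventually_ge_atTop a
  filter_upwards [ev 2, ev (2 / δ), ev x₀, ev (K / ε)] with t t2 t3 t4 t5 X hX
  have t0 : (0 : ℝ) < t := by linarith
  have X0 : 0 < X := (Real.exp_pos _).trans_le hX
  have δt : 2 ≤ δ * t := by
    rw [div_le_iff₀ δ0] at t3
    linarith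
  set z : ℝ := Real.exp ((t : ℝ) ^ 2) with hz
  set x : ℝ := Real.exp ((t : ℝ) ^ (N - 1)) with hx
  have z0 : 0 ≤ z := (Real.exp_pos _).le
  have x0 : 0 ≤ x := (Real.exp_pos _).le
  set A : Finset (Finset ℕ) := (pz z).powerset.filter fun T => T.card ≤ t with hA
  have cov := cnt_cover X (fun d => Fam d ∧ om' d ≤ t ∧ ∃ α, SelC θ d α ∧ ¬ IsSquare α ∧
      ∀ l : ℕ, l.Prime → z < l → ∀ 𝔭 ∈ ab L l, Even (og 𝔭 α)) A
    (fun T => (s T).filter fun β => Ev T β ∧ ¬ IsSquare β)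
    (fun T β d => ((∏ l ∈ T, l : ℕ) : ℤ) ∣ d ∧
      ∀ q ∈ (pz x).filter (· ∈ {p | Ns T β p}), ¬ (q : ℤ) ∣ d) (by
    rintro d ⟨hd, ho, α, a1, a2, a3⟩
    set T := d.natAbs.primeFactors.filter fun l : ℕ => (l : ℝ) ≤ z with hT
    have d0 : d.natAbs ≠ 0 := Int.natAbs_ne_zero.2 hd.sf.ne_zero
    have hp : ∀ l ∈ T, l.Prime := fun l hl => Nat.prime_of_mem_primeFactors (mem_filter.1 hl).1
    have he : Ev T α := by
      refine ⟨a1.1, fun l hl hT' => ?_⟩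
      by_cases e : (l : ℤ) ∣ d
      · refine a3 l hl (lt_of_not_ge fun f => hT' (mem_filter.2 ⟨?_, f⟩))
        exact Nat.mem_primeFactors.2 ⟨hl, Int.natCast_dvd.1 e, d0⟩
      · exact (((lAll L θ hθ d hd).1 α).1 a1).1.ev l hl e (notMem_empty l)
    obtain ⟨β, hβ, γ, hγ, rfl⟩ := (hs T hp).2 α he
    refine ⟨T, mem_filter.2 ⟨mem_powerset.2 fun l hl =>
      (mem_pz z0).2 ⟨(mem_filter.1 hl).2, hp l hl⟩, (card_filter_le _ _).trans ho⟩, β,
      mem_filter.2 ⟨hβ, ev_of hγ he, fun f => a2 (f.mul (IsSquare.sq γ))⟩, ?_, fun q hq => ?_⟩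
    · exact Int.natCast_dvd.2 ((prod_dvd_prod_of_subset _ _ _ (filter_subset _ _)).trans
        (Nat.prod_primeFactors_dvd _))
    · rw [mem_filter, mem_pz x0] at hq
      exact not_dvd hθ hd hγ a1 he hq.1.2 hq.2)
  refine cov.trans ?_
  have one : ∀ T ∈ A, ∑ β ∈ (s T).filter (fun β => Ev T β ∧ ¬ IsSquare β),
      cnt X (fun d => ((∏ l ∈ T, l : ℕ) : ℤ) ∣ d ∧
        ∀ q ∈ (pz x).filter (· ∈ {p | Ns T β p}), ¬ (q : ℤ) ∣ d) ≤
      (8 ^ T.card / ∏ l ∈ T, (l : ℝ)) * (C₁ * C₃ * Real.exp (3 + C₂) * X / t ^ 17) := by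
    intro T hT
    rw [hA, mem_filter, mem_powerset] at hT
    have hp : ∀ l ∈ T, l.Prime := fun l hl => ((mem_pz z0).1 (hT.1 hl)).2
    obtain ⟨p1, p2⟩ := prod_le hT.1 hT.2
    obtain ⟨n1, n2, n3, n4, n5⟩ := num hN t2 δ0 δt p1 p2 hX
    have p0 : 0 < ∏ l ∈ T, (l : ℝ) := by linarith
    have each : ∀ β ∈ (s T).filter (fun β => Ev T β ∧ ¬ IsSquare β),
        cnt X (fun d => ((∏ l ∈ T, l : ℕ) : ℤ) ∣ d ∧
          ∀ q ∈ (pz x).filter (· ∈ {p | Ns T β p}), ¬ (q : ℤ) ∣ d) ≤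
        C₃ * (X / ∏ l ∈ T, (l : ℝ)) * (Real.exp (3 + C₂) / t ^ 17) := by
      intro β hβ
      rw [mem_filter] at hβ
      refine (cnt_div X _ (prod_pos fun l hl => (hp l hl).pos) _).trans ?_
      rw [Nat.cast_prod]
      refine (hC₃ _ _ n1 fun q hq => ?_).trans ?_
      · rw [mem_filter, mem_pz x0] at hq
        exact ⟨hq.1.2, hq.1.1.trans n2⟩
      · refine mul_le_mul_of_nonneg_left ?_ (by positivity)
        rw [sum_ind]
        have a := hC₂ T β x hp hβ.2.1 hβ.2.2 (t4.trans n3) n4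
        have b : (t : ℝ) ^ 17 = Real.exp (17 * Real.log t) := by
          rw [show (17 : ℝ) = (17 : ℕ) by norm_num, Real.exp_nat_mul, Real.exp_log t0]
        rw [b, ← Real.exp_sub]
        exact Real.exp_le_exp.2 (by linarith)
    refine (sum_le_card_nsmul _ _ _ each).trans ?_
    rw [nsmul_eq_mul]
    have a : (((s T).filter fun β => Ev T β ∧ ¬ IsSquare β).card : ℝ) ≤ C₁ * 8 ^ T.card := by
      exact_mod_cast (card_filter_le _ _).trans (hs T hp).1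
    refine (mul_le_mul_of_nonneg_right a (by positivity)).trans (le_of_eq ?_)
    field_simp
  refine (sum_le_sum one).trans ?_
  rw [← sum_mul]
  have z2 : 2 ≤ z := by
    have := Real.add_one_le_exp ((t : ℝ) ^ 2)
    nlinarith
  have a : ∑ T ∈ A, (8 : ℝ) ^ T.card / ∏ l ∈ T, (l : ℝ) ≤ Real.exp (8 * C₄) * t ^ 16 := by
    refine (sum_le_sum_of_subset_of_nonneg (filter_subset _ _) fun T _ _ => by positivity).trans
      ((sum_pow z).trans ?_)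
    have b : (t : ℝ) ^ 16 = Real.exp (16 * Real.log t) := by
      rw [show (16 : ℝ) = (16 : ℕ) by norm_num, Real.exp_nat_mul, Real.exp_log t0]
    have c := hC₄ z z2
    rw [hz, Real.log_exp, Real.log_pow, ← hz] at c
    rw [b, ← Real.exp_add]
    push_cast at c
    exact Real.exp_le_exp.2 (by linarith)
  refine (mul_le_mul_of_nonneg_right a (by positivity)).trans ?_
  have b : Real.exp (8 * C₄) * t ^ 16 * (C₁ * C₃ * Real.exp (3 + C₂) * X / t ^ 17) =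
      K / t * X := by
    rw [hK]
    field_simp
  rw [b]
  refine mul_le_mul_of_nonneg_right ?_ X0.le
  rw [div_le_iff₀ hε] at t5
  rw [div_le_iff₀ t0]
  linarith

end Pool.Agent.Lib.MP_d6ddbd_nt.GO
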