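import Pool.Agent.Lib.MP_d6ddbd_nt.KI.Cnt
import Pool.Agent.Lib.MP_d6ddbd_nt.KI.Cm
import Pool.Agent.Lib.MP_d6ddbd_nt.K11.AllX
import Pool.Agent.Lib.MP_d6ddbd_nt.K11.Final

/-!
The Selmer group of level one is finite; if at most two classes are divisible by a fixed power of
two then the number of classes of level `k` is less than `4 ^ k` for some `k`.
-/

set_option autoImplicit false

open NumberField
open Pool.Agent.Stark (og SqCl cl)
open Pool.Agent.Lib.MP_d6ddbd_nt.K11 Pool.Agent.Lib.MP_d6ddbd_nt.KI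

noncomputable section

namespace Pool.Agent.Lib.MP_d6ddbd_nt.GO

namespace TwoBd

open Cnt

/-- At most `C` classes of level `k`. -/
def Le (c : ℤ) (k C : ℕ) : Prop := ∀ s : Finset (G → Pt), (∀ x ∈ s, Sel c k ∅ x) →
  (∀ x ∈ s, ∀ y ∈ s, Cb c (x - y) → x = y) → s.card ≤ C

variable {c : ℤ} {k C : ℕ}

theorem le_zero (c : ℤ) : Le c 0 1 := fun s h _ => Finset.card_le_one.2 fun x hx y hy =>
  funext fun σ => by
    have a := (h x hx).cy.tor σ
    have b := (h y hy).cy.tor σ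
    rw [pow_zero, one_smul] at a b
    rw [a, b]

theorem le_succ (h : Le c k C) (t : Finset (G → Pt))
    (ht : ∀ x, Sel c (k + 1) ∅ x → ∃ y ∈ t, Cb c (2 ^ k • x - y)) : Le c (k + 1) (C * t.card) := by
  classical
  intro s h1 h2
  choose! f hf hf' using ht
  refine Finset.card_le_mul_card_image_of_maps_to (f := f) (fun x hx => hf x (h1 x hx)) C
    fun y _ => ?_
  rcases (s.filter fun x => f x = y).eq_empty_or_nonempty with e | ⟨x₀, hx₀⟩
  · rw [e]; exact Nat.zero_le _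
  have key : ∀ x ∈ s.filter fun x => f x = y, ∃ x', Sel c k ∅ x' ∧ x - x₀ - x' ∈ CbS c := by
    intro x hx
    obtain ⟨a, b⟩ := Finset.mem_filter.1 hx
    obtain ⟨a₀, b₀⟩ := Finset.mem_filter.1 hx₀
    refine lft (tv_empty (k + 1)) ((SelS c (k + 1) ∅).sub_mem (h1 x a) (h1 x₀ a₀)) ?_
    have := (CbS c).sub_mem (hf' x (h1 x a)) (hf' x₀ (h1 x₀ a₀))
    rwa [b, b₀, sub_sub_sub_cancel_right, ← nsmul_sub] at this
  choose! g hg hg' using key
  have inj : ∀ x ∈ s.filter fun x => f x = y, ∀ z ∈ s.filter fun x => f x = y,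
      g x - g z ∈ CbS c → x = z := fun x hx z hz e => by
    refine h2 x (Finset.mem_filter.1 hx).1 z (Finset.mem_filter.1 hz).1 ?_
    have := (CbS c).add_mem ((CbS c).sub_mem (hg' x hx) (hg' z hz)) e
    rwa [show x - x₀ - g x - (z - x₀ - g z) + (g x - g z) = x - z by abel] at this
  rw [← Finset.card_image_of_injOn (f := g) fun x hx z hz e =>
    inj x hx z hz (by rw [e, sub_self]; exact (CbS c).zero_mem)]
  refine h _ (fun x hx => ?_) fun x hx z hz e => ?_
  · obtain ⟨u, hu, rfl⟩ := Finset.mem_image.1 hx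
    exact hg u hu
  · obtain ⟨u, hu, rfl⟩ := Finset.mem_image.1 hx
    obtain ⟨v, hv, rfl⟩ := Finset.mem_image.1 hz
    rw [inj u hu v hv e]

theorem down {x : G → Pt} {i : ℕ} (h : Sel c (i + k) ∅ x) : Sel c k ∅ (2 ^ i • x) := by
  have a : Sel c (i + k) ∅ (2 ^ i • x) := (SelS c (i + k) ∅).nsmul_mem h _
  refine ⟨⟨fun σ => ?_, a.cy.mul, a.cy.fin⟩, a.kl, a.ff⟩
  rw [Pi.smul_apply, ← mul_smul, ← pow_add, add_comm, h.cy.tor]

theorem two_set {j : ℕ} (h : Two c j) (i : ℕ) : ∃ t : Finset (G → Pt), t.card ≤ 2 ∧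
    ∀ x, Sel c (i + j + 1) ∅ x → ∃ y ∈ t, Cb c (2 ^ (i + j) • x - y) := by
  classical
  by_cases e : ∀ x, Sel c (i + j + 1) ∅ x → Cb c (2 ^ (i + j) • x)
  · exact ⟨{0}, by simp, fun x hx => ⟨0, by simp, by rw [sub_zero]; exact e x hx⟩⟩
  push Not at e
  obtain ⟨z, hz, hz'⟩ := e
  refine ⟨{0, 2 ^ (i + j) • z}, Finset.card_le_two, fun x hx => ?_⟩
  have := h _ _ (down (k := j + 1) hx) (down (k := j + 1) hz)
  simp only [← mul_smul, ← pow_add, add_comm j i] at this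
  rcases this with a | a | a
  · exact ⟨0, by simp, by rwa [sub_zero]⟩
  · exact absurd a hz'
  · exact ⟨_, by simp, a⟩

end TwoBd

open TwoBd in
/-- Finiteness at level one and `Two` give the bound. -/
theorem bd_of_two {c : ℤ} {j : ℕ} (hF : FinSel c) (h : Two c j) : Bd c := by
  obtain ⟨t, ht⟩ := hF
  have h1 : ∀ k, Le c k (t.card ^ k) := by
    intro k
    induction k with
    | zero => exact le_zero c
    | succ k ih => exact le_succ ih t fun x hx => ht _ (down hx)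
  have h2 : ∀ i, Le c (i + j) (t.card ^ j * 2 ^ i) := by
    intro i
    induction i with
    | zero => simpa using h1 j
    | succ i ih =>
      obtain ⟨u, hu, hu'⟩ := two_set h i
      rw [add_right_comm]
      intro s a b
      refine (le_succ ih u hu' s a b).trans ?_
      rw [pow_succ, ← mul_assoc]
      exact Nat.mul_le_mul_left _ hu
  refine ⟨t.card ^ j + j, fun s a b => (h2 _ s a b).trans_lt ?_⟩
  generalize t.card ^ j = N
  calc N * 2 ^ N < 2 ^ N * 2 ^ N := Nat.mul_lt_mul_of_pos_right Nat.lt_two_pow_self (by positivity)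
    _ = 4 ^ N := (mul_pow 2 2 N).symm
    _ ≤ 4 ^ (N + j) := Nat.pow_le_pow_right (by norm_num) (Nat.le_add_right _ _)

/-- The Selmer group of level one is finite. -/
theorem finSel {c : ℤ} (hc : c ≠ 0) : FinSel c := by
  classical
  obtain ⟨L, _, _, θ, hθ⟩ := Final.exists_cub
  set S := ab L (22 * c.natAbs) with hS
  have hf := Pool.Agent.Stark.finite_Sel S
  have hf' : Finite (Pool.Agent.Stark.Sel S) := Module.finite_of_finite (ZMod 2)
  have key : ∀ x, Sel c 1 ∅ x → ∃ α : L, Pool.Agent.Stark.IsSel S α ∧ Kum θ α x := by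
    intro x hx
    have hx' := Cm.cy_coc hx.cy
    obtain ⟨α, a0, a1, a2⟩ := (kumAll L θ hθ).1 x hx'
    refine ⟨α, ⟨a0, fun 𝔭 hp => ?_⟩, a2⟩
    obtain ⟨-, l, hl, hpl, hl'⟩ := (pr_thm L θ hθ).2.2.2.2.1 𝔭
    have n : ¬ l ∣ 22 * c.natAbs := fun e =>
      hp ((hl' _ (mul_ne_zero (by norm_num) (Int.natAbs_ne_zero.2 hc))).2 e)
    have n2 : l ≠ 2 := fun e => n (e ▸ Dvd.dvd.mul_right (by norm_num) _)
    have n11 : l ≠ 11 := fun e => n (e ▸ Dvd.dvd.mul_right (by norm_num) _)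
    have nc : ¬ (l : ℤ) ∣ c := fun e => n ((Int.natCast_dvd.1 e).mul_left _)
    refine ((link1All L θ hθ).2.2 α x a0 a1 hx' a2).1 l hl n2 n11 (fun O hO => ?_) 𝔭 hpl
    obtain ⟨P, a, b⟩ := hx.kl l O hl (by simp) hO
    refine ⟨P, a, fun σ hσ => ?_⟩
    have e := b σ ⟨0, hσ⟩
    rw [tw, Cm.cq_iner hl n2 hO nc hσ, one_smul] at e
    refine ⟨?_, e⟩
    have := hx'.two σ
    rw [e, nsmul_sub, sub_eq_zero] at this
    exact (map_nsmul (DistribSMul.toAddMonoidHom Pt σ) 2 P).trans this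
  choose! α hα hα' using key
  let f : {x // Sel c 1 ∅ x} → Pool.Agent.Stark.Sel S := fun x => ⟨cl (α x), α x, hα x x.2, rfl⟩
  have := Fintype.ofFinite (Set.range f)
  refine ⟨Finset.univ.image fun a : Set.range f => (a.2.choose : G → Pt), fun x hx => ?_⟩
  have m : f ⟨x, hx⟩ ∈ Set.range f := ⟨_, rfl⟩
  refine ⟨m.choose, Finset.mem_image.2 ⟨⟨_, m⟩, Finset.mem_univ _, rfl⟩, ?_⟩
  have e : cl (α m.choose) = cl (α x) := congrArg Subtype.val m.choose_spec
  generalize m.choose = y at e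
  obtain ⟨y, hy⟩ := y
  have cx := Cm.cy_coc hx.cy
  have cy := Cm.cy_coc hy.cy
  have x0 := (hα x hx).1
  have y0 := (hα y hy).1
  have h1 := ((kumAll L θ hθ).2 _ _ (mul_ne_zero x0 y0) (Cm.coc_add cx cy)
    (Cm.kum_mul pr_thm hθ x0 y0 cx cy (hα' x hx) (hα' y hy))).1
    ((Pool.Agent.Stark.cl_eq_cl x0 y0).1 e.symm)
  have h2 : x - y = x + y := funext fun σ => by
    rw [Pi.sub_apply, Pi.add_apply, sub_eq_add_neg, neg_eq_of_add_eq_zero_left
      ((two_nsmul _).symm.trans (cy.two σ))]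
  show Cb c (x - y)
  rw [h2]
  exact Cm.cob_cb h1

/-- `Two` at one level gives the bound. -/
theorem two_bd {c : ℤ} {j : ℕ} (hc : c ≠ 0) (h : Two c j) : Bd c := bd_of_two (finSel hc) h

theorem fam_two_bd {d : ℤ} {j : ℕ} (hd : Fam d) (h : Two d j) : Bd d := two_bd hd.sf.ne_zero h

end Pool.Agent.Lib.MP_d6ddbd_nt.GO
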