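import Pool.Agent.Lib.MP_d6ddbd_nt.GO.Den
import Pool.Agent.Lib.MP_d6ddbd_nt.GO.Cs
import Pool.Agent.Lib.MP_d6ddbd_nt.GO.Cube
import Pool.Agent.Lib.MP_d6ddbd_nt.GO.Det
import Pool.Agent.Lib.MP_d6ddbd_nt.GO.Ex
import Pool.Agent.Lib.MP_d6ddbd_nt.GO.Fd
import Pool.Agent.Lib.MP_d6ddbd_nt.GO.Glue
import Pool.Agent.Lib.MP_d6ddbd_nt.GO.Ker
import Pool.Agent.Lib.MP_d6ddbd_nt.GO.Large
import Pool.Agent.Lib.MP_d6ddbd_nt.GO.Loc1
import Pool.Agent.Lib.MP_d6ddbd_nt.GO.Part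
import Pool.Agent.Lib.MP_d6ddbd_nt.GO.Ps
import Pool.Agent.Lib.MP_d6ddbd_nt.GO.Qd
import Pool.Agent.Lib.MP_d6ddbd_nt.GO.Rng
import Pool.Agent.Lib.MP_d6ddbd_nt.GO.Sga
import Pool.Agent.Lib.MP_d6ddbd_nt.GO.Small
import Pool.Agent.Lib.MP_d6ddbd_nt.GO.TwoBd
import Pool.Agent.Lib.MP_d6ddbd_nt.GG.All

/-!
Density one for the twists of `X₀(11)`: assembly of the counting half.
-/

set_option autoImplicit false

namespace Pool.Agent.Lib.MP_d6ddbd_nt.GO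

theorem detAll : DetStmt :=
  det_thm fd_thm (pool_thm rng_thm) (large_thm GG.lsAll)
    (small_thm cls_thm (ps_thm (qd_thm GG.discAll) rng_thm) ex_thm) ex_thm

theorem one_asm (h1 : SgaStmt → SgnStmt) (h2 : SumStmt) (hA : GA.I2Stmt) : OneStmt :=
  one_thm (den_thm (alg_thm hA) (loc2_thm (loc1_thm GG.lsgAll
    (cube_thm ker_thm cs_thm (h1 sga_thm)) part_thm col_thm) part_thm) h2 ex_thm fd_thm rng_thm
    detAll) fun _ _ hd h => fam_two_bd hd h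

end Pool.Agent.Lib.MP_d6ddbd_nt.GO
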