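import Pool.Agent.Lib.MP_d6ddbd_nt.KI.Stmt
import Pool.Agent.Lib.MP_d6ddbd_nt.GG.St

/-!
Density one for the twists of `X₀(11)`: cubes of matrices, cells of primes, boxes.
-/

set_option autoImplicit false

open Finset
open Pool.Agent.Lib.MP_d6ddbd_nt.K11 Pool.Agent.Lib.MP_d6ddbd_nt.KI
open Pool.Agent.Lib.MP_d6ddbd_nt.GG (sg bnd Opn Chr)

noncomputable section

namespace Pool.Agent.Lib.MP_d6ddbd_nt.GO

/-! ### Cubes -/

/-- The vertex `T` of the cube spanned by `p` and `p'`. -/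
def mix {n : ℕ} {α : Type} (T : Finset (Fin n)) (p p' : Fin n → α) : Fin n → α :=
  fun i => if i ∈ T then p' i else p i

/-- The alternating sum over the cube in the directions `J`. -/
def cb {n : ℕ} {α M : Type} [AddCommGroup M] (J : Finset (Fin n)) (F : (Fin n → α) → M)
    (p p' : Fin n → α) : M := ∑ T ∈ J.powerset, (-1 : ℤ) ^ T.card • F (mix T p p')

/-- Vectors modulo `2 ^ K`. -/
abbrev Vec (K r : ℕ) : Type := Fin r → ZMod (2 ^ K)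

/-- Matrices modulo `2 ^ K`. -/
abbrev Mat (K r : ℕ) : Type := Matrix (Fin r) (Fin r) (ZMod (2 ^ K))

/-- Two vectors that are independent modulo two. -/
def Ind {K r : ℕ} (x y : Vec K r) : Prop :=
  2 ^ (K - 1) • x ≠ 0 ∧ 2 ^ (K - 1) • y ≠ 0 ∧ 2 ^ (K - 1) • x ≠ 2 ^ (K - 1) • y

/-- The bilinear form of a matrix. -/
def bf {K r : ℕ} (y : Vec K r) (M : Mat K r) (x : Vec K r) : ZMod (2 ^ K) := y ⬝ᵥ M.mulVec x

/-- The obstruction vanishes: `M` is the cube in `k - 1` directions. -/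
def Obs {K r : ℕ} (k : ℕ) (y : Vec K r) (M : Mat K r) (x : Vec K r) : Prop :=
  ∀ l, 2 ^ (K - k) • (y l * M.mulVec x l + Matrix.vecMul y M l * x l) = 0

/-- Tuples that are distinct in the directions `J`. -/
def Dis {n : ℕ} (J : Finset (Fin n)) (p p' : Fin n → ℕ) : Prop := ∀ i ∈ J, p i ≠ p' i

/-- The properties of the family of matrices that do not involve the top coefficient. -/
structure Fm {n K r : ℕ} (P : Fin n → Finset ℕ) (B : (Fin n → ℕ) → Prop)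
    (A : (Fin n → ℕ) → Mat K r) : Prop where
  ev : ∀ p ∈ Fintype.piFinset P, 2 ^ (K - 1) • A p = 0
  ker : ∀ p ∈ Fintype.piFinset P, B p →
    ∃ v w, Ind v w ∧ (A p).mulVec v = 0 ∧ (A p).mulVec w = 0
  dv : ∀ J, ∀ p ∈ Fintype.piFinset P, ∀ p' ∈ Fintype.piFinset P, Dis J p p' →
    2 ^ (K - J.card) • cb J A p p' = 0

/-- The top coefficient of the cube with the second prime in the direction `i₁` replaced by `l`
splits as a function of the two primes in the direction `i₀`. -/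
def Top {n K r : ℕ} (P : Fin n → Finset ℕ) (A : (Fin n → ℕ) → Mat K r) (x y : Vec K r)
    (J : Finset (Fin n)) (i₀ i₁ : Fin n) (p p' : Fin n → ℕ) (l : ℕ) (f : ℕ → ZMod 2) : Prop :=
  ∀ a ∈ P i₀, ∀ b ∈ P i₀, a ≠ b →
    2 ^ (K - 1 - J.card) • bf y (cb J A (Function.update p i₀ a)
      (Function.update (Function.update p' i₁ l) i₀ b)) x = 2 ^ (K - 1) * ((f a + f b).val : ℕ)

/-! ### Cells -/

/-- The twist with the given primes. -/
def dd {n : ℕ} (d₀ : ℤ) (p : Fin n → ℕ) : ℤ := d₀ * ∏ i, GF.pst (p i)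

/-- The numbers whose symbols define the classes. -/
def gens (d₀ : ℤ) (Q : Finset ℕ) : Finset ℤ :=
  {-1, 2, 11} ∪ (d₀.natAbs.primeFactors ∪ Q).image fun q : ℕ => (q : ℤ)

/-- Primes of type three that do not divide `d₀`. -/
def T3 (d₀ : ℤ) (p : ℕ) : Prop := p.Prime ∧ nr p = 0 ∧ ¬ (p : ℤ) ∣ d₀

/-- A cell: disjoint sets of primes of type three with constant symbols. -/
structure Cell {n : ℕ} (d₀ : ℤ) (Q : Finset ℕ) (P : Fin n → Finset ℕ) : Prop where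
  ty : ∀ i, ∀ p ∈ P i, T3 d₀ p
  dj : ∀ i j, i ≠ j → Disjoint (P i) (P j)
  sy : ∀ i, ∀ p ∈ P i, ∀ p' ∈ P i, ∀ e ∈ gens d₀ Q, jacobiSym e p = jacobiSym e p'

/-- The modulus of a cube. -/
def md {n : ℕ} (d₀ : ℤ) (Q : Finset ℕ) (J : Finset (Fin n)) (i₀ i₁ : Fin n) (p p' : Fin n → ℕ) :
    ℕ :=
  22 * d₀.natAbs * (∏ q ∈ Q, q) * (∏ i ∈ univ.erase i₀, p i) * ∏ i ∈ (J.erase i₀).erase i₁, p' i

/-- The top coefficients are values of characters of one open subgroup. -/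
def Tp {n K r : ℕ} (D M : ℕ) (P : Fin n → Finset ℕ) (A : (Fin n → ℕ) → Mat K r) (x y : Vec K r)
    (J : Finset (Fin n)) (i₀ i₁ : Fin n) (p p' : Fin n → ℕ) : Prop :=
  ∃ (U : Subgroup G) (σ : ℕ → G) (θ : ℕ → G → ZMod 2), Opn U ∧ U.index ≤ D ∧
    (∀ (v : ℕ) O (g : G), v.Prime → ¬ v ∣ M → Ov O v → Frob O 1 g → g ∈ U) ∧
    (∀ a ∈ P i₀, σ a ∈ U ∧ ∃ O, Ov O a ∧ Frob O a (σ a)) ∧
    ∀ l ∈ P i₁, l ≠ p i₁ → Obs J.card y (cb (J.erase i₀) A p (Function.update p' i₁ l)) x →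
      Chr U M l (θ l) ∧ Top P A x y J i₀ i₁ p p' l fun a => θ l (σ a)

/-- What the counting needs from the algebra, with `K = n + 1`. -/
structure Alg (n D C : ℕ) (Kg : ℕ → Prop) (Val : ℤ → Finset ℕ → Prop) (J₀ : Finset ℂ) : Prop where
  al : Al J₀
  kg : ∀ (q : ℕ) O (φ : G), q.Prime → C < q → Ov O q → Frob O q φ → Ag J₀ φ cj → Kg q
  ty : ∀ q, Kg q → nr q = 1
  ex : ∀ (L : Type) [Field L] [NumberField L] (θ : L), Cub θ → ∀ (d : ℤ) (S : Finset ℕ), Fam d →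
    (∀ α, SelC θ d α → ¬ IsSquare α → ∃ q ∈ S, q.Prime ∧ Kg q ∧ ¬ (q : ℤ) ∣ d ∧ fv q α = 1) →
    ∃ Q ⊆ S, Q.card ≤ 2 * d.natAbs.primeFactors.card + C ∧ (∀ q ∈ Q, q.Prime ∧ Kg q) ∧ Val d Q
  inv : ∀ (d₀ : ℤ) (P : Fin n → Finset ℕ) (Q : Finset ℕ), Fam d₀ → Cell d₀ ∅ P →
    ∀ p ∈ Fintype.piFinset P, ∀ p' ∈ Fintype.piFinset P, Val (dd d₀ p) Q → Val (dd d₀ p') Q
  mat : ∀ (d₀ : ℤ) (P : Fin n → Finset ℕ) (Q : Finset ℕ), Fam d₀ → Cell d₀ Q P →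
    (∀ p ∈ Fintype.piFinset P, Val (dd d₀ p) Q) →
    ∃ (r : ℕ) (A : (Fin n → ℕ) → Mat (n + 1) r), r ≤ Q.card ∧
      Fm P (fun p => ¬ Two (dd d₀ p) n) A ∧
      ∀ x y, Ind x y → ∀ (J : Finset (Fin n)) i₀ i₁, i₀ ∈ J → i₁ ∈ J → i₀ ≠ i₁ →
        ∀ p ∈ Fintype.piFinset P, ∀ p' ∈ Fintype.piFinset P, Dis ((J.erase i₀).erase i₁) p p' →
          Tp D (md d₀ Q J i₀ i₁ p p') P A x y J i₀ i₁ p p'

/-- The algebraic half. -/
def AlgStmt : Prop := ∀ n : ℕ, 2 ≤ n → ∃ D C Kg Val J₀, Alg n D C Kg Val J₀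

end Pool.Agent.Lib.MP_d6ddbd_nt.GO
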