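import Pool.Agent.Lib.MP_d6ddbd_nt.GO.Stmt

/-!
Density one for the twists of `X₀(11)`: the bound in a product of boxes.
-/

set_option autoImplicit false

open Finset
open Pool.Agent.Lib.MP_d6ddbd_nt.K11 Pool.Agent.Lib.MP_d6ddbd_nt.KI
open scoped Classical

noncomputable section

namespace Pool.Agent.Lib.MP_d6ddbd_nt.GO

namespace Loc2

/-- The symbols of a list of integers at `p`. -/
def sy (E : Finset ℤ) (p : ℕ) : E → ℤ := fun e => jacobiSym e p

theorem sy_card (E : Finset ℤ) (T : Finset ℕ) (inst : DecidableEq (E → ℤ)) (m : ℕ)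
    (hm : E.card ≤ m) : (@Finset.image _ _ inst (sy E) T).card ≤ 4 ^ m := by
  have h1 : @Finset.image _ _ inst (sy E) T ⊆
      Fintype.piFinset fun _ : E => ({0, 1, -1} : Finset ℤ) := by
    intro f hf
    obtain ⟨p, -, rfl⟩ := (@Finset.mem_image _ _ inst _ _ _).1 hf
    rw [Fintype.mem_piFinset]
    intro e
    rcases jacobiSym.trichotomy (e : ℤ) p with h | h | h <;> simp [sy, h]
  refine (Finset.card_le_card h1).trans ?_
  rw [Fintype.card_piFinset, Finset.prod_const, Finset.card_univ, Fintype.card_coe]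
  calc ({0, 1, -1} : Finset ℤ).card ^ E.card ≤ 4 ^ E.card :=
        Nat.pow_le_pow_left (Finset.card_le_three.trans (by norm_num)) _
    _ ≤ 4 ^ m := Nat.pow_le_pow_right (by norm_num) hm

theorem gens_card (d₀ : ℤ) (Q : Finset ℕ) : (gens d₀ Q).card ≤ 3 + (om' d₀ + Q.card) := by
  unfold gens om'
  refine (Finset.card_union_le _ _).trans (Nat.add_le_add Finset.card_le_three ?_)
  exact Finset.card_image_le.trans (Finset.card_union_le _ _)

theorem pst_abs (l : ℕ) : (GF.pst l).natAbs = l := by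
  simp [GF.pst, Int.natAbs_mul, Int.natAbs_pow]

theorem pst_four {l : ℕ} (hl : l % 2 = 1) : GF.pst l % 4 = 1 := by
  unfold GF.pst
  rcases Nat.even_or_odd (l / 2) with h | h
  · rw [h.neg_one_pow]
    obtain ⟨c, hc⟩ := h
    omega
  · rw [h.neg_one_pow]
    obtain ⟨c, hc⟩ := h
    omega

theorem dd_abs {n : ℕ} (d₀ : ℤ) (p : Fin n → ℕ) :
    (dd d₀ p).natAbs = d₀.natAbs * ∏ i, p i := by
  unfold dd
  rw [Int.natAbs_mul]
  congr 1
  have h : ∀ s : Finset (Fin n), (∏ i ∈ s, GF.pst (p i)).natAbs = ∏ i ∈ s, p i := by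
    intro s
    induction s using Finset.induction_on with
    | empty => simp
    | insert a s ha ih => rw [Finset.prod_insert ha, Finset.prod_insert ha, Int.natAbs_mul, ih,
        pst_abs]
  exact h _

theorem dd_fam {n : ℕ} {d₀ : ℤ} (hd : Fam d₀) {p : Fin n → ℕ} (hp : ∀ i, (p i).Prime)
    (h11 : ∀ i, 11 < p i) (hn : ∀ i, ¬ (p i : ℤ) ∣ d₀) (hj : ∀ i j, i ≠ j → p i ≠ p j) :
    Fam (dd d₀ p) := by
  refine ⟨?_, ?_, ?_⟩
  · rw [← Int.squarefree_natAbs, dd_abs, Nat.squarefree_mul_iff]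
    refine ⟨?_, Int.squarefree_natAbs.2 hd.sf, ?_⟩
    · refine Nat.Coprime.prod_right fun i _ => ?_
      refine ((Nat.Prime.coprime_iff_not_dvd (hp i)).2 fun h => hn i ?_).symm
      exact Int.natCast_dvd.2 h
    · refine Finset.squarefree_prod_of_pairwise_isCoprime ?_ fun i _ => (hp i).squarefree
      intro i _ j _ hij
      exact Nat.coprime_iff_isRelPrime.1 ((Nat.coprime_primes (hp i) (hp j)).2 (hj i j hij))
  · have h : ∀ s : Finset (Fin n), (∏ i ∈ s, GF.pst (p i)) % 4 = 1 := by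
      intro s
      induction s using Finset.induction_on with
      | empty => simp
      | insert a s ha ih =>
        have h2 : p a % 2 = 1 := (hp a).eq_two_or_odd.resolve_left (by have := h11 a; omega)
        rw [Finset.prod_insert ha, Int.mul_emod, ih, pst_four h2]
        norm_num
    unfold dd
    rw [Int.mul_emod, hd.m4, h]
    norm_num
  · intro h
    have h1 : 11 ∣ (dd d₀ p).natAbs := Int.natCast_dvd.1 (by exact_mod_cast h)
    have h2 : Nat.Prime 11 := by norm_num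
    rw [dd_abs] at h1
    rcases (Nat.Prime.dvd_mul h2).1 h1 with h3 | h3
    · exact hd.n11 (by exact_mod_cast Int.natCast_dvd.2 h3)
    · obtain ⟨i, -, hi⟩ := (Prime.dvd_finsetProd_iff h2.prime _).1 h3
      have h4 := (Nat.prime_dvd_prime_iff_eq h2 (hp i)).1 hi
      have := h11 i
      omega

theorem dd_om {n : ℕ} (d₀ : ℤ) {p : Fin n → ℕ} (hp : ∀ i, (p i).Prime) :
    (dd d₀ p).natAbs.primeFactors.card ≤ om' d₀ + n := by
  have h1 : (dd d₀ p).natAbs.primeFactors ⊆ d₀.natAbs.primeFactors ∪ univ.image p := by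
    intro l hl
    obtain ⟨l1, l2, l3⟩ := Nat.mem_primeFactors.1 hl
    rw [dd_abs] at l2 l3
    rcases (Nat.Prime.dvd_mul l1).1 l2 with h3 | h3
    · exact Finset.mem_union_left _ (Nat.mem_primeFactors.2 ⟨l1, h3, left_ne_zero_of_mul l3⟩)
    · obtain ⟨i, -, hi⟩ := (Prime.dvd_finsetProd_iff l1.prime _).1 h3
      exact Finset.mem_union_right _ (Finset.mem_image.2 ⟨i, Finset.mem_univ _,
        ((Nat.prime_dvd_prime_iff_eq l1 (hp i)).1 hi).symm⟩)
  refine (Finset.card_le_card h1).trans ((Finset.card_union_le _ _).trans ?_)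
  refine Nat.add_le_add le_rfl (Finset.card_image_le.trans ?_)
  simp

theorem bnd_mono {n : ℕ} {B B' : (Fin n → ℕ) → Prop} {P : Fin n → Finset ℕ} {α α' β β' : ℝ}
    (h : Bnd B P α β) (hB : ∀ p, B' p → B p) (h1 : α ≤ α') (h2 : β ≤ β') : Bnd B' P α' β' := by
  unfold Bnd at *
  have h3 : (((Fintype.piFinset P).filter B').card : ℝ) ≤ ((Fintype.piFinset P).filter B).card := by
    exact_mod_cast Finset.card_le_card (Finset.monotone_filter_right _ fun p _ => hB p)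
  have h4 : α * ((Fintype.piFinset P).card : ℝ) ≤ α' * (Fintype.piFinset P).card :=
    mul_le_mul_of_nonneg_right h1 (Nat.cast_nonneg _)
  linarith

theorem num_sub {n : ℕ} {C c : ℝ} {P P' : Fin n → Finset ℕ} {y : Fin n → ℝ} {Λ V τ δ a : ℝ}
    (h : Num C c P y Λ V τ δ a) (hs : ∀ i, P' i ⊆ P i) : Num C c P' y Λ V τ δ a :=
  ⟨fun i p hp => h.bx i p (hs i hp), h.y11, h.V0, h.lo, h.t0, h.sv, h.dg, h.a0, h.cs⟩

theorem cell_of {n : ℕ} {d₀ : ℤ} (Q : Finset ℕ) {P P' : Fin n → Finset ℕ}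
    (h1 : ∀ i, ∀ p ∈ P i, T3 d₀ p) (h2 : ∀ i j, i ≠ j → Disjoint (P i) (P j))
    (hs : ∀ i, P' i ⊆ P i) (c : Fin n → gens d₀ Q → ℤ)
    (hc : ∀ i, ∀ p ∈ P' i, sy (gens d₀ Q) p = c i) : Cell d₀ Q P' := by
  refine ⟨fun i p hp => h1 i p (hs i hp), fun i j hij => (h2 i j hij).mono (hs i) (hs j), ?_⟩
  intro i p hp p' hp' e he
  exact congrFun ((hc i p hp).trans (hc i p' hp').symm) ⟨e, he⟩

theorem bnd_none {n : ℕ} {B : (Fin n → ℕ) → Prop} {P : Fin n → Finset ℕ} {α β : ℝ}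
    (h : ∀ p ∈ Fintype.piFinset P, ¬ B p) (h1 : 0 ≤ α) (h2 : 0 ≤ β) : Bnd B P α β := by
  unfold Bnd
  rw [Finset.filter_eq_empty_iff.2 h, Finset.card_empty, Nat.cast_zero]
  positivity

theorem mem_fil {T : Finset ℕ} {B : ℕ → Prop} {inst : DecidablePred B} {p : ℕ}
    (h : p ∈ @Finset.filter _ B inst T) : p ∈ T ∧ B p := Finset.mem_filter.1 h

end Loc2

open Loc2 in
theorem loc2_thm (h1 : Loc1Stmt) (h2 : PartStmt) : Loc2Stmt := by
  intro n D C Kg Val J₀ hn hA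
  obtain ⟨C', c', hC, hc, H⟩ := h1 n D C Kg Val J₀ hn hA
  refine ⟨C', c', hC, hc, ?_⟩
  intro L _ _ θ hθ d₀ P S y Λ V τ δ a Z ρ hd hT hj hN hρ hZ hS hΛ
  have hy : ∀ i, 0 ≤ y i := fun i => by have := hN.y11 i; linarith
  have hW : 0 ≤ τ * ∏ i, y i := mul_nonneg hN.t0.le (Finset.prod_nonneg fun i _ => hy i)
  have ha := hN.a0
  set W := τ * ∏ i, y i with hWd
  set β : ℝ := (2 ^ ρ ^ 2) ^ n * (2 ^ n * W) with hβ
  have hβ0 : 0 ≤ β := by positivity
  have key := h2 n P (fun p => ¬ Two (dd d₀ p) n ∧ Det θ Kg S (dd d₀ p)) (gens d₀ ∅ → ℤ)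
    (fun _ => sy (gens d₀ ∅)) (4 ^ ρ) (16 / 2 ^ n + 4 ^ ((n + 1) * ρ) * a)
    (((4 ^ (2 * ρ) : ℕ) : ℝ) ^ n * β) (by positivity)
    (fun i => sy_card _ _ _ _ ((gens_card d₀ ∅).trans (by simp; omega))) ?_
  · refine bnd_mono key (fun p hp => hp) le_rfl ?_
    have e1 : (((4 ^ ρ : ℕ) : ℝ)) ^ n * (((4 ^ (2 * ρ) : ℕ) : ℝ) ^ n * β) =
        2 ^ (n * (ρ ^ 2 + 6 * ρ + 1)) * W := by
      have e4 : (4 : ℝ) = 2 ^ 2 := by norm_num
      rw [hβ]
      push_cast
      rw [e4]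
      simp only [← pow_mul, ← mul_assoc, ← pow_add]
      congr 2
      ring
    rw [e1]
    refine mul_le_mul_of_nonneg_right (pow_le_pow_right₀ (by norm_num) ?_) hW
    exact Nat.mul_le_mul_left _ (by nlinarith)
  intro c
  set P' : Fin n → Finset ℕ := fun i => @Finset.filter _ (fun p => sy (gens d₀ ∅) p = c i)
    (fun _ => Classical.propDecidable _) (P i) with hP'
  have hs : ∀ i, P' i ⊆ P i := fun i p hp => (mem_fil hp).1
  have hcell : Cell d₀ ∅ P' := cell_of ∅ hT hj hs c fun i p hp => (mem_fil hp).2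
  by_cases hex : ∃ p ∈ Fintype.piFinset P', Det θ Kg S (dd d₀ p)
  swap
  · exact bnd_none (fun p hp h => hex ⟨p, hp, h.2⟩) (by positivity) (by positivity)
  obtain ⟨p₀, hp₀, hdet⟩ := hex
  have hm := Fintype.mem_piFinset.1 hp₀
  have hfam : Fam (dd d₀ p₀) := by
    refine dd_fam hd (fun i => (hcell.ty i _ (hm i)).1) (fun i => ?_)
      (fun i => (hcell.ty i _ (hm i)).2.2) fun i j hij h => ?_
    · have h3 := (hN.bx i _ (hs i (hm i))).1
      have h4 := hN.y11 i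
      exact_mod_cast (show (11 : ℝ) < p₀ i by linarith)
    · exact Finset.disjoint_left.1 (hcell.dj i j hij) (hm i) (h ▸ hm j)
  obtain ⟨Q, hQS, hQc, hQ, hV⟩ := hA.ex L θ hθ (dd d₀ p₀) S hfam hdet
  have hom := dd_om d₀ fun i => (hcell.ty i _ (hm i)).1
  have hQρ : Q.card ≤ ρ := by omega
  refine h2 n P' _ (gens d₀ Q → ℤ) (fun _ => sy (gens d₀ Q)) (4 ^ (2 * ρ)) _ β hβ0
    (fun i => sy_card _ _ _ _ ((gens_card d₀ Q).trans (by omega))) fun c₁ => ?_
  set P'' : Fin n → Finset ℕ := fun i => @Finset.filter _ (fun p => sy (gens d₀ Q) p = c₁ i)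
    (fun _ => Classical.propDecidable _) (P' i) with hP''
  have hs' : ∀ i, P'' i ⊆ P' i := fun i p hp => (mem_fil hp).1
  have hcell' : Cell d₀ Q P'' :=
    cell_of Q hcell.ty hcell.dj hs' c₁ fun i p hp => (mem_fil hp).2
  have hprod : ∏ q ∈ Q, (q : ℝ) ≤ Z ^ ρ := by
    calc ∏ q ∈ Q, (q : ℝ) ≤ ∏ _q ∈ Q, Z :=
          Finset.prod_le_prod (fun q _ => Nat.cast_nonneg q) fun q hq => hS q (hQS hq)
      _ = Z ^ Q.card := Finset.prod_const _
      _ ≤ Z ^ ρ := pow_le_pow_right₀ hZ hQρ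
  have hb := H d₀ P'' Q y Λ V τ δ a hd hcell'
    (fun p hp => hA.inv d₀ P' Q hd hcell p₀ hp₀ p (Fintype.piFinset_subset _ _ hs' hp) hV)
    (fun q hq => ⟨(hQ q hq).1, hA.ty q (hQ q hq).2⟩)
    (num_sub hN fun i => (hs' i).trans (hs i)) (by
      refine le_trans ?_ hΛ
      refine mul_le_mul_of_nonneg_right (mul_le_mul_of_nonneg_left hprod (by positivity)) ?_
      exact Finset.prod_nonneg fun i _ => pow_nonneg (by have := hy i; linarith) _)
  refine bnd_mono hb (fun p hp => hp.1) ?_ ?_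
  · have : (4 : ℝ) ^ ((n + 1) * Q.card) ≤ 4 ^ ((n + 1) * ρ) :=
      pow_le_pow_right₀ (by norm_num) (Nat.mul_le_mul_left _ hQρ)
    have := mul_le_mul_of_nonneg_right this ha
    linarith
  · have e : τ * 2 ^ n * ∏ i, y i = 2 ^ n * W := by rw [hWd]; ring
    rw [e, hβ]
    refine mul_le_mul_of_nonneg_right (pow_le_pow_left₀ (by positivity) ?_ _) (by positivity)
    exact pow_le_pow_right₀ (by norm_num) (Nat.pow_le_pow_left hQρ _)

end Pool.Agent.Lib.MP_d6ddbd_nt.GO
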