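import Pool.Agent.Lib.MP_d6ddbd_nt.GO.Par
import Pool.Agent.Lib.MP_d6ddbd_nt.GO.Loc2
import Pool.Agent.Lib.MP_d6ddbd_nt.K11.Final

/-!
Density one for the twists of `X₀(11)`: the final count.
-/

set_option autoImplicit false

open Finset Filter Topology
open Pool.Agent.Lib.MP_d6ddbd_nt.K11 Pool.Agent.Lib.MP_d6ddbd_nt.KI
open Pool.Agent.Lib.MP_9177b7_ag.B (tsumP)
open scoped Classical

noncomputable section

namespace Pool.Agent.Lib.MP_d6ddbd_nt.GO

namespace Den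

open Par

/-- The primes of type three in a range. -/
def rg (a b : ℝ) : Finset ℕ :=
  (range (⌊Real.exp b⌋₊ + 1)).filter fun p => p.Prime ∧ Real.exp a < p ∧ nr p = 0

theorem mem_rg {a b : ℝ} {p : ℕ} :
    p ∈ rg a b ↔ (p : ℝ) ≤ Real.exp b ∧ p.Prime ∧ Real.exp a < p ∧ nr p = 0 := by
  rw [rg, mem_filter, mem_range, Nat.lt_succ_iff, Nat.le_floor_iff (Real.exp_pos _).le]

theorem mass {S : Set ℕ} (hS : ∀ p ∈ S, p.Prime → p ≠ 2 → p ≠ 11 → nr p = 0) {a b : ℝ}
    (h1 : 11 ≤ a) (h2 : a ≤ b) : tsumP (ind S) (Real.exp b) - tsumP (ind S) (Real.exp a) ≤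
      ∑ q ∈ rg a b, 1 / (q : ℝ) := by
  have sub : (range (⌊Real.exp a⌋₊ + 1)).filter Nat.Prime ⊆
      (range (⌊Real.exp b⌋₊ + 1)).filter Nat.Prime :=
    filter_subset_filter _ (range_subset_range.2 (Nat.succ_le_succ
      (Nat.floor_le_floor (Real.exp_le_exp.2 h2))))
  rw [tsumP, tsumP, ← sum_sdiff sub, add_sub_cancel_right]
  simp only [ind, ite_div, zero_div]
  rw [← sum_filter]
  refine sum_le_sum_of_subset_of_nonneg (fun p hp => ?_) fun _ _ _ => by positivity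
  obtain ⟨hq, a4⟩ := mem_filter.1 hp
  obtain ⟨hr, a3⟩ := Finset.mem_sdiff.1 hq
  obtain ⟨a0, a2⟩ := mem_filter.1 hr
  have a1 : (p : ℝ) ≤ Real.exp b := by
    rwa [mem_range, Nat.lt_succ_iff, Nat.le_floor_iff (Real.exp_pos _).le] at a0
  have a5 : Real.exp a < p := not_le.1 fun h => a3 (mem_filter.2 ⟨by
    rwa [mem_range, Nat.lt_succ_iff, Nat.le_floor_iff (Real.exp_pos _).le], a2⟩)
  have a6 : (11 : ℝ) < p := (h1.trans (le_exp a)).trans_lt a5
  have a7 : 11 < p := by exact_mod_cast a6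
  exact mem_rg.2 ⟨a1, a2, a5, hS p a4 a2 (by omega) (by omega)⟩

theorem fam_of {n : ℕ} {d₀ : ℤ} {p : Fin n → ℕ} (hp : ∀ i, p i % 2 = 1) (h : Fam (dd d₀ p)) :
    Fam d₀ := by
  refine ⟨h.sf.of_mul_left, ?_, fun e => h.n11 (e.mul_right _)⟩
  have h1 : (∏ i, GF.pst (p i)) % 4 = 1 := by
    refine prod_induction _ (fun x : ℤ => x % 4 = 1) (fun a b ha hb => ?_) rfl
      fun i _ => Loc2.pst_four (hp i)
    rw [Int.mul_emod, ha, hb]
    rfl
  have h2 := h.m4
  rwa [dd, Int.mul_emod, h1, mul_one, Int.emod_emod] at h2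

theorem big {c : ℕ → ℝ} {δ C η : ℝ} (h : Tendsto (fun t : ℕ => c t / Real.log t) atTop (𝓝 δ))
    (hδ : 0 < δ) (hη : 0 < η) : ∀ᶠ t : ℕ in atTop, C * Real.exp (-c t) ≤ η := by
  have h1 : Tendsto (fun t : ℕ => Real.log t) atTop atTop :=
    Real.tendsto_log_atTop.comp tendsto_natCast_atTop_atTop
  have h2 : Tendsto c atTop atTop := by
    refine (h.pos_mul_atTop hδ h1).congr' ?_
    filter_upwards [h1.eventually_gt_atTop 0] with t ht
    rw [div_mul_cancel₀ _ ht.ne']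
  have h3 := (Real.tendsto_exp_neg_atTop_nhds_zero.comp h2).const_mul C
  rw [mul_zero] at h3
  exact h3.eventually_le_const hη

end Den

open Den Par

theorem den_thm (hA : AlgStmt) (h1 : Loc2Stmt) (h2 : SumStmt) (h3 : ExStmt) (h4 : FdStmt)
    (h5 : RngStmt) (h6 : DetStmt) : DenStmt := by
  intro n ε hn hε
  obtain ⟨D, C, Kg, Val, J₀, hA⟩ := hA n hn
  obtain ⟨L, _, _, θ, hθ⟩ := Final.exists_cub
  obtain ⟨C', c', -, hc, H1⟩ := h1 n D C Kg Val J₀ hn hA
  obtain ⟨E1, -, δs, Cs, s0, -, s2, E3⟩ := h3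
  obtain ⟨-, S3, δ3, d3, l3, t3⟩ := h4
  have n0 : (2 : ℝ) ≤ n := by exact_mod_cast hn
  obtain ⟨η, hη, e15⟩ : ∃ η : ℝ, 0 < η ∧ ε = 15 * η := ⟨ε / 15, by positivity, by ring⟩
  have b3 : Shared.FrobeniusDensity.Bdd (ind S3) := ⟨1, fun p _ => by
    unfold ind
    split_ifs <;> simp⟩
  have ev3 : ∀ᶠ t : ℕ in atTop, ∀ i : Fin n, Cs * Real.exp (-(tsumP (ind S3)
      (Real.exp (t ^ (n + 199 + i + 1))) - tsumP (ind S3) (Real.exp (t ^ (n + 199 + i))))) ≤
      η / n :=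
    eventually_all.2 fun i => big ((h5 _ δ3 b3 l3).2 (n + 199 + i) (by omega)) d3
      (by positivity)
  refine red (N := 2 * n + 200) (by omega) ?_
  filter_upwards [h6 n D C Kg Val J₀ hA L θ hθ (2 * n + 200) η (by omega) hη, ev3,
    ge (2 * n + C + 3), ge (1 / δs), pb (2 * n + 200) hη, pe n hη, pf n (C := C') hc, pg n,
    ph n (2 * n + 200), pi n (2 * n + 199) hη] with t ⟨S, hS, hD⟩ e3 ta tb eb ee ef eg eh ei
  intro X hX1 hX2
  have c0 : (0 : ℝ) ≤ C := by positivity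
  have t1 : (1 : ℝ) ≤ t := by linarith
  have tp : ∀ {a b : ℕ}, a ≤ b → (t : ℝ) ^ a ≤ t ^ b := fun h => pow_le_pow_right₀ t1 h
  have X1 : 1 ≤ X := (Real.one_le_exp (by positivity)).trans hX1
  have X0 : 0 < X := by linarith
  have t2 : (0 : ℝ) ≤ t ^ 2 := by positivity
  have t3' : (0 : ℝ) ≤ t ^ 3 := by positivity
  have k12 : ∀ i : ℕ, (12 : ℝ) ≤ t ^ (n + 199 + i) := fun i =>
    le_trans (by linarith) (tp (Nat.le_add_right _ i))
  let I : Fin n → Finset ℕ := fun i => rg (t ^ (n + 199 + i)) (t ^ (n + 199 + i + 1))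
  have mI : ∀ i, ∀ p ∈ I i, p.Prime ∧ nr p = 0 ∧ Real.exp (t ^ (n + 199)) < p ∧
      (p : ℝ) ≤ Real.exp (t ^ (2 * n + 199)) ∧ 11 < p := fun i p hp => by
    obtain ⟨a1, a2, a3, a4⟩ := mem_rg.1 hp
    have := i.2
    refine ⟨a2, a4, (Real.exp_le_exp.2 (tp (by omega))).trans_lt a3,
      a1.trans (Real.exp_le_exp.2 (tp (by omega))), ?_⟩
    have a5 : (11 : ℝ) < p := by linarith [k12 i, le_exp ((t : ℝ) ^ (n + 199 + i))]
    exact_mod_cast a5
  have dI : ∀ i j, i ≠ j → Disjoint (I i) (I j) := by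
    have : ∀ i j : Fin n, i < j → Disjoint (I i) (I j) := fun i j h =>
      disjoint_left.2 fun p a b => absurd (mem_rg.1 a).1 (not_le.2
        ((Real.exp_le_exp.2 (tp (Nat.succ_le_of_lt (Nat.add_lt_add_left h _)))).trans_lt
          (mem_rg.1 b).2.2.1))
    exact fun i j h => (lt_or_gt_of_ne h).elim (this i j) fun h => (this j i h).symm
  let B : ℤ → Prop := fun d => Fam d ∧ ¬ Two d n ∧ Det θ Kg S d ∧ om' d ≤ t ∧
    ∀ i, ∃ p ∈ I i, (p : ℤ) ∣ d
  obtain ⟨a, ha⟩ : ∃ a : ℝ, a = η / 4 ^ ((n + 1) * (3 * t)) := ⟨_, rfl⟩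
  have a0 : 0 < a := by rw [ha]; positivity
  rw [← ha] at ee
  have main : cnt X B ≤ 6 * X * (16 / 2 ^ n + η + ((n * t ^ (2 * n + 199) + 1 : ℕ) : ℝ) ^ n *
      (2 ^ (n * (3 * t + 3) ^ 2) * Real.exp (-t ^ 3))) := by
    refine h2 n I B X _ _ _ (by omega) X0.le (by positivity) (by positivity)
      (fun i p hp => ⟨(mI i p hp).1, by have := (mI i p hp).2.2.2.2; omega⟩) dI (fun i => ?_)
      (fun d hd => ⟨hd.1.sf, hd.2.2.2.2⟩) fun d₀ b ⟨p, hp, hB, hX⟩ => ?_
    · refine le_trans (card_le_card (t := range (n * t ^ (2 * n + 199) + 1)) fun j hj => ?_)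
        (card_range _).le
      obtain ⟨p, hp, rfl⟩ := mem_image.1 hj
      obtain ⟨a1, -, -, a2, -⟩ := mI i p hp
      rw [mem_range, Nat.lt_succ_iff, bx, Nat.ceil_le]
      push_cast
      exact mul_le_mul_of_nonneg_left ((Real.log_le_iff_le_exp (by exact_mod_cast a1.pos)).2 a2)
        (by positivity)
    have mc : ∀ i, ∀ q ∈ cells I d₀ b i, q ∈ I i ∧ bx n q = b i ∧ ¬ (q : ℤ) ∣ d₀ :=
      fun i q hq => mem_filter.1 hq
    have mp := fun i => mc i _ (Fintype.mem_piFinset.1 hp i)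
    have pp := fun i => mI i _ (mp i).1
    have ly : ∀ i, lo n (b i) < p i ∧ (p i : ℝ) ≤ 2 * lo n (b i) := fun i =>
      (mp i).2.1 ▸ lo_spec hn (pp i).1
    have y0 : ∀ i, 0 < lo n (b i) := fun i => Real.exp_pos _
    have y1 : ∀ i, Real.exp (t ^ (n + 199) - 1) ≤ lo n (b i) := fun i => by
      have := Real.add_one_le_exp 1
      rw [Real.exp_sub, div_le_iff₀ (Real.exp_pos _)]
      nlinarith [(ly i).2, (pp i).2.2.1, y0 i]
    have f0 : Fam d₀ := fam_of (fun i => (pp i).1.eq_two_or_odd.resolve_left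
      (by have := (pp i).2.2.2.2; omega)) hB.1
    have dv : d₀.natAbs ∣ (dd d₀ p).natAbs := by
      rw [Loc2.dd_abs]
      exact dvd_mul_right _ _
    have nz : (dd d₀ p).natAbs ≠ 0 := Int.natAbs_ne_zero.2 hB.1.sf.ne_zero
    have o1 : om' d₀ ≤ t := (card_le_card (Nat.primeFactors_mono dv nz)).trans hB.2.2.2.1
    have x0 : |(d₀ : ℝ)| ≤ X := by
      refine le_trans ?_ hX
      rw [← Int.cast_abs, ← Int.cast_abs, Int.cast_le, ← Int.natCast_natAbs, ← Int.natCast_natAbs,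
        Nat.cast_le]
      exact Nat.le_of_dvd (Nat.pos_of_ne_zero nz) dv
    have key := H1 L θ hθ d₀ (cells I d₀ b) S (fun i => lo n (b i)) (t ^ (2 * n + 202))
      (t ^ (n + 199) - 1) (Real.exp (-t ^ 3)) (a ^ 2 ^ n / (n + 2)) a
      (Real.exp (t ^ (2 * n + 200) + 1)) (3 * t) f0
      (fun i q hq => ⟨(mI i q (mc i q hq).1).1, (mI i q (mc i q hq).1).2.1, (mc i q hq).2.2⟩)
      (fun i j h => (dI i j h).mono (filter_subset _ _) (filter_subset _ _))
      ⟨fun i q hq => (mc i q hq).2.1 ▸ lo_spec hn (mI i q (mc i q hq).1).1,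
        fun i => le_trans (by linarith [le_exp ((t : ℝ) ^ (n + 199) - 1)]) (y1 i), by linarith,
        fun i => (Real.le_log_iff_exp_le (y0 i)).2 (y1 i), Real.exp_pos _,
        ef.trans (mul_le_mul_of_nonneg_right ee (by positivity)), fun i => ?_, a0.le,
        (mul_div_cancel₀ _ (by positivity)).le⟩
      (by
        have : 2 * n + C + 3 ≤ t := by exact_mod_cast ta
        omega)
      (Real.one_le_exp (by positivity)) hS ?_
    · refine Loc2.bnd_mono key (fun q hq => ⟨hq.2.1, hq.2.2.1⟩) (le_of_eq ?_) (le_of_eq ?_)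
      · rw [ha, mul_div_cancel₀ _ (by positivity)]
      · rw [mul_assoc]
    · refine le_trans ?_ (mul_le_mul (mul_le_mul_of_nonneg_right ee (Real.exp_pos _).le) (y1 i)
        (Real.exp_pos _).le (by positivity))
      rw [← Real.exp_add, ← Real.exp_add]
      exact Real.one_le_exp (by linarith)
    · have u1 : (t : ℝ) ^ (2 * n + 200) + 1 ≤ (t + 1) ^ (2 * n + 200) := by
        have := pow_add_pow_le (n := 2 * n + 200) (by linarith : (0 : ℝ) ≤ t) zero_le_one (by omega)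
        rwa [one_pow] at this
      have u0 : (1 : ℝ) ≤ (t + 1) ^ (2 * n + 200) := one_le_pow₀ (by linarith)
      obtain ⟨W, hW⟩ : ∃ W : ℝ, W = (t + 1) ^ (2 * n + 200) := ⟨_, rfl⟩
      rw [← hW] at u1 u0 eh hX2
      have u2 : ∀ i, (2 * lo n (b i)) ^ 3 ≤ Real.exp (3 * W) := fun i => by
        rw [show (3 : ℝ) * W = (3 : ℕ) * W by norm_num, Real.exp_nat_mul]
        refine pow_le_pow_left₀ (by linarith [y0 i]) ?_ 3
        have v1 : Real.exp (t ^ (2 * n + 199) + 1) ≤ Real.exp W :=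
          Real.exp_le_exp.2 (by linarith [tp (show 2 * n + 199 ≤ 2 * n + 200 by omega)])
        rw [Real.exp_add] at v1
        nlinarith [(ly i).1, (pp i).2.2.2.1, Real.add_one_le_exp 1,
          Real.exp_pos ((t : ℝ) ^ (2 * n + 199))]
      have u3 : ∏ i, (2 * lo n (b i)) ^ 3 ≤ Real.exp (n * (3 * W)) := by
        refine (prod_le_prod (fun i _ => by have := y0 i; positivity) fun i _ => u2 i).trans ?_
        rw [prod_const, card_univ, Fintype.card_fin, Real.exp_nat_mul]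
      have u4 : Real.exp (t ^ (2 * n + 200) + 1) ^ (3 * t) ≤ Real.exp (3 * t * W) := by
        rw [← Real.exp_nat_mul, Real.exp_le_exp]
        push_cast
        exact mul_le_mul_of_nonneg_left u1 (by positivity)
      have u5 : (22 : ℝ) ≤ Real.exp (4 * W) := by
        have v1 : Real.exp ((4 : ℕ) * 1) ≤ Real.exp (4 * W) :=
          Real.exp_le_exp.2 (by push_cast; linarith)
        rw [Real.exp_nat_mul] at v1
        refine le_trans ?_ v1
        exact le_trans (by norm_num) (pow_le_pow_left₀ (by norm_num : (0 : ℝ) ≤ 2.7)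
          (by linarith [Real.exp_one_gt_d9]) 4)
      refine (mul_le_mul (mul_le_mul (mul_le_mul u5 (x0.trans hX2) (abs_nonneg _)
        (by positivity)) u4 (by positivity) (by positivity)) u3
        (prod_nonneg fun i _ => by have := y0 i; positivity) (by positivity)).trans ?_
      rw [← Real.exp_add, ← Real.exp_add, ← Real.exp_add, Real.exp_le_exp]
      linarith
  have x1 : cnt X (fun d => d ≠ 0 ∧ (2 : ℝ) ^ t < 2 ^ om' d) ≤ η * X := by
    refine (E1 X _ X1 (by positivity)).trans (le_trans ?_ (mul_le_mul_of_nonneg_right eb X0.le))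
    have := (Real.log_le_iff_le_exp X0).2 hX2
    rw [div_mul_eq_mul_div]
    refine div_le_div_of_nonneg_right ?_ (by positivity)
    nlinarith
  have x2 := hD X hX1 hX2
  have x3 : cnt X (fun d => ∃ i, ∀ q ∈ I i, ¬ (q : ℤ) ∣ d) ≤ η * X := by
    refine (cnt_ex _).trans ((sum_le_sum (g := fun _ => η / n * X) fun i _ => ?_).trans ?_)
    · refine (E3 X (I i) X1 fun q hq => ⟨(mI i q hq).1, (mI i q hq).2.2.2.1.trans ?_⟩).trans ?_
      · rw [Real.rpow_def_of_pos X0, Real.exp_le_exp]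
        have v1 := (Real.le_log_iff_exp_le X0).2 hX1
        rw [div_le_iff₀ s0] at tb
        have v2 : (0 : ℝ) ≤ t ^ (2 * n + 199) := by positivity
        rw [pow_succ] at v1
        nlinarith [mul_le_mul_of_nonneg_right v1 s0.le]
      · rw [mul_right_comm]
        refine mul_le_mul_of_nonneg_right (le_trans ?_ (e3 i)) X0.le
        exact mul_le_mul_of_nonneg_left (Real.exp_le_exp.2 (neg_le_neg
          (mass t3 (by linarith [k12 i]) (tp (Nat.le_succ _))))) s2.le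
    · rw [sum_const, card_univ, Fintype.card_fin, nsmul_eq_mul, ← mul_assoc,
        mul_div_cancel₀ _ (by positivity)]
  have u1 : cnt X (fun d => Fam d ∧ ¬ Two d n) ≤ cnt X B +
      (cnt X (fun d => d ≠ 0 ∧ (2 : ℝ) ^ t < 2 ^ om' d) +
        (cnt X (fun d => Fam d ∧ om' d ≤ t ∧ ¬ Det θ Kg S d) +
          cnt X (fun d => ∃ i, ∀ q ∈ I i, ¬ (q : ℤ) ∣ d))) := by
    refine (cnt_or (B₂ := fun d => (d ≠ 0 ∧ (2 : ℝ) ^ t < 2 ^ om' d) ∨
      (Fam d ∧ om' d ≤ t ∧ ¬ Det θ Kg S d) ∨ ∃ i, ∀ q ∈ I i, ¬ (q : ℤ) ∣ d)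
      fun d hd => ?_).trans (add_le_add le_rfl ((cnt_or fun d hd => hd).trans
        (add_le_add le_rfl (cnt_or fun d hd => hd))))
    by_cases c1 : om' d ≤ t
    · by_cases c2 : Det θ Kg S d
      · by_cases c3 : ∀ i, ∃ p ∈ I i, (p : ℤ) ∣ d
        · exact Or.inl ⟨hd.1, hd.2, c2, c1, c3⟩
        · push Not at c3
          exact Or.inr (Or.inr (Or.inr c3))
      · exact Or.inr (Or.inr (Or.inl ⟨hd.1, c1, c2⟩))
    · exact Or.inr (Or.inl ⟨hd.1.sf.ne_zero, pow_lt_pow_right₀ one_lt_two (not_le.1 c1)⟩)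
  have u2 := main.trans (mul_le_mul_of_nonneg_left (add_le_add le_rfl ei) (by positivity))
  have u3 : 6 * X * (16 / 2 ^ n + η + η) = (96 / 2 ^ n + 12 * η) * X := by ring
  rw [e15]
  linarith

theorem one_thm (h1 : DenStmt) (h2 : BdStmt) : OneStmt := by
  refine tendsto_order.2 ⟨fun a ha => ?_, fun ε hε => ?_⟩
  · filter_upwards [eventually_gt_atTop 0] with X hX
    exact ha.trans_le (div_nonneg (Nat.cast_nonneg _) hX.le)
  · have h3 := (tendsto_pow_atTop_nhds_zero_of_lt_one (r := (1 / 2 : ℝ)) (by norm_num)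
      (by norm_num)).const_mul 96
    rw [mul_zero] at h3
    obtain ⟨n, a1, a2⟩ := ((h3.eventually_lt_const (half_pos hε)).and
      (eventually_ge_atTop 2)).exists
    filter_upwards [h1 n (ε / 2) a2 (half_pos hε), eventually_gt_atTop 0] with X h4 hX
    rw [div_lt_iff₀ hX]
    refine ((cnt_mono fun d hd => ?_).trans h4).trans_lt (mul_lt_mul_of_pos_right ?_ hX)
    · exact ⟨hd.1, fun h => hd.2 (h2 d n hd.1 h)⟩
    · rw [one_div, inv_pow, ← div_eq_mul_inv] at a1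
      linarith

end Pool.Agent.Lib.MP_d6ddbd_nt.GO
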