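import Pool.Agent.Lib.MP_d6ddbd_nt.GO.Cs

/-!
The mean over the cubes with signs.
-/

set_option autoImplicit false

open Finset Function
open Pool.Agent.Lib.MP_d6ddbd_nt.GG (sg)
open scoped Classical

noncomputable section

namespace Pool.Agent.Lib.MP_d6ddbd_nt.GO

namespace Sgn

open Cs

variable {n K r : ℕ}

theorem nb {β : Type} {s : Finset β} {f : β → ℂ} {b : β → ℝ} (h : ∀ u ∈ s, ‖f u‖ ≤ b u) :
    ‖mn s f‖ ≤ (∑ u ∈ s, b u) / s.card := by
  rw [mn, norm_div, Complex.norm_natCast]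
  exact div_le_div_of_nonneg_right ((norm_sum_le _ _).trans (sum_le_sum h)) (Nat.cast_nonneg _)

theorem nc {β : Type} {s : Finset β} {f : β → ℂ} {c : ℝ} (hc : 0 ≤ c) (h : ∀ u ∈ s, ‖f u‖ ≤ c) :
    ‖mn s f‖ ≤ c := by
  refine (nb h).trans (div_le_of_le_mul₀ (Nat.cast_nonneg _) hc ?_)
  rw [sum_const, nsmul_eq_mul, mul_comm]

theorem ec_add (a b : ZMod (2 ^ K)) : ec (a + b) = ec a * ec b := AddChar.map_add_eq_mul _ a b

theorem ec_ne {a : ZMod (2 ^ K)} (h : a ≠ 0) : ec a ≠ 1 := fun e =>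
  h (ZMod.injective_stdAddChar (e.trans (AddChar.map_zero_eq_one _).symm))

theorem z2 (a : ZMod 2) : a = 0 ∨ a = 1 := by
  revert a
  decide

theorem ec_top (hK : 1 ≤ K) (a b : ZMod 2) :
    ec (2 ^ (K - 1) * ((a + b).val : ℕ) : ZMod (2 ^ K)) = (sg a : ℂ) * (sg b : ℝ) := by
  obtain ⟨k, rfl⟩ : ∃ k, K = k + 1 := ⟨K - 1, by omega⟩
  have h0 : ec (0 : ZMod (2 ^ (k + 1))) = 1 := AddChar.map_zero_eq_one _
  have h1 : ec (2 ^ k : ZMod (2 ^ (k + 1))) = -1 := by
    refine (mul_self_eq_one_iff.1 ?_).resolve_left (ec_ne fun e => ?_)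
    · rw [← ec_add, ← mul_two, ← pow_succ, ← h0]
      exact congrArg ec (by exact_mod_cast ZMod.natCast_self (2 ^ (k + 1)))
    · have : ((2 ^ k : ℕ) : ZMod (2 ^ (k + 1))) = 0 := by exact_mod_cast e
      rw [ZMod.natCast_eq_zero_iff, Nat.pow_dvd_pow_iff_le_right one_lt_two] at this
      omega
  have e : (1 + 1 : ZMod 2) = 0 := by decide
  have v : (1 : ZMod 2).val = 1 := rfl
  rcases z2 a with rfl | rfl <;> rcases z2 b with rfl | rfl <;> simp [sg, e, v, h0, h1]

theorem obs_iff {k : ℕ} {y x : Vec K r} {M M' : Mat K r} (h : 2 ^ (K - k) • (M - M') = 0) :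
    Obs k y M x ↔ Obs k y M' x := by
  have e : ∀ (N : Mat K r) l, 2 ^ (K - k) • (y l * N.mulVec x l + Matrix.vecMul y N l * x l) =
      y l * (2 ^ (K - k) • N).mulVec x l + Matrix.vecMul y (2 ^ (K - k) • N) l * x l := fun N l => by
    rw [Matrix.smul_mulVec, Matrix.vecMul_smul, Pi.smul_apply, Pi.smul_apply, smul_add,
      mul_smul_comm, smul_mul_assoc]
  rw [smul_sub, sub_eq_zero] at h
  simp only [Obs, e, h]

/-- The mean over the signs. -/
def gs (k : ℕ) (x y : Vec K r) (M₀ M₁ : Mat K r) : ℂ :=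
  mn univ fun γ => mn univ fun γ' =>
    ec (2 ^ (K - 1 - k) • (bf (sv γ y) M₀ (sv γ x) - bf (sv γ' y) M₁ (sv γ' x)))

theorem gs_le (k : ℕ) (x y : Vec K r) (M₀ M₁ : Mat K r) : ‖gs k x y M₀ M₁‖ ≤ 1 :=
  nc zero_le_one fun _ _ => nc zero_le_one fun _ _ => by simp [ec]

theorem gs_eq (h : SgaStmt) {k : ℕ} (x y : Vec K r) {M₀ M₁ : Mat K r} (h1 : 1 ≤ k)
    (h2 : k ≤ K - 1) (h3 : 2 ^ (K - k) • (M₀ - M₁) = 0) (h4 : 2 ^ (K - k + 1) • M₁ = 0) :
    gs k x y M₀ M₁ = if Obs k y M₁ x then ec (2 ^ (K - 1 - k) • bf y (M₀ - M₁) x) else 0 := by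
  simp only [gs, fun γ γ' => h K r k M₀ M₁ x y γ γ' h1 h2 h3 h4]
  split_ifs with ho
  · simp only [ho _, smul_zero, sum_const_zero, add_zero]
    rw [mn_const univ_nonempty, mn_const univ_nonempty]
  obtain ⟨l₀, hl⟩ := not_forall.1 ho
  obtain ⟨w, hw⟩ : ∃ w : Fin r → ZMod (2 ^ K), ∀ l, w l =
    2 ^ (K - k) • (y l * M₁.mulVec x l + Matrix.vecMul y M₁ l * x l) := ⟨_, fun _ => rfl⟩
  have w2 : w l₀ + w l₀ = 0 := by
    rw [hw, ← add_smul, ← mul_two, ← pow_succ, smul_add, ← mul_smul_comm, ← smul_mul_assoc,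
      ← Pi.smul_apply _ (M₁.mulVec x), ← Pi.smul_apply _ (Matrix.vecMul y M₁),
      ← Matrix.smul_mulVec, ← Matrix.vecMul_smul, h4]
    simp
  simp only [← hw] at hl ⊢
  refine (mn_congr fun γ _ => ?_).trans (mn_const univ_nonempty 0)
  rw [mn, div_eq_zero_iff]
  refine Or.inl ?_
  have e : ∀ γ' : Fin r → ZMod 2, ∑ l, (γ l + (γ' + Pi.single l₀ 1 : Fin r → ZMod 2) l).val • w l =
      ∑ l, (γ l + γ' l).val • w l + w l₀ := fun γ' => by
    rw [← add_sum_erase _ _ (mem_univ l₀), ← add_sum_erase _ _ (mem_univ l₀), add_right_comm]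
    congr 1
    · rw [Pi.add_apply, Pi.single_eq_same, ← add_assoc]
      have e : (1 + 1 : ZMod 2) = 0 := by decide
      have v : (1 : ZMod 2).val = 1 := rfl
      rcases z2 (γ l₀ + γ' l₀) with a | a <;> simp [a, e, v, w2]
    · exact sum_congr rfl fun l hl => by
        rw [Pi.add_apply, Pi.single_eq_of_ne (mem_erase.1 hl).1, add_zero]
  have e2 := Equiv.sum_comp (Equiv.addRight (Pi.single l₀ 1 : Fin r → ZMod 2))
    fun γ' : Fin r → ZMod 2 =>
    ec (2 ^ (K - 1 - k) • bf y (M₀ - M₁) x + ∑ l, (γ l + γ' l).val • w l)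
  simp only [Equiv.coe_addRight, e, ← add_assoc, ec_add _ (w l₀), ← sum_mul] at e2
  exact (mul_right_eq_self₀.1 e2).resolve_left (ec_ne hl)

/-- A tuple of primes with a sign vector. -/
def lf (i₀ : Fin n) (p : Fin n → ℕ) (γ : Fin r → ZMod 2) : Fin n → ℕ × (Fin r → ZMod 2) :=
  fun i => (p i, if i = i₀ then γ else 0)

theorem zz (P : Fin n → Finset ℕ) (i₀ : Fin n) (F : (Fin n → ℕ × (Fin r → ZMod 2)) → ℂ) :
    av (ZZ r P i₀) F = mn (Fintype.piFinset P) fun p => mn univ fun γ => F (lf i₀ p γ) := by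
  have b : ∀ z ∈ Fintype.piFinset (ZZ r P i₀), lf i₀ (fun i => (z i).1) (z i₀).2 = z := by
    intro z hz
    simp only [Fintype.mem_piFinset, ZZ, mem_product] at hz
    funext i
    refine Prod.ext rfl ?_
    have := (hz i).2
    by_cases hi : i = i₀
    · simp [hi, lf]
    · simp only [hi, if_false, mem_singleton, lf] at this ⊢
      exact this.symm
  have h : ∀ F : (Fin n → ℕ × (Fin r → ZMod 2)) → ℂ, ∑ z ∈ Fintype.piFinset (ZZ r P i₀), F z =
      ∑ p ∈ Fintype.piFinset P, ∑ γ, F (lf i₀ p γ) := fun F => by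
    rw [← sum_product']
    refine Finset.sum_nbij' (fun z => (fun i => (z i).1, (z i₀).2)) (fun q => lf i₀ q.1 q.2)
      ?_ ?_ ?_ ?_ ?_
    · intro z hz
      simp only [Fintype.mem_piFinset, ZZ, mem_product] at hz ⊢
      exact ⟨fun i => (hz i).1, mem_univ _⟩
    · intro q hq
      simp only [Fintype.mem_piFinset, ZZ, mem_product, lf] at hq ⊢
      refine fun i => ⟨hq.1 i, ?_⟩
      split_ifs <;> simp
    · exact b
    · intro q _
      simp [lf]
    · exact fun z hz => congrArg F (b z hz).symm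
  have h1 := h fun _ => 1
  simp only [sum_const, nsmul_eq_mul, mul_one] at h1
  simp only [av, mn, ← sum_div]
  rw [h, h1, div_div, mul_comm]

theorem cb_ph (A : (Fin n → ℕ) → Mat K r) {i₀ : Fin n} (k : ℕ) (x y : Vec K r)
    {J : Finset (Fin n)} (hi : i₀ ∉ J) (z z' : Fin n → ℕ × (Fin r → ZMod 2)) :
    cb J (Ph A i₀ k x y) z z' = 2 ^ (K - 1 - k) • bf (sv (z i₀).2 y)
      (cb J A (fun i => (z i).1) fun i => (z' i).1) (sv (z i₀).2 x) := by
  rw [cb, cb, bf, Matrix.sum_mulVec, dotProduct_sum, smul_sum]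
  refine sum_congr rfl fun T hT => ?_
  have a : mix T z z' i₀ = z i₀ := if_neg fun h => hi (mem_powerset.1 hT h)
  have b : (fun i => (mix T z z' i).1) = mix T (fun i => (z i).1) fun i => (z' i).1 := by
    funext i
    exact apply_ite Prod.fst _ _ _
  rw [Ph, a, b, Matrix.smul_mulVec, dotProduct_smul, smul_comm, bf]

theorem cb_lf (A : (Fin n → ℕ) → Mat K r) {i₀ : Fin n} (k : ℕ) (x y : Vec K r)
    {J : Finset (Fin n)} (hi : i₀ ∈ J) (p p' : Fin n → ℕ) (γ γ' : Fin r → ZMod 2) :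
    cb J (Ph A i₀ k x y) (lf i₀ p γ) (lf i₀ p' γ') =
      2 ^ (K - 1 - k) • (bf (sv γ y) (cb (J.erase i₀) A p p') (sv γ x) -
        bf (sv γ' y) (cb (J.erase i₀) A (update p i₀ (p' i₀)) p') (sv γ' x)) := by
  have e : update (lf i₀ p γ) i₀ (lf i₀ p' γ' i₀) = lf i₀ (update p i₀ (p' i₀)) γ' := by
    funext i
    by_cases h : i = i₀
    · simp [h, lf]
    · simp [h, lf]
  conv_lhs => rw [← insert_erase hi]
  rw [cb_insert (notMem_erase _ _), e, cb_ph A k x y (notMem_erase _ _),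
    cb_ph A k x y (notMem_erase _ _), smul_sub]
  simp [lf]

theorem row {s : Finset ℕ} {a : ℕ} (ha : a ∈ s) {u : ℕ → ℂ} {c : ℂ} {v : ℕ → ℝ} (h1 : ‖u a‖ ≤ 1)
    (h2 : ‖c‖ ≤ 1) (h3 : |v a| ≤ 1) (h : ∀ b ∈ s, a ≠ b → u b = c * v b) :
    ‖mn s u‖ ≤ (‖c‖ * |∑ b ∈ s, v b| + 2) / s.card := by
  have e : ∑ b ∈ s, u b = c * (∑ b ∈ s, v b : ℝ) + (u a - c * v a) := by
    rw [← add_sum_erase _ _ ha, ← add_sum_erase _ v ha,
      sum_congr rfl fun b hb => h b (mem_of_mem_erase hb) (mem_erase.1 hb).1.symm, ← mul_sum]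
    push_cast
    ring
  rw [mn, norm_div, Complex.norm_natCast, e]
  refine div_le_div_of_nonneg_right ((norm_add_le _ _).trans (add_le_add (le_of_eq ?_)
    ((norm_sub_le _ _).trans ?_))) (Nat.cast_nonneg _)
  · rw [norm_mul, Complex.norm_real, Real.norm_eq_abs]
  · rw [norm_mul, Complex.norm_real, Real.norm_eq_abs]
    nlinarith [norm_nonneg c, abs_nonneg (v a)]

theorem diag (P : Fin n → Finset ℕ) (i : Fin n) (c : ℕ) {δ : ℝ} (h : 1 ≤ δ * (P i).card) :
    ∑ p ∈ Fintype.piFinset P, (if c = p i then (1 : ℝ) else 0) ≤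
      δ * (Fintype.piFinset P).card := by
  have h1 := inv_sum P i fun p => ((if c = p i then (1 : ℝ) else 0 : ℝ) : ℂ)
  simp only [update_self, sum_const, nsmul_eq_mul, ← mul_sum] at h1
  have h2 : ((Fintype.piFinset P).card : ℝ) * ∑ u ∈ P i, (if c = u then (1 : ℝ) else 0) =
      (P i).card * ∑ p ∈ Fintype.piFinset P, (if c = p i then (1 : ℝ) else 0) := by
    exact_mod_cast h1
  have h3 : ∑ u ∈ P i, (if c = u then (1 : ℝ) else 0) ≤ 1 := by
    rw [sum_ite_eq]
    split_ifs <;> norm_num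
  have h4 : 0 ≤ ∑ p ∈ Fintype.piFinset P, (if c = p i then (1 : ℝ) else 0) :=
    sum_nonneg fun _ _ => by split_ifs <;> norm_num
  have h5 : (0 : ℝ) ≤ (P i).card := Nat.cast_nonneg _
  have h6 : 0 ≤ δ := by nlinarith
  have h7 := mul_le_of_le_one_right (Nat.cast_nonneg (α := ℝ) (Fintype.piFinset P).card) h3
  nlinarith [mul_le_mul_of_nonneg_left h7 h6, mul_le_mul_of_nonneg_right h h4]

theorem upd {P : Fin n → Finset ℕ} {p : Fin n → ℕ} (hp : p ∈ Fintype.piFinset P) {i : Fin n}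
    {a : ℕ} (ha : a ∈ P i) : update p i a ∈ Fintype.piFinset P := by
  rw [Fintype.mem_piFinset] at hp ⊢
  intro j
  by_cases h : j = i
  · rw [h, update_self]
    exact ha
  · rw [update_of_ne h]
    exact hp j

end Sgn

open Sgn Cs

theorem sgn_thm (h : SgaStmt) : SgnStmt := by
  intro n K r P B A x y J i₀ i₁ δ hF j0 j1 hne hk hδ hS
  have c0 : ∀ i, (0 : ℝ) < (P i).card := fun i =>
    (Nat.cast_nonneg _).lt_of_ne fun e => by have := hδ i; rw [← e] at this; linarith
  have hP : ∀ i, (P i).Nonempty := fun i => card_pos.1 (by exact_mod_cast c0 i)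
  have d0 : 0 < δ := by nlinarith [hδ i₀, c0 i₀]
  have k1 : 1 ≤ J.card := card_pos.2 ⟨_, j0⟩
  have n0 := notMem_erase i₀ J
  have ins : ∀ p p', cb (J.erase i₀) A p p' - cb (J.erase i₀) A (update p i₀ (p' i₀)) p' =
      cb J A p p' := fun p p' => by rw [← cb_insert n0, insert_erase j0]
  let g : (Fin n → ℕ) → (Fin n → ℕ) → ℂ := fun p p' =>
    gs J.card x y (cb (J.erase i₀) A p p') (cb (J.erase i₀) A (update p i₀ (p' i₀)) p')
  have g1 : ∀ p p', ‖g p p'‖ ≤ 1 := fun _ _ => gs_le _ _ _ _ _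
  have e1 : (av (ZZ r P i₀) fun z => av (ZZ r P i₀) fun z' =>
      ec (cb J (Ph A i₀ J.card x y) z z')) =
      mn (Fintype.piFinset P) fun p => mn (Fintype.piFinset P) fun p' =>
        mn (P i₁) fun l => mn (P i₀) fun a => mn (P i₀) fun b =>
          g (update p i₀ a) (update (update p' i₁ l) i₀ b) := by
    have a1 : (av (ZZ r P i₀) fun z => av (ZZ r P i₀) fun z' =>
        ec (cb J (Ph A i₀ J.card x y) z z')) =
        mn (Fintype.piFinset P) fun p => mn (Fintype.piFinset P) (g p) := by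
      simp only [zz, cb_lf A _ x y j0]
      exact mn_congr fun p _ => mn_comm _ _ _
    rw [a1, inv_mn P i₀ (hP i₀)]
    refine mn_congr fun p _ => ?_
    rw [mn_congr fun a _ => (inv_mn P i₀ (hP i₀) _).trans (inv_mn P i₁ (hP i₁) _), mn_comm]
    exact mn_congr fun p' _ => mn_comm _ _ _
  have e2 : ∀ p ∈ Fintype.piFinset P, ∀ p' ∈ Fintype.piFinset P,
      ‖mn (P i₁) fun l => mn (P i₀) fun a => mn (P i₀) fun b =>
        g (update p i₀ a) (update (update p' i₁ l) i₀ b)‖ ≤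
      4 * δ + ∑ i ∈ (J.erase i₀).erase i₁, if p i = p' i then (1 : ℝ) else 0 := by
    intro p hp p' hp'
    have s0 : ∀ i ∈ (J.erase i₀).erase i₁, 0 ≤ if p i = p' i then (1 : ℝ) else 0 :=
      fun _ _ => by split_ifs <;> norm_num
    by_cases hD : Dis ((J.erase i₀).erase i₁) p p'
    swap
    · obtain ⟨i, hi, e⟩ : ∃ i ∈ (J.erase i₀).erase i₁, p i = p' i := by
        simpa only [Dis, not_forall, not_not, exists_prop] using hD
      have := single_le_sum s0 hi
      rw [if_pos e] at this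
      refine (nc zero_le_one fun _ _ => nc zero_le_one fun _ _ => nc zero_le_one
        fun _ _ => g1 _ _).trans ?_
      linarith
    obtain ⟨f, f1, f2⟩ := hS p hp p' hp' hD
    refine le_trans ?_ (le_add_of_nonneg_right (sum_nonneg s0))
    let o : ℕ → Prop := fun l =>
      l ≠ p i₁ ∧ Obs J.card y (cb (J.erase i₀) A p (update p' i₁ l)) x
    have sg1 : ∀ v, |sg v| = 1 := fun v => by
      unfold sg
      split_ifs <;> simp
    refine (nb (b := fun l => (if p i₁ = l then 1 else 0) +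
      ((if o l then |∑ a ∈ P i₀, sg (f l a)| else 0) + 2) / (P i₀).card) fun l hl => ?_).trans ?_
    · have t0 : 0 ≤ ((if o l then |∑ a ∈ P i₀, sg (f l a)| else 0) + 2) / (P i₀).card := by
        positivity
      by_cases e : p i₁ = l
      · rw [if_pos e]
        exact (nc zero_le_one fun _ _ => nc zero_le_one fun _ _ => g1 _ _).trans
          (le_add_of_nonneg_right t0)
      rw [if_neg e, zero_add]
      have dis : ∀ a b, ∀ i ∈ J.erase i₀,
          update p i₀ a i ≠ update (update p' i₁ l) i₀ b i := fun a b i hi => by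
        rw [update_of_ne (mem_erase.1 hi).1, update_of_ne (mem_erase.1 hi).1]
        by_cases e1 : i = i₁
        · rwa [e1, update_self]
        · rw [update_of_ne e1]
          exact hD i (mem_erase.2 ⟨e1, hi⟩)
      have dv : ∀ a ∈ P i₀, ∀ b ∈ P i₀, a ≠ b → 2 ^ (K - J.card) •
          cb J A (update p i₀ a) (update (update p' i₁ l) i₀ b) = 0 := fun a ha b hb ab =>
        hF.dv J _ (upd hp ha) _ (upd (upd hp' hl) hb) fun i hi => by
          by_cases e0 : i = i₀
          · rwa [e0, update_self, update_self]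
          · exact dis a b i (mem_erase.2 ⟨e0, hi⟩)
      refine nc t0 fun a ha => (row ha (c := if o l then sg (f l a) else 0)
        (v := fun b => sg (f l b)) (g1 _ _) ?_ (sg1 _).le fun b hb ab => ?_).trans (le_of_eq ?_)
      · split_ifs <;> simp [sg1]
      · have ob : Obs J.card y (cb (J.erase i₀) A (update (update p i₀ a) i₀
            (update (update p' i₁ l) i₀ b i₀)) (update (update p' i₁ l) i₀ b)) x ↔ o l := by
          rw [update_idem, update_self, cb_update n0]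
          refine Iff.trans ?_ (and_iff_right (Ne.symm e)).symm
          by_cases e2 : p i₀ = b
          · rw [← e2, update_eq_self]
          · have := dv _ (Fintype.mem_piFinset.1 hp i₀) b hb e2
            rw [update_eq_self, ← ins, update_self, cb_update n0, cb_update n0] at this
            exact (obs_iff this).symm
        refine (gs_eq h x y k1 hk (by rw [ins]; exact dv a ha b hb ab) ?_).trans ?_
        · have := hF.dv (J.erase i₀) _ (upd hp hb) _ (upd (upd hp' hl) hb) (dis b b)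
          rw [card_erase_of_mem j0, show K - (J.card - 1) = K - J.card + 1 by omega] at this
          rwa [update_idem, update_self]
        · rw [ins]
          by_cases ho : o l
          · rw [if_pos (ob.2 ho), if_pos ho, f1 l hl ho.1 ho.2 a ha b hb ab,
              ec_top (by omega)]
          · rw [if_neg (mt ob.1 ho), if_neg ho, zero_mul]
      · split_ifs <;> simp [sg1]
    · rw [sum_add_distrib, ← sum_div, sum_add_distrib, ← sum_filter, ← sum_filter, sum_const,
        sum_const (b := (2 : ℝ)), nsmul_eq_mul, nsmul_eq_mul, div_le_iff₀ (c0 i₁)]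
      have a1 : (((P i₁).filter fun l => p i₁ = l).card : ℝ) ≤ 1 := by
        have : ((P i₁).filter fun l => p i₁ = l).card ≤ 1 := card_le_one.2 fun a ha b hb =>
          (mem_filter.1 ha).2.symm.trans (mem_filter.1 hb).2
        exact_mod_cast this
      have a2 : (∑ l ∈ (P i₁).filter o, |∑ a ∈ P i₀, sg (f l a)| + (P i₁).card * 2) /
          (P i₀).card ≤ 3 * δ * (P i₁).card := by
        rw [div_le_iff₀ (c0 i₀)]
        nlinarith [mul_le_mul_of_nonneg_right (hδ i₀) (c0 i₁).le]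
      linarith [hδ i₁]
  have cn : ((((J.erase i₀).erase i₁).card : ℕ) : ℝ) + 2 ≤ n := by
    have := card_le_univ J
    rw [Fintype.card_fin] at this
    have h2 : 1 < J.card := one_lt_card.2 ⟨_, j0, _, j1, hne⟩
    rw [card_erase_of_mem (mem_erase.2 ⟨hne.symm, j1⟩), card_erase_of_mem j0]
    exact_mod_cast (by omega : J.card - 1 - 1 + 2 ≤ n)
  rw [e1]
  refine nc (by positivity) fun p hp => (nb (e2 p hp)).trans
    (div_le_of_le_mul₀ (Nat.cast_nonneg _) (by positivity) ?_)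
  rw [sum_add_distrib, sum_comm, sum_const, nsmul_eq_mul]
  have := sum_le_card_nsmul _ _ _ fun i (_ : i ∈ (J.erase i₀).erase i₁) => diag P i (p i) (hδ i)
  rw [nsmul_eq_mul] at this
  nlinarith [mul_nonneg d0.le (Nat.cast_nonneg (α := ℝ) (Fintype.piFinset P).card)]

end Pool.Agent.Lib.MP_d6ddbd_nt.GO
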