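import Pool.Agent.Lib.MP_d6ddbd_nt.GO.Stmt

/-!
Density one for the twists of `X₀(11)`: from the boxes to the integers.
-/

set_option autoImplicit false

open Finset
open scoped Classical

noncomputable section

namespace Pool.Agent.Lib.MP_d6ddbd_nt.GO

namespace SumP

variable {n : ℕ} {I : Fin n → Finset ℕ}

/-- Tuples of primes of the lists that divide `m`. -/
def TT (I : Fin n → Finset ℕ) (m : ℤ) : Finset (Fin n → ℕ) :=
  Fintype.piFinset fun i => (I i).filter fun p => (p : ℤ) ∣ m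

/-- The weight of a cofactor. -/
def wt (I : Fin n → Finset ℕ) (d : ℤ) : ℝ :=
  1 / ∏ i, ((((I i).filter fun p : ℕ => (p : ℤ) ∣ d).card : ℝ) + 1)

/-- Valid pairs. -/
def Vd (I : Fin n → Finset ℕ) (x : ℤ × (Fin n → ℕ)) : Prop :=
  ∀ i, x.2 i ∈ I i ∧ ¬ (x.2 i : ℤ) ∣ x.1

theorem pst_abs (l : ℕ) : |GF.pst l| = l := by
  unfold GF.pst
  rw [abs_mul, abs_pow, abs_neg, abs_one, one_pow, one_mul, Nat.abs_cast]

theorem dd_abs (d : ℤ) (p : Fin n → ℕ) : |dd d p| = |d| * ∏ i, (p i : ℤ) := by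
  unfold dd
  rw [abs_mul, Finset.abs_prod]
  simp only [pst_abs]

theorem dd_abs' (d : ℤ) (p : Fin n → ℕ) : |(dd d p : ℝ)| = |(d : ℝ)| * ∏ i, (p i : ℝ) := by
  have := congrArg (Int.cast : ℤ → ℝ) (dd_abs d p)
  push_cast at this
  exact this

theorem wt_pos (d : ℤ) : 0 < wt I d := by
  unfold wt
  exact one_div_pos.2 (prod_pos fun i _ => by positivity)

theorem wt_le (d : ℤ) : wt I d ≤ 1 := by
  unfold wt
  rw [div_le_one (prod_pos fun i _ => by positivity)]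
  exact one_le_prod fun i _ => by
    have : (0 : ℝ) ≤ (((I i).filter fun p : ℕ => (p : ℤ) ∣ d).card : ℝ) := Nat.cast_nonneg _
    linarith

theorem dvd_dd (d : ℤ) (p : Fin n → ℕ) (i : Fin n) : (p i : ℤ) ∣ dd d p := by
  rw [← dvd_abs, dd_abs]
  exact Dvd.dvd.mul_left (dvd_prod_of_mem (fun i => (p i : ℤ)) (mem_univ i)) _

theorem wt_eq (hp : ∀ i, ∀ p ∈ I i, p.Prime ∧ p ≠ 2) (hd : ∀ i j, i ≠ j → Disjoint (I i) (I j))
    {x : ℤ × (Fin n → ℕ)} (hx : Vd I x) : wt I x.1 = 1 / (TT I (dd x.1 x.2)).card := by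
  unfold wt TT
  rw [Fintype.card_piFinset]
  push_cast
  congr 1
  refine prod_congr rfl fun i _ => ?_
  have : ((I i).filter fun p : ℕ => (p : ℤ) ∣ dd x.1 x.2) =
      insert (x.2 i) ((I i).filter fun p : ℕ => (p : ℤ) ∣ x.1) := by
    ext q
    simp only [mem_filter, mem_insert]
    constructor
    · rintro ⟨hq, h⟩
      have hq' : Prime (q : ℤ) := Nat.prime_iff_prime_int.1 (hp i q hq).1
      rw [← dvd_abs, dd_abs] at h
      rcases hq'.dvd_or_dvd h with h | h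
      · exact Or.inr ⟨hq, (dvd_abs _ _).1 h⟩
      · obtain ⟨j, -, hj⟩ := (hq'.dvd_finsetProd_iff _).1 h
        have e : q = x.2 j := (Nat.prime_dvd_prime_iff_eq (hp i q hq).1 (hp j _ (hx j).1).1).1
          (by exact_mod_cast hj)
        by_cases hij : i = j
        · exact Or.inl (hij ▸ e)
        · exact absurd (hx j).1 (e ▸ disjoint_left.1 (hd i j hij) hq)
    · rintro (rfl | ⟨hq, h⟩)
      · exact ⟨(hx i).1, dvd_dd _ _ i⟩
      · exact ⟨hq, h.mul_right _⟩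
  have hn : x.2 i ∉ (I i).filter fun p : ℕ => (p : ℤ) ∣ x.1 := fun h =>
    (hx i).2 (mem_filter.1 h).2
  rw [this, card_insert_of_notMem hn]
  push_cast
  rfl

theorem prod_ne (hp : ∀ i, ∀ p ∈ I i, p.Prime ∧ p ≠ 2) {p : Fin n → ℕ} (h : ∀ i, p i ∈ I i) :
    ∏ i, GF.pst (p i) ≠ 0 := by
  refine prod_ne_zero_iff.2 fun i _ h0 => ?_
  have := pst_abs (p i)
  rw [h0, abs_zero] at this
  exact (hp i _ (h i)).1.ne_zero (by exact_mod_cast this.symm)

theorem up (hp : ∀ i, ∀ p ∈ I i, p.Prime ∧ p ≠ 2) (hd : ∀ i j, i ≠ j → Disjoint (I i) (I j))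
    (V : Finset (ℤ × (Fin n → ℕ))) (M : Finset ℤ) (hV : ∀ x ∈ V, Vd I x ∧ dd x.1 x.2 ∈ M) :
    ∑ x ∈ V, wt I x.1 ≤ M.card := by
  rw [← sum_fiberwise_of_maps_to (g := fun x => dd x.1 x.2) fun x hx => (hV x hx).2]
  refine (sum_le_card_nsmul _ _ 1 fun m _ => ?_).trans_eq (by simp)
  have h1 : ∀ x ∈ V.filter fun x => dd x.1 x.2 = m, wt I x.1 = 1 / (TT I m).card := by
    intro x hx
    rw [wt_eq hp hd (hV x (mem_filter.1 hx).1).1, (mem_filter.1 hx).2]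
  rw [sum_congr rfl h1, sum_const, nsmul_eq_mul, mul_one_div]
  refine div_le_one_of_le₀ (Nat.cast_le.2 ?_) (Nat.cast_nonneg _)
  refine card_le_card_of_injOn Prod.snd (fun x hx => ?_) fun x hx y hy e => ?_
  · have hx' := mem_filter.1 (mem_coe.1 hx)
    refine mem_coe.2 (Fintype.mem_piFinset.2 fun i => mem_filter.2 ⟨((hV x hx'.1).1 i).1, ?_⟩)
    exact hx'.2 ▸ dvd_dd _ _ i
  · have hx' := mem_filter.1 (mem_coe.1 hx)
    have hy' := mem_filter.1 (mem_coe.1 hy)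
    refine Prod.ext ?_ e
    have h2 := hx'.2.trans hy'.2.symm
    unfold dd at h2
    rw [e] at h2
    exact mul_right_cancel₀ (prod_ne hp fun i => ((hV y hy'.1).1 i).1) h2

theorem cof (hp : ∀ i, ∀ p ∈ I i, p.Prime ∧ p ≠ 2) (hd : ∀ i j, i ≠ j → Disjoint (I i) (I j))
    {m : ℤ} (hm : Squarefree m) {p : Fin n → ℕ} (h : p ∈ TT I m) :
    ∃ d, Vd I (d, p) ∧ dd d p = m := by
  have h1 : ∀ i, p i ∈ I i ∧ (p i : ℤ) ∣ m := fun i => mem_filter.1 (Fintype.mem_piFinset.1 h i)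
  have h2 : ∏ i, (p i : ℤ) ∣ m := by
    refine Finset.prod_dvd_of_coprime (fun i _ j _ hij => ?_) fun i _ => (h1 i).2
    refine Nat.isCoprime_iff_coprime.2 ((Nat.coprime_primes (hp i _ (h1 i).1).1
      (hp j _ (h1 j).1).1).2 fun e => ?_)
    exact disjoint_left.1 (hd i j hij) (h1 i).1 (e ▸ (h1 j).1)
  have h3 : ∏ i, GF.pst (p i) ∣ m := by
    rw [← abs_dvd, Finset.abs_prod]
    simpa only [pst_abs] using h2
  obtain ⟨d, hd'⟩ := h3
  have h4 : dd d p = m := by rw [hd', dd, mul_comm]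
  refine ⟨d, fun i => ⟨(h1 i).1, fun h5 => ?_⟩, h4⟩
  have h6 : (p i : ℤ) * p i ∣ m := by
    rw [← h4, ← dvd_abs, dd_abs]
    exact mul_dvd_mul ((dvd_abs _ _).2 h5) (dvd_prod_of_mem (fun i => (p i : ℤ)) (mem_univ i))
  exact (Nat.prime_iff_prime_int.1 (hp i _ (h1 i).1).1).not_isUnit (hm _ h6)

theorem low (hp : ∀ i, ∀ p ∈ I i, p.Prime ∧ p ≠ 2) (hd : ∀ i j, i ≠ j → Disjoint (I i) (I j))
    (V : Finset (ℤ × (Fin n → ℕ))) (M : Finset ℤ)
    (hM : ∀ m ∈ M, Squarefree m ∧ ∀ i, ∃ p ∈ I i, (p : ℤ) ∣ m)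
    (hV : ∀ x, Vd I x → dd x.1 x.2 ∈ M → x ∈ V) (hV' : ∀ x ∈ V, Vd I x ∧ dd x.1 x.2 ∈ M) :
    (M.card : ℝ) ≤ ∑ x ∈ V, wt I x.1 := by
  rw [← sum_fiberwise_of_maps_to (g := fun x => dd x.1 x.2) fun x hx => (hV' x hx).2]
  refine le_trans (by simp) (card_nsmul_le_sum _ _ 1 fun m hm => ?_)
  have h1 : ∀ x ∈ V.filter fun x => dd x.1 x.2 = m, wt I x.1 = 1 / (TT I m).card := by
    intro x hx
    rw [wt_eq hp hd (hV' x (mem_filter.1 hx).1).1, (mem_filter.1 hx).2]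
  have h2 : 0 < (TT I m).card := by
    refine card_pos.2 (Fintype.piFinset_nonempty.2 fun i => ?_)
    obtain ⟨p, h3, h4⟩ := (hM m hm).2 i
    exact ⟨p, mem_filter.2 ⟨h3, h4⟩⟩
  rw [sum_congr rfl h1, sum_const, nsmul_eq_mul, mul_one_div,
    one_le_div (by exact_mod_cast h2), Nat.cast_le]
  refine card_le_card_of_surjOn Prod.snd fun p hp' => ?_
  obtain ⟨d, h3, h4⟩ := cof hp hd (hM m hm).1 (mem_coe.1 hp')
  exact ⟨(d, p), mem_coe.2 (mem_filter.2 ⟨hV _ h3 (h4 ▸ hm), h4⟩), rfl⟩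

theorem split (R : Finset ℤ) (Φ : ℤ → (Fin n → ℕ) → Prop) :
    ∑ x ∈ (R ×ˢ Fintype.piFinset I).filter (fun x => Vd I x ∧ Φ x.1 x.2), wt I x.1 =
      ∑ d ∈ R, ∑ b ∈ Fintype.piFinset fun i => (I i).image (bx n),
        wt I d * ((Fintype.piFinset (cells I d b)).filter (Φ d)).card := by
  rw [sum_filter, sum_product]
  refine sum_congr rfl fun d _ => ?_
  rw [← mul_sum, ← sum_filter]
  simp only
  rw [sum_const, nsmul_eq_mul, mul_comm]
  congr 1
  rw [card_eq_sum_card_fiberwise (f := fun p i => bx n (p i))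
    (t := Fintype.piFinset fun i => (I i).image (bx n))]
  · push_cast
    refine sum_congr rfl fun b _ => ?_
    congr 2
    ext p
    simp only [mem_filter, Fintype.mem_piFinset, cells, Vd, funext_iff]
    constructor
    · rintro ⟨⟨h1, h2, h3⟩, h4⟩
      exact ⟨fun i => ⟨h1 i, h4 i, (h2 i).2⟩, h3⟩
    · rintro ⟨h1, h2⟩
      exact ⟨⟨fun i => (h1 i).1, fun i => ⟨(h1 i).1, (h1 i).2.2⟩, h2⟩, fun i => (h1 i).2.1⟩
  · intro p hp
    have := Fintype.mem_piFinset.1 (mem_filter.1 (mem_coe.1 hp)).1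
    exact mem_coe.2 (Fintype.mem_piFinset.2 fun i => mem_image_of_mem _ (this i))

theorem box (hn : 1 ≤ n) {p : ℕ} (hp : p.Prime) :
    lo n (bx n p) ≤ p ∧ (p : ℝ) ≤ lo n (bx n p) * Real.exp (1 / n) := by
  have n0 : (0 : ℝ) < n := by exact_mod_cast hn
  have p0 : (0 : ℝ) < p := by exact_mod_cast hp.pos
  have l0 : 0 ≤ (n : ℝ) * Real.log p := mul_nonneg n0.le (Real.log_natCast_nonneg p)
  have h1 := Nat.ceil_lt_add_one l0
  have h2 := Nat.le_ceil ((n : ℝ) * Real.log p)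
  unfold lo bx
  constructor
  · rw [← Real.le_log_iff_exp_le p0, div_le_iff₀ n0]
    linarith
  · rw [← Real.exp_add, ← Real.log_le_iff_le_exp p0, ← add_div, le_div_iff₀ n0]
    linarith

theorem card_ne (Y : ℝ) (hY : 0 ≤ Y) : (((Icc (-⌊Y⌋) ⌊Y⌋).erase 0).card : ℝ) ≤ 2 * Y := by
  have h1 : 0 ≤ ⌊Y⌋ := Int.floor_nonneg.2 hY
  have h2 : (((Icc (-⌊Y⌋) ⌊Y⌋).erase 0).card : ℤ) = 2 * ⌊Y⌋ := by
    rw [card_erase_of_mem (mem_Icc.2 ⟨by omega, h1⟩), Int.card_Icc]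
    omega
  have h3 := congrArg (Int.cast : ℤ → ℝ) h2
  push_cast at h3
  rw [h3]
  linarith [Int.floor_le Y]

theorem mem_R {Y : ℝ} {m : ℤ} : m ∈ Icc (-⌊Y⌋) ⌊Y⌋ ↔ |(m : ℝ)| ≤ Y := by
  rw [mem_Icc, ← abs_le, Int.le_floor, Int.cast_abs]

end SumP

open SumP in
theorem sum_thm : SumStmt := by
  intro n I B X α β N hn hX hα hβ hp hd hN hB hG
  let G : ℤ → (Fin n → ℕ) → Prop := fun d b =>
    ∃ p ∈ Fintype.piFinset (cells I d b), B (dd d p) ∧ |(dd d p : ℝ)| ≤ X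
  have lo0 : ∀ b : Fin n → ℕ, 0 < ∏ i, lo n (b i) := fun b =>
    prod_pos fun i _ => Real.exp_pos _
  have hc : ∀ d b p, p ∈ Fintype.piFinset (cells I d b) →
      ∀ i, p i ∈ I i ∧ bx n (p i) = b i ∧ ¬ (p i : ℤ) ∣ d := fun d b p h i =>
    mem_filter.1 (Fintype.mem_piFinset.1 h i)
  have hG1 : ∀ d b, G d b → d ≠ 0 ∧ |(d : ℝ)| * ∏ i, lo n (b i) ≤ X := by
    rintro d b ⟨p, h1, -, h2⟩
    refine ⟨fun e => (hc d b p h1 ⟨0, hn⟩).2.2 (e ▸ dvd_zero _), le_trans ?_ h2⟩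
    rw [dd_abs']
    refine mul_le_mul_of_nonneg_left (prod_le_prod (fun i _ => (Real.exp_pos _).le)
      fun i _ => ?_) (abs_nonneg _)
    rw [← (hc d b p h1 i).2.1]
    exact (box hn (hp i _ (hc d b p h1 i).1).1).1
  have s1 := low hp hd ((Icc (-⌊X⌋) ⌊X⌋ ×ˢ Fintype.piFinset I).filter fun x =>
    Vd I x ∧ (B (dd x.1 x.2) ∧ |(dd x.1 x.2 : ℝ)| ≤ X)) ((Icc (-⌊X⌋) ⌊X⌋).filter B)
    (fun m hm => hB m (mem_filter.1 hm).2) (fun x h1 h2 => by
      have h3 := mem_R.1 (mem_filter.1 h2).1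
      refine mem_filter.2 ⟨mem_product.2 ⟨mem_R.2 (le_trans ?_ h3),
        Fintype.mem_piFinset.2 fun i => (h1 i).1⟩, h1, (mem_filter.1 h2).2, h3⟩
      rw [dd_abs']
      refine le_mul_of_one_le_right (abs_nonneg _) (one_le_prod fun i _ => ?_)
      exact_mod_cast (hp i _ (h1 i).1).1.one_le)
    (fun x hx => ⟨(mem_filter.1 hx).2.1,
      mem_filter.2 ⟨mem_R.2 (mem_filter.1 hx).2.2.2, (mem_filter.1 hx).2.2.1⟩⟩)
  have s2 := up hp hd ((Icc (-⌊X⌋) ⌊X⌋ ×ˢ Fintype.piFinset I).filter fun x =>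
    Vd I x ∧ G x.1 fun i => bx n (x.2 i)) ((Icc (-⌊3 * X⌋) ⌊3 * X⌋).erase 0) (fun x hx => by
      obtain ⟨-, h1, h2⟩ := mem_filter.1 hx
      obtain ⟨h3, h4⟩ := hG1 _ _ h2
      refine ⟨h1, mem_erase.2 ⟨mul_ne_zero h3 (prod_ne hp fun i => (h1 i).1), mem_R.2 ?_⟩⟩
      have h5 : ∏ i, (x.2 i : ℝ) ≤ ∏ i, (lo n (bx n (x.2 i)) * Real.exp (1 / n)) :=
        prod_le_prod (fun i _ => Nat.cast_nonneg _) fun i _ => (box hn (hp i _ (h1 i).1).1).2
      have n0 : (n : ℝ) ≠ 0 := by exact_mod_cast (by omega : n ≠ 0)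
      rw [prod_mul_distrib, prod_const, card_univ, Fintype.card_fin, ← Real.exp_nat_mul,
        mul_one_div_cancel n0] at h5
      have h6 : Real.exp 1 ≤ 3 := Real.exp_one_lt_d9.le.trans (by norm_num)
      rw [dd_abs']
      calc |(x.1 : ℝ)| * ∏ i, (x.2 i : ℝ)
          ≤ |(x.1 : ℝ)| * ((∏ i, lo n (bx n (x.2 i))) * 3) := by
            refine mul_le_mul_of_nonneg_left (h5.trans ?_) (abs_nonneg _)
            exact mul_le_mul_of_nonneg_left h6 (lo0 fun i => bx n (x.2 i)).le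
        _ ≤ 3 * X := by linarith)
  have e1 := split (I := I) (Icc (-⌊X⌋) ⌊X⌋) fun d p => B (dd d p) ∧ |(dd d p : ℝ)| ≤ X
  have e2 := split (I := I) (Icc (-⌊X⌋) ⌊X⌋) fun d p => G d fun i => bx n (p i)
  have s3 := card_ne (3 * X) (by linarith)
  have s4 : ∀ b : Fin n → ℕ, ∑ d ∈ Icc (-⌊X⌋) ⌊X⌋,
      (if G d b then β * ∏ i, lo n (b i) else 0) ≤ β * (2 * X) := by
    intro b
    have h0 := lo0 b
    rw [← sum_filter, sum_const, nsmul_eq_mul]
    have h1 : (((Icc (-⌊X⌋) ⌊X⌋).filter fun d => G d b).card : ℝ) ≤ 2 * (X / ∏ i, lo n (b i)) := by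
      refine le_trans (Nat.cast_le.2 (card_le_card fun d hd' => ?_))
        (card_ne _ (div_nonneg hX h0.le))
      obtain ⟨h2, h3⟩ := hG1 _ _ (mem_filter.1 hd').2
      exact mem_erase.2 ⟨h2, mem_R.2 ((le_div_iff₀ h0).2 h3)⟩
    refine (mul_le_mul_of_nonneg_right h1 (by positivity)).trans_eq ?_
    field_simp
  have s5 : ((Fintype.piFinset fun i => (I i).image (bx n)).card : ℝ) ≤ N ^ n := by
    rw [Fintype.card_piFinset]
    have := prod_le_pow_card univ (fun i => ((I i).image (bx n)).card) N fun i _ => hN i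
    rw [card_univ, Fintype.card_fin] at this
    exact_mod_cast this
  have key : ∀ d b, wt I d * (((Fintype.piFinset (cells I d b)).filter fun p =>
      B (dd d p) ∧ |(dd d p : ℝ)| ≤ X).card : ℝ) ≤
      α * (wt I d * ((Fintype.piFinset (cells I d b)).filter fun p =>
        G d fun i => bx n (p i)).card) + if G d b then β * ∏ i, lo n (b i) else 0 := by
    intro d b
    have w0 := wt_pos (I := I) d
    have w1 := wt_le (I := I) d
    by_cases h : G d b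
    · have h1 := hG d b h
      unfold Bnd at h1
      have h2 : ((Fintype.piFinset (cells I d b)).filter fun p => G d fun i => bx n (p i)) =
          Fintype.piFinset (cells I d b) := by
        refine filter_true_of_mem fun p hp' => ?_
        rwa [show (fun i => bx n (p i)) = b from funext fun i => (hc d b p hp' i).2.1]
      have h3 : (((Fintype.piFinset (cells I d b)).filter fun p =>
          B (dd d p) ∧ |(dd d p : ℝ)| ≤ X).card : ℝ) ≤
          α * (Fintype.piFinset (cells I d b)).card + β * ∏ i, lo n (b i) := by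
        refine le_trans (Nat.cast_le.2 (card_le_card fun p hp' => ?_)) h1
        simp only [mem_filter] at hp' ⊢
        exact ⟨hp'.1, hp'.2.1⟩
      have h4 : 0 ≤ β * ∏ i, lo n (b i) := mul_nonneg hβ (lo0 b).le
      rw [h2, if_pos h]
      nlinarith [mul_le_mul_of_nonneg_left h3 w0.le, mul_le_mul_of_nonneg_right w1 h4]
    · rw [if_neg h, filter_false_of_mem fun p hp' h1 => h ⟨p, hp', h1⟩]
      simp only [card_empty, Nat.cast_zero, mul_zero, add_zero]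
      positivity
  have s6 := sum_le_sum (s := Icc (-⌊X⌋) ⌊X⌋) fun d _ =>
    sum_le_sum (s := Fintype.piFinset fun i => (I i).image (bx n)) fun b _ => key d b
  simp only [sum_add_distrib, ← mul_sum (a := α)] at s6
  have s7 : ∑ d ∈ Icc (-⌊X⌋) ⌊X⌋, ∑ b ∈ Fintype.piFinset fun i => (I i).image (bx n),
      (if G d b then β * ∏ i, lo n (b i) else 0) ≤ N ^ n * (β * (2 * X)) := by
    rw [sum_comm]
    refine (sum_le_card_nsmul _ _ _ fun b _ => s4 b).trans ?_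
    rw [nsmul_eq_mul]
    exact mul_le_mul_of_nonneg_right s5 (by positivity)
  have s8 : cnt X B ≤ ∑ d ∈ Icc (-⌊X⌋) ⌊X⌋, ∑ b ∈ Fintype.piFinset fun i => (I i).image (bx n),
      wt I d * (((Fintype.piFinset (cells I d b)).filter fun p =>
        B (dd d p) ∧ |(dd d p : ℝ)| ≤ X).card : ℝ) := by
    have e3 : ∑ x ∈ (Icc (-⌊X⌋) ⌊X⌋ ×ˢ Fintype.piFinset I).filter (fun x =>
        Vd I x ∧ (B (dd x.1 x.2) ∧ |(dd x.1 x.2 : ℝ)| ≤ X)), wt I x.1 =
        ∑ d ∈ Icc (-⌊X⌋) ⌊X⌋, ∑ b ∈ Fintype.piFinset fun i => (I i).image (bx n),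
          wt I d * (((Fintype.piFinset (cells I d b)).filter fun p =>
            B (dd d p) ∧ |(dd d p : ℝ)| ≤ X).card : ℝ) := by
      convert e1
    exact s1.trans_eq e3
  have s9 : ∑ d ∈ Icc (-⌊X⌋) ⌊X⌋, ∑ b ∈ Fintype.piFinset fun i => (I i).image (bx n),
      wt I d * (((Fintype.piFinset (cells I d b)).filter fun p =>
        G d fun i => bx n (p i)).card : ℝ) ≤ 2 * (3 * X) := by
    refine le_trans ?_ (s2.trans s3)
    refine le_of_eq ?_
    convert e2.symm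
  have s10 := mul_le_mul_of_nonneg_left s9 hα
  have s11 : 0 ≤ (N : ℝ) ^ n * (β * X) := by positivity
  nlinarith

end Pool.Agent.Lib.MP_d6ddbd_nt.GO
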