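import Pool.Agent.Lib.MP_d6ddbd_nt.GO.Asm
import Pool.Agent.Lib.MP_d6ddbd_nt.GO.Sgn
import Pool.Agent.Lib.MP_d6ddbd_nt.GO.Sum

/-!
Density one for the twists of `X₀(11)`: the counting half.
-/

set_option autoImplicit false

namespace Pool.Agent.Lib.MP_d6ddbd_nt.GO

theorem one_of (hA : GA.I2Stmt) : OneStmt := one_asm sgn_thm sum_thm hA

end Pool.Agent.Lib.MP_d6ddbd_nt.GO
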