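import Pool.Agent.Lib.MP_d6ddbd_nt.GO.Stmt

/-!
Density one for the twists of `X₀(11)`: the choice of the parameters.
-/

set_option autoImplicit false

open Finset Filter Topology
open scoped Classical

noncomputable section

namespace Pool.Agent.Lib.MP_d6ddbd_nt.GO.Par

theorem red {N : ℕ} (hN : N ≠ 0) {P : ℝ → Prop} (h : ∀ᶠ t : ℕ in atTop, ∀ X : ℝ,
    Real.exp (t ^ N) ≤ X → X ≤ Real.exp ((t + 1) ^ N) → P X) : ∀ᶠ X : ℝ in atTop, P X := by
  obtain ⟨t₀, h⟩ := eventually_atTop.1 h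
  filter_upwards [eventually_ge_atTop (Real.exp (t₀ ^ N))] with X hX
  have h0 : 0 < X := (Real.exp_pos _).trans_le hX
  have h1 : (t₀ : ℝ) ^ N ≤ Real.log X := (Real.le_log_iff_exp_le h0).2 hX
  have ex : ∃ s : ℕ, Real.log X < ((s : ℝ) + 1) ^ N := by
    obtain ⟨s, hs⟩ := exists_nat_gt (Real.log X)
    exact ⟨s, (hs.trans (lt_add_one _)).trans_le (le_self_pow₀ (by simp) hN)⟩
  have h2 := Nat.find_spec ex
  have h3 : t₀ ≤ Nat.find ex := by
    have := lt_of_pow_lt_pow_left₀ N (by positivity) (h1.trans_lt h2)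
    exact Nat.lt_succ_iff.1 (by exact_mod_cast this)
  refine h _ h3 X ((Real.le_log_iff_exp_le h0).1 ?_) ((Real.log_le_iff_le_exp h0).1 h2.le)
  rcases Nat.eq_zero_or_pos (Nat.find ex) with e | e
  · rw [e, Nat.cast_zero, zero_pow hN]
    exact le_trans (by positivity) h1
  · have := not_lt.1 (Nat.find_min ex (Nat.sub_lt e one_pos))
    rwa [Nat.cast_pred e, sub_add_cancel] at this

theorem ge (A : ℝ) : ∀ᶠ t : ℕ in atTop, A ≤ t := tendsto_natCast_atTop_atTop.eventually_ge_atTop A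

theorem le_exp (x : ℝ) : x ≤ Real.exp x := by linarith [Real.add_one_le_exp x]

theorem small {η : ℝ} (h : 0 < η) : ∀ᶠ t : ℕ in atTop, Real.exp (-t) ≤ η := by
  filter_upwards [ge (-Real.log η)] with t ht
  rw [← Real.le_log_iff_exp_le h]
  linarith

theorem pow_le_exp (t m : ℕ) : (t : ℝ) ^ m ≤ Real.exp (m * t) := by
  rw [Real.exp_nat_mul]
  exact pow_le_pow_left₀ (by positivity) (le_exp _) m

theorem two_pow_le (m : ℕ) : (2 : ℝ) ^ m ≤ Real.exp m := by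
  rw [← mul_one (m : ℝ), Real.exp_nat_mul]
  exact pow_le_pow_left₀ (by positivity) (by linarith [Real.add_one_le_exp 1]) m

theorem pb (N : ℕ) {η : ℝ} (h : 0 < η) :
    ∀ᶠ t : ℕ in atTop, 2 * (1 + ((t : ℝ) + 1) ^ N) / 2 ^ t ≤ η := by
  have h1 := (tendsto_pow_const_div_const_pow_of_one_lt N (one_lt_two (α := ℝ))).const_mul
    (4 * 2 ^ N)
  rw [mul_zero] at h1
  filter_upwards [h1.eventually_le_const h, ge 1] with t ht t1
  refine le_trans ?_ ht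
  rw [← mul_div_assoc]
  refine div_le_div_of_nonneg_right ?_ (by positivity)
  have a1 : ((t : ℝ) + 1) ^ N ≤ (2 * t) ^ N := pow_le_pow_left₀ (by positivity) (by linarith) N
  have a2 : (1 : ℝ) ≤ (2 * t) ^ N := one_le_pow₀ (by linarith)
  rw [mul_pow] at a1 a2
  linarith

theorem pe (n : ℕ) {η : ℝ} (h : 0 < η) : ∀ᶠ t : ℕ in atTop,
    Real.exp (-t ^ 2) ≤ (η / 4 ^ ((n + 1) * (3 * t))) ^ 2 ^ n / (n + 2) := by
  filter_upwards [small (η := η ^ 2 ^ n / (n + 2)) (by positivity),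
    ge (1 + 6 * (n + 1) * 2 ^ n)] with t h1 h2
  have a1 : ((4 : ℝ) ^ ((n + 1) * (3 * t))) ^ 2 ^ n ≤ Real.exp (6 * (n + 1) * 2 ^ n * t) := by
    rw [show (4 : ℝ) = 2 ^ 2 by norm_num, ← pow_mul, ← pow_mul]
    refine (two_pow_le _).trans (le_of_eq ?_)
    push_cast
    ring_nf
  have t0 : (0 : ℝ) ≤ t := by positivity
  rw [div_pow, div_right_comm, le_div_iff₀ (by positivity)]
  refine (mul_le_mul_of_nonneg_left a1 (by positivity)).trans (le_trans ?_ h1)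
  rw [← Real.exp_add, Real.exp_le_exp]
  nlinarith [mul_le_mul_of_nonneg_right h2 t0]

theorem pf (n : ℕ) {C c : ℝ} (hc : 0 < c) : ∀ᶠ t : ℕ in atTop,
    C * ((t : ℝ) ^ (2 * n + 202)) ^ 3 *
      Real.exp (-(c * ((t : ℝ) ^ (n + 199) - 1) ^ 2 / t ^ (2 * n + 202))) ≤
      Real.exp (-t ^ 2) * Real.exp (-t ^ 3) ^ 2 := by
  filter_upwards [ge C, ge (6 * n + 607), ge (16 / c)] with t h1 h2 h3
  have n0 : (0 : ℝ) ≤ n := by positivity
  have t2 : (2 : ℝ) ≤ t := by linarith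
  have a1 : (2 : ℝ) ≤ t ^ (n + 199) := t2.trans (le_self_pow₀ (by linarith) (by omega))
  have a2 : (t : ℝ) ^ (2 * n + 202) * t ^ 196 / 4 ≤ ((t : ℝ) ^ (n + 199) - 1) ^ 2 := by
    rw [← pow_add, show 2 * n + 202 + 196 = (n + 199) * 2 by ring, pow_mul]
    nlinarith
  have a3 : c * (t : ℝ) ^ 196 / 4 ≤ c * ((t : ℝ) ^ (n + 199) - 1) ^ 2 / t ^ (2 * n + 202) := by
    rw [le_div_iff₀ (by positivity)]
    nlinarith
  have a4 : (t : ℝ) ^ 4 ≤ t ^ 196 := pow_le_pow_right₀ (by linarith) (by norm_num)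
  have a5 : 16 ≤ c * t := by
    rw [div_le_iff₀ hc] at h3
    linarith
  have a6 : 4 * (t : ℝ) ^ 3 ≤ c * t ^ 196 / 4 := by
    have : (0 : ℝ) ≤ t ^ 3 := by positivity
    nlinarith
  have a7 : C * ((t : ℝ) ^ (2 * n + 202)) ^ 3 ≤ Real.exp t * Real.exp ((6 * n + 606) * t) := by
    refine mul_le_mul (h1.trans (le_exp _)) ?_ (by positivity) (by positivity)
    rw [← pow_mul]
    refine (pow_le_exp _ _).trans (le_of_eq ?_)
    push_cast
    ring_nf
  refine (mul_le_mul a7 (Real.exp_le_exp.2 (neg_le_neg (a6.trans a3))) (by positivity)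
    (by positivity)).trans ?_
  rw [← Real.exp_nat_mul, ← Real.exp_add, ← Real.exp_add, ← Real.exp_add, Real.exp_le_exp]
  have b1 : (6 * n + 607) * (t : ℝ) ≤ t ^ 2 := by nlinarith
  have b2 : 2 * (t : ℝ) ^ 2 ≤ t ^ 3 := by nlinarith
  push_cast
  nlinarith

theorem pg (n : ℕ) : ∀ᶠ t : ℕ in atTop, (t : ℝ) ^ 2 + t ^ 3 + 12 ≤ t ^ (n + 199) := by
  filter_upwards [ge 3] with t h
  have a1 : (t : ℝ) ^ 4 ≤ t ^ (n + 199) := pow_le_pow_right₀ (by linarith) (by omega)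
  have a2 : (9 : ℝ) ≤ t ^ 2 := by nlinarith
  have a3 : 3 * (t : ℝ) ^ 2 ≤ t ^ 3 := by nlinarith
  have a4 : 3 * (t : ℝ) ^ 3 ≤ t ^ 4 := by nlinarith
  linarith

theorem ph (n N : ℕ) : ∀ᶠ t : ℕ in atTop,
    (3 * t + 3 * n + 5) * ((t : ℝ) + 1) ^ N ≤ t ^ (N + 2) := by
  filter_upwards [ge (3 * n + 5), ge (4 * 2 ^ N)] with t h1 h2
  have n0 : (0 : ℝ) ≤ n := by positivity
  have a1 : ((t : ℝ) + 1) ^ N ≤ (2 * t) ^ N := pow_le_pow_left₀ (by positivity) (by linarith) N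
  refine (mul_le_mul (show _ ≤ 4 * (t : ℝ) by linarith) a1 (by positivity) (by positivity)).trans ?_
  have : (0 : ℝ) ≤ t ^ N * t := by positivity
  rw [mul_pow, pow_add]
  nlinarith

theorem pi (n N : ℕ) {η : ℝ} (h : 0 < η) : ∀ᶠ t : ℕ in atTop,
    ((n * t ^ N + 1 : ℕ) : ℝ) ^ n * (2 ^ (n * (3 * t + 3) ^ 2) * Real.exp (-t ^ 3)) ≤ η := by
  filter_upwards [small h, ge (n * (N + 1) + 36 * n + n + 1)] with t h1 h2
  have n0 : (0 : ℝ) ≤ n := by positivity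
  have n1 : (0 : ℝ) ≤ n * (N + 1) := by positivity
  have t1 : (1 : ℝ) ≤ t := by linarith
  have a1 : ((n * t ^ N + 1 : ℕ) : ℝ) ≤ t ^ (N + 1) := by
    have : (1 : ℝ) ≤ t ^ N := one_le_pow₀ t1
    push_cast
    rw [pow_succ]
    nlinarith
  have a2 : ((n * t ^ N + 1 : ℕ) : ℝ) ^ n ≤ Real.exp (n * (N + 1) * t) := by
    refine (pow_le_pow_left₀ (by positivity) a1 n).trans ?_
    rw [← pow_mul]
    refine (pow_le_exp _ _).trans (le_of_eq ?_)
    push_cast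
    ring_nf
  have a3 : (2 : ℝ) ^ (n * (3 * t + 3) ^ 2) ≤ Real.exp (36 * n * t ^ 2) := by
    refine (two_pow_le _).trans (Real.exp_le_exp.2 ?_)
    have : ((3 : ℝ) * t + 3) ^ 2 ≤ 36 * t ^ 2 := by nlinarith
    push_cast
    nlinarith
  refine (mul_le_mul a2 (mul_le_mul_of_nonneg_right a3 (by positivity)) (by positivity)
    (by positivity)).trans (le_trans ?_ h1)
  rw [← Real.exp_add, ← Real.exp_add, Real.exp_le_exp]
  have b1 : (t : ℝ) ≤ t ^ 2 := by nlinarith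
  have b2 : (n * (N + 1) + 36 * n + n + 1) * (t : ℝ) ^ 2 ≤ t ^ 3 := by
    rw [pow_succ' (t : ℝ) 2]
    exact mul_le_mul_of_nonneg_right h2 (by positivity)
  nlinarith [mul_le_mul_of_nonneg_left b1 n1, mul_nonneg n0 (sq_nonneg (t : ℝ))]

theorem cnt_or {X : ℝ} {B B₁ B₂ : ℤ → Prop} (h : ∀ d, B d → B₁ d ∨ B₂ d) :
    cnt X B ≤ cnt X B₁ + cnt X B₂ := by
  unfold cnt
  rw [← Nat.cast_add, Nat.cast_le]
  refine le_trans (card_le_card fun d hd => ?_) (card_union_le _ _)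
  simp only [mem_filter, mem_union] at hd ⊢
  exact (h d hd.2).imp (fun a => ⟨hd.1, a⟩) fun a => ⟨hd.1, a⟩

theorem cnt_ex {X : ℝ} {n : ℕ} (B : Fin n → ℤ → Prop) :
    cnt X (fun d => ∃ i, B i d) ≤ ∑ i, cnt X (B i) := by
  unfold cnt
  rw [← Nat.cast_sum, Nat.cast_le]
  refine le_trans (card_le_card fun d hd => ?_) card_biUnion_le
  simp only [mem_filter, mem_biUnion, mem_univ, true_and] at hd ⊢
  obtain ⟨h1, i, h2⟩ := hd
  exact ⟨i, h1, h2⟩

theorem cnt_mono {X : ℝ} {B B' : ℤ → Prop} (h : ∀ d, B d → B' d) : cnt X B ≤ cnt X B' := by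
  unfold cnt
  rw [Nat.cast_le]
  refine card_le_card fun d hd => ?_
  simp only [mem_filter] at hd ⊢
  exact ⟨hd.1, h d hd.2⟩

theorem lo_spec {n p : ℕ} (hn : 2 ≤ n) (hp : p.Prime) :
    lo n (bx n p) < p ∧ (p : ℝ) ≤ 2 * lo n (bx n p) := by
  have n0 : (2 : ℝ) ≤ n := by exact_mod_cast hn
  have p0 : (0 : ℝ) < p := by exact_mod_cast hp.pos
  have l0 : 0 ≤ Real.log p := Real.log_natCast_nonneg p
  have a1 : (bx n p : ℝ) < n * Real.log p + 1 := Nat.ceil_lt_add_one (by positivity)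
  have a2 : n * Real.log p ≤ bx n p := Nat.le_ceil _
  unfold lo
  constructor
  · rw [← Real.lt_log_iff_exp_lt p0, div_lt_iff₀ (by linarith)]
    linarith
  · have b1 : Real.log p ≤ Real.log 2 + ((bx n p : ℝ) - 1) / n := by
      rw [← sub_le_iff_le_add', le_div_iff₀ (by linarith)]
      nlinarith [Real.log_two_gt_d9]
    rwa [Real.log_le_iff_le_exp p0, Real.exp_add, Real.exp_log two_pos] at b1

end Pool.Agent.Lib.MP_d6ddbd_nt.GO.Par
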