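import Pool.Agent.Lib.MP_d6ddbd_nt.GO.Stmt

/-!
Product partitions and colours.
-/

set_option autoImplicit false

open Finset Function
open scoped Classical

noncomputable section

namespace Pool.Agent.Lib.MP_d6ddbd_nt.GO

theorem part_thm : PartStmt := by
  intro n P B C κ N α β hβ hN h
  have hm : ∀ p ∈ Fintype.piFinset P,
      (fun i => κ i (p i)) ∈ Fintype.piFinset fun i => (P i).image (κ i) := fun p hp =>
    Fintype.mem_piFinset.2 fun i => mem_image_of_mem _ (Fintype.mem_piFinset.1 hp i)
  have e : ∀ c : Fin n → C, (Fintype.piFinset P).filter (fun p => (fun i => κ i (p i)) = c) =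
      Fintype.piFinset fun i => (P i).filter fun p => κ i p = c i := fun c => by
    ext p
    simp only [mem_filter, Fintype.mem_piFinset, funext_iff, forall_and]
  have h1 := card_eq_sum_card_fiberwise hm
  have h2 := card_eq_sum_card_fiberwise (s := (Fintype.piFinset P).filter B)
    fun p hp => hm p (mem_filter.1 hp).1
  have h3 : ((Fintype.piFinset fun i => (P i).image (κ i)).card : ℝ) ≤ N ^ n := by
    rw [Fintype.card_piFinset]
    exact_mod_cast (prod_le_pow_card _ _ N fun i _ => hN i).trans_eq (by simp)
  unfold Bnd at h ⊢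
  rw [h1, h2]
  push_cast
  rw [mul_sum]
  refine (sum_le_sum (g := fun c => α * (((Fintype.piFinset P).filter
    (fun p => (fun i => κ i (p i)) = c)).card : ℝ) + β) fun c _ => ?_).trans ?_
  · rw [filter_comm, e]
    exact h c
  · rw [sum_add_distrib, sum_const, nsmul_eq_mul]
    exact add_le_add_right (mul_le_mul_of_nonneg_right h3 hβ) _

namespace Col

variable {n : ℕ} {P : Fin n → Finset ℕ} {M : Type}

theorem upd {q : Fin n → ℕ} (hq : q ∈ Fintype.piFinset P) {i : Fin n} {a : ℕ} (ha : a ∈ P i) :
    update q i a ∈ Fintype.piFinset P :=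
  Fintype.mem_piFinset.2 fun j => by
    rcases eq_or_ne j i with rfl | h
    · rwa [update_self]
    · rw [update_of_ne h]
      exact Fintype.mem_piFinset.1 hq j

theorem const (F : (Fin n → ℕ) → M)
    (h : ∀ q ∈ Fintype.piFinset P, ∀ i, ∀ a ∈ P i, F (update q i a) = F q) {q q' : Fin n → ℕ}
    (hq : q ∈ Fintype.piFinset P) (hq' : q' ∈ Fintype.piFinset P) : F q' = F q := by
  have key : ∀ T : Finset (Fin n), mix T q q' ∈ Fintype.piFinset P ∧ F (mix T q q') = F q :=
    fun T => by
      induction T using Finset.induction_on with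
      | empty =>
        rw [show mix ∅ q q' = q from funext fun i => if_neg (notMem_empty i)]
        exact ⟨hq, rfl⟩
      | insert j T _ ih =>
        have e : mix (insert j T) q q' = update (mix T q q') j (q' j) := funext fun i => by
          rcases eq_or_ne i j with rfl | h
          · simp [mix]
          · simp [mix, h]
        have m := Fintype.mem_piFinset.1 hq' j
        rw [e]
        exact ⟨upd ih.1 m, (h _ ih.1 j _ m).trans ih.2⟩
  have := (key univ).2
  rwa [show mix univ q q' = q' from funext fun i => if_pos (mem_univ i)] at this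

theorem two [AddCommGroup M] (A : (Fin n → ℕ) → M) (q : Fin n → ℕ) {i j : Fin n} (h : i ≠ j)
    (a b : ℕ) : cb {i, j} A q (update (update q i a) j b) =
      A q - A (update q j b) - (A (update q i a) - A (update (update q i a) j b)) := by
  have e0 : mix ∅ q (update (update q i a) j b) = q := funext fun l => if_neg (notMem_empty l)
  have e1 : mix {j} q (update (update q i a) j b) = update q j b := funext fun l => by
    rcases eq_or_ne l j with rfl | h'
    · simp [mix]
    · simp [mix, h']
  have e2 : mix {i} q (update (update q i a) j b) = update q i a := funext fun l => by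
    rcases eq_or_ne l i with rfl | h'
    · simp [mix, h]
    · simp [mix, h']
  have e3 : mix {i, j} q (update (update q i a) j b) = update (update q i a) j b :=
    funext fun l => by
      rcases eq_or_ne l j with rfl | h'
      · simp [mix]
      · rcases eq_or_ne l i with rfl | h''
        · simp [mix]
        · simp [mix, h', h'']
  have e4 : ({j} : Finset (Fin n)).powerset = {∅, {j}} := rfl
  rw [cb, sum_powerset_insert (by simpa using h), e4, sum_pair (singleton_ne_empty j).symm,
    sum_pair (singleton_ne_empty j).symm, insert_empty, e0, e1, e2, e3, card_pair h]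
  simp only [card_empty, card_singleton, pow_zero, pow_one, one_smul, neg_smul, even_two,
    Even.neg_pow, one_pow]
  abel

theorem half {K : ℕ} (hK : 1 ≤ K) {x : ZMod (2 ^ K)} (h : 2 • x = 0) :
    x ∈ ({0, 2 ^ (K - 1)} : Finset (ZMod (2 ^ K))) := by
  rw [two_nsmul, ← neg_eq_iff_add_eq_zero, ZMod.neg_eq_self_iff] at h
  rcases h with h | h
  · simp [h]
  · have e : x.val = 2 ^ (K - 1) := by
      have : 2 ^ K = 2 ^ (K - 1) * 2 := by rw [← pow_succ, Nat.sub_add_cancel hK]
      omega
    rw [← ZMod.natCast_zmod_val x, e]
    simp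

end Col

open Col in
theorem col_thm : ColStmt := by
  intro n K r P B A hK hF
  rcases (Fintype.piFinset P).eq_empty_or_nonempty with h0 | ⟨p₀, h0⟩
  · refine ⟨fun _ _ => 0, fun i => ?_, fun p hp => by simp [h0] at hp⟩
    refine (card_le_one.2 fun x hx y hy => ?_).trans Nat.one_le_two_pow
    obtain ⟨_, -, rfl⟩ := mem_image.1 hx
    obtain ⟨_, -, rfl⟩ := mem_image.1 hy
    rfl
  refine ⟨fun i a => 2 ^ (K - 2) • A (update p₀ i a), fun i => ?_, fun p hp p' hp' h => ?_⟩
  · refine (card_le_card (t := Fintype.piFinset fun _ : Fin r => Fintype.piFinset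
      fun _ : Fin r => ({0, 2 ^ (K - 1)} : Finset (ZMod (2 ^ K)))) fun x hx => ?_).trans ?_
    · obtain ⟨a, ha, rfl⟩ := mem_image.1 hx
      refine Fintype.mem_piFinset.2 fun k => Fintype.mem_piFinset.2 fun l => half (by omega) ?_
      have := congrFun (congrFun (hF.ev _ (upd h0 ha)) k) l
      rw [show K - 1 = K - 2 + 1 by omega, pow_succ', mul_smul] at this
      exact this
    · simp only [Fintype.card_piFinset, prod_const, card_univ, Fintype.card_fin]
      rw [← pow_mul, ← sq]
      exact Nat.pow_le_pow_left card_le_two _
  · have c2 : ∀ q ∈ Fintype.piFinset P, ∀ j, ∀ a ∈ P j, ∀ b ∈ P j,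
        2 ^ (K - 2) • A (update q j a) - 2 ^ (K - 2) • A (update q j b) =
          2 ^ (K - 2) • A (update p₀ j a) - 2 ^ (K - 2) • A (update p₀ j b) :=
      fun q hq j a ha b hb => const (fun q => 2 ^ (K - 2) • A (update q j a) -
        2 ^ (K - 2) • A (update q j b)) (fun q hq i c hc => by
          rcases eq_or_ne i j with rfl | e
          · simp only [update_idem]
          by_cases e1 : q i = c
          · rw [← e1, update_eq_self]
          by_cases e2 : a = b
          · rw [e2, sub_self, sub_self]
          have := hF.dv {i, j} (update q j a) (upd hq ha) _ (upd (upd (upd hq ha) hc) hb)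
            fun l hl => by
              rcases mem_insert.1 hl with rfl | hl
              · simpa [e] using e1
              · obtain rfl := mem_singleton.1 hl
                simpa using e2
          rw [two A _ e, card_pair e, update_idem, update_comm e.symm, update_idem, smul_sub,
            smul_sub, smul_sub, sub_eq_zero] at this
          exact this.symm) h0 hq
    have s : ∀ i, ∀ a ∈ ({p i, p' i} : Finset ℕ), a ∈ P i ∧
        2 ^ (K - 2) • A (update p₀ i a) = 2 ^ (K - 2) • A (update p₀ i (p i)) := fun i a ha => by
      rcases mem_insert.1 ha with rfl | ha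
      · exact ⟨Fintype.mem_piFinset.1 hp i, rfl⟩
      · obtain rfl := mem_singleton.1 ha
        exact ⟨Fintype.mem_piFinset.1 hp' i, (h i).symm⟩
    refine const (P := fun i => {p i, p' i}) (fun q => 2 ^ (K - 2) • A q) (fun q hq i a ha => ?_)
      (Fintype.mem_piFinset.2 fun i => by simp) (Fintype.mem_piFinset.2 fun i => by simp)
    have m := Fintype.mem_piFinset.1 hq
    have := c2 q (Fintype.mem_piFinset.2 fun l => (s l _ (m l)).1) i a (s i a ha).1 _
      (s i _ (m i)).1
    rwa [(s i a ha).2, (s i _ (m i)).2, sub_self, update_eq_self, sub_eq_zero] at this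

end Pool.Agent.Lib.MP_d6ddbd_nt.GO
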