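import Pool.Agent.Lib.MP_d6ddbd_nt.GO.Defs
import Pool.Agent.Lib.MP_9177b7_ag.B.StE
import Pool.Agent.Shared.FrobeniusDensity

/-!
Density one for the twists of `X₀(11)`: the statements of the counting blocks.
-/

set_option autoImplicit false

open Finset Filter Topology NumberField
open Pool.Agent.Stark (Pr og)
open Pool.Agent.Lib.MP_d6ddbd_nt.K11 Pool.Agent.Lib.MP_d6ddbd_nt.KI
open Pool.Agent.Lib.MP_d6ddbd_nt.GG (sg bnd Opn Chr)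
open Pool.Agent.Lib.MP_9177b7_ag.B (tsumP)
open Pool.Agent.Shared.FrobeniusDensity (Bdd Lim)
open Pool.Agent.Shared.PrimeZeta (nI)
open scoped Classical

noncomputable section

namespace Pool.Agent.Lib.MP_d6ddbd_nt.GO

/-! ### Definitions -/

/-- The additive character modulo `2 ^ K`. -/
def ec {K : ℕ} (a : ZMod (2 ^ K)) : ℂ := ZMod.stdAddChar a

/-- The mean over a product of finite sets. -/
def av {n : ℕ} {α : Type} (Z : Fin n → Finset α) (F : (Fin n → α) → ℂ) : ℂ :=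
  (∑ z ∈ Fintype.piFinset Z, F z) / (Fintype.piFinset Z).card

/-- A vector with changed signs. -/
def sv {K r : ℕ} (γ : Fin r → ZMod 2) (v : Vec K r) : Vec K r := fun l => (-1) ^ (γ l).val * v l

/-- Primes with a sign vector in the direction `i₀`. -/
def ZZ {n : ℕ} (r : ℕ) (P : Fin n → Finset ℕ) (i₀ : Fin n) :
    Fin n → Finset (ℕ × (Fin r → ZMod 2)) := fun i => P i ×ˢ if i = i₀ then univ else {0}

/-- The phase of level `k`. -/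
def Ph {n K r : ℕ} (A : (Fin n → ℕ) → Mat K r) (i₀ : Fin n) (k : ℕ) (x y : Vec K r)
    (z : Fin n → ℕ × (Fin r → ZMod 2)) : ZMod (2 ^ K) :=
  2 ^ (K - 1 - k) • bf (sv (z i₀).2 y) (A fun i => (z i).1) (sv (z i₀).2 x)

/-- The top coefficients cancel on average. -/
def Sv {n K r : ℕ} (δ : ℝ) (P : Fin n → Finset ℕ) (A : (Fin n → ℕ) → Mat K r) (x y : Vec K r)
    (J : Finset (Fin n)) (i₀ i₁ : Fin n) (p p' : Fin n → ℕ) : Prop :=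
  ∃ f : ℕ → ℕ → ZMod 2,
    (∀ l ∈ P i₁, l ≠ p i₁ → Obs J.card y (cb (J.erase i₀) A p (Function.update p' i₁ l)) x →
      Top P A x y J i₀ i₁ p p' l (f l)) ∧
    ∑ l ∈ (P i₁).filter fun l => l ≠ p i₁ ∧
        Obs J.card y (cb (J.erase i₀) A p (Function.update p' i₁ l)) x,
      |∑ a ∈ P i₀, sg (f l a)| ≤ δ * (P i₀).card * (P i₁).card

/-- A bound for the number of bad tuples. -/
def Bnd {n : ℕ} (B : (Fin n → ℕ) → Prop) (P : Fin n → Finset ℕ) (α β : ℝ) : Prop :=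
  (((Fintype.piFinset P).filter B).card : ℝ) ≤ α * (Fintype.piFinset P).card + β

/-- The index of the box of `p`. -/
def bx (n p : ℕ) : ℕ := ⌈(n : ℝ) * Real.log p⌉₊

/-- The lower end of a box. -/
def lo (n b : ℕ) : ℝ := Real.exp (((b : ℝ) - 1) / n)

/-- The primes of the boxes `b` that do not divide `d₀`. -/
def cells {n : ℕ} (I : Fin n → Finset ℕ) (d₀ : ℤ) (b : Fin n → ℕ) : Fin n → Finset ℕ :=
  fun i => (I i).filter fun p => bx n p = b i ∧ ¬ (p : ℤ) ∣ d₀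

/-- The number of prime factors. -/
def om' (d : ℤ) : ℕ := d.natAbs.primeFactors.card

/-- The number of integers of absolute value at most `X` with a property. -/
def cnt (X : ℝ) (B : ℤ → Prop) : ℝ := ((Icc (-⌊X⌋) ⌊X⌋).filter B).card

/-- The indicator of a set. -/
def ind (S : Set ℕ) (p : ℕ) : ℝ := if p ∈ S then 1 else 0

section Cubic

variable {L : Type} [Field L] [NumberField L]

/-- Every Selmer class is detected by a prime of the pool. -/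
def Det (θ : L) (Kg : ℕ → Prop) (S : Finset ℕ) (d : ℤ) : Prop :=
  ∀ α, SelC θ d α → ¬ IsSquare α → ∃ q ∈ S, q.Prime ∧ Kg q ∧ ¬ (q : ℤ) ∣ d ∧ fv q α = 1

/-- `α` has even valuation at the primes outside `T`. -/
def Ev (T : Finset ℕ) (α : L) : Prop :=
  α ≠ 0 ∧ ∀ l : ℕ, l.Prime → l ∉ T → ∀ 𝔭 ∈ ab L l, Even (og 𝔭 α)

/-- The primes with a prime of degree one at which `α` is not a square. -/
def Ns (T : Finset ℕ) (α : L) (p : ℕ) : Prop :=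
  p ∉ T ∧ p ≠ 2 ∧ p ≠ 11 ∧ ∃ 𝔭 ∈ ab L p, nm 𝔭 = p ∧ nsq 𝔭 α = 1

end Cubic

/-! ### E: kernels, box norms, signs -/

/-- A majorant for the matrices with two independent kernel vectors. -/
def KerStmt : Prop := ∀ (K r : ℕ) (A₀ : Mat K r), 3 ≤ K → 2 ^ (K - 1) • A₀ = 0 →
  ∃ (Y : Finset (Vec K r × Vec K r)) (c : Vec K r × Vec K r → ℝ), (∀ t, 0 ≤ c t ∧ c t ≤ 1) ∧
    (∀ t ∈ Y, ∃ (k : ℕ) (y : Vec K r), 2 ≤ k ∧ k ≤ K - 1 ∧ Ind t.1 y ∧ t.2 = 2 ^ (K - 1 - k) • y) ∧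
    ∀ A : Mat K r, 2 ^ (K - 2) • A = 2 ^ (K - 2) • A₀ →
      0 ≤ 32 / 2 ^ K + ∑ t ∈ Y, c t * (ec (bf t.2 A t.1)).re ∧
      ((∃ v w, Ind v w ∧ A.mulVec v = 0 ∧ A.mulVec w = 0) →
        1 ≤ 32 / 2 ^ K + ∑ t ∈ Y, c t * (ec (bf t.2 A t.1)).re)

/-- The box norm inequality. -/
def CsStmt : Prop := ∀ (n K : ℕ) (α : Type) (Z : Fin n → Finset α)
  (Φ : (Fin n → α) → ZMod (2 ^ K)) (J : Finset (Fin n)), (∀ i, (Z i).Nonempty) →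
  ‖av Z fun z => ec (Φ z)‖ ^ 2 ^ J.card ≤ ‖av Z fun z => av Z fun z' => ec (cb J Φ z z')‖

/-- The effect of the signs. -/
def SgaStmt : Prop := ∀ (K r k : ℕ) (M₀ M₁ : Mat K r) (x y : Vec K r) (γ₀ γ₁ : Fin r → ZMod 2),
  1 ≤ k → k ≤ K - 1 → 2 ^ (K - k) • (M₀ - M₁) = 0 → 2 ^ (K - k + 1) • M₁ = 0 →
  2 ^ (K - 1 - k) • (bf (sv γ₀ y) M₀ (sv γ₀ x) - bf (sv γ₁ y) M₁ (sv γ₁ x)) =
    2 ^ (K - 1 - k) • bf y (M₀ - M₁) x + ∑ l, (γ₀ l + γ₁ l).val •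
      2 ^ (K - k) • (y l * M₁.mulVec x l + Matrix.vecMul y M₁ l * x l)

/-- The mean over the cubes. -/
def SgnStmt : Prop := ∀ (n K r : ℕ) (P : Fin n → Finset ℕ) (B : (Fin n → ℕ) → Prop)
  (A : (Fin n → ℕ) → Mat K r) (x y : Vec K r) (J : Finset (Fin n)) (i₀ i₁ : Fin n) (δ : ℝ),
  Fm P B A → i₀ ∈ J → i₁ ∈ J → i₀ ≠ i₁ → J.card ≤ K - 1 → (∀ i, 1 ≤ δ * (P i).card) →
  (∀ p ∈ Fintype.piFinset P, ∀ p' ∈ Fintype.piFinset P, Dis ((J.erase i₀).erase i₁) p p' →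
    Sv δ P A x y J i₀ i₁ p p') →
  ‖av (ZZ r P i₀) fun z => av (ZZ r P i₀) fun z' => ec (cb J (Ph A i₀ J.card x y) z z')‖ ≤
    (n + 2) * δ

/-- The bound in a cell of one colour. -/
def CubeStmt : Prop := ∀ (n r : ℕ) (P : Fin n → Finset ℕ) (B : (Fin n → ℕ) → Prop)
  (A : (Fin n → ℕ) → Mat (n + 1) r) (δ a : ℝ), 2 ≤ n → Fm P B A →
  (∀ p ∈ Fintype.piFinset P, ∀ p' ∈ Fintype.piFinset P, 2 ^ (n - 1) • A p = 2 ^ (n - 1) • A p') →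
  (∀ i, 1 ≤ δ * (P i).card) → 0 ≤ a → (n + 2) * δ ≤ a ^ 2 ^ n →
  (∀ x y, Ind x y → ∀ (J : Finset (Fin n)) i₀ i₁, i₀ ∈ J → i₁ ∈ J → i₀ ≠ i₁ →
    ∀ p ∈ Fintype.piFinset P, ∀ p' ∈ Fintype.piFinset P, Dis ((J.erase i₀).erase i₁) p p' →
      Sv δ P A x y J i₀ i₁ p p') →
  Bnd B P (16 / 2 ^ n + 4 ^ ((n + 1) * r) * a) 0

/-- Product partitions. -/
def PartStmt : Prop := ∀ (n : ℕ) (P : Fin n → Finset ℕ) (B : (Fin n → ℕ) → Prop) (C : Type)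
  (κ : Fin n → ℕ → C) (N : ℕ) (α β : ℝ), 0 ≤ β → (∀ i, ((P i).image (κ i)).card ≤ N) →
  (∀ c : Fin n → C, Bnd B (fun i => (P i).filter fun p => κ i p = c i) α β) →
  Bnd B P α (N ^ n * β)

/-- Colours. -/
def ColStmt : Prop := ∀ (n K r : ℕ) (P : Fin n → Finset ℕ) (B : (Fin n → ℕ) → Prop)
  (A : (Fin n → ℕ) → Mat K r), 2 ≤ K → Fm P B A →
  ∃ κ : Fin n → ℕ → Mat K r, (∀ i, ((P i).image (κ i)).card ≤ 2 ^ r ^ 2) ∧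
    ∀ p ∈ Fintype.piFinset P, ∀ p' ∈ Fintype.piFinset P, (∀ i, κ i (p i) = κ i (p' i)) →
      2 ^ (K - 2) • A p = 2 ^ (K - 2) • A p'

/-- The numerical hypotheses of the local bounds. -/
structure Num {n : ℕ} (C c : ℝ) (P : Fin n → Finset ℕ) (y : Fin n → ℝ) (Λ V τ δ a : ℝ) : Prop where
  bx : ∀ i, ∀ p ∈ P i, y i < p ∧ (p : ℝ) ≤ 2 * y i
  y11 : ∀ i, 11 ≤ y i
  V0 : 0 ≤ V
  lo : ∀ i, V ≤ Real.log (y i)
  t0 : 0 < τ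
  sv : C * Λ ^ 3 * Real.exp (-(c * V ^ 2 / Λ)) ≤ δ * τ ^ 2
  dg : ∀ i, 1 ≤ δ * τ * y i
  a0 : 0 ≤ a
  cs : (n + 2) * δ ≤ a ^ 2 ^ n

/-- The bound in a cell with a valid set of primes. -/
def Loc1Stmt : Prop := ∀ n D C Kg Val J₀, 2 ≤ n → Alg n D C Kg Val J₀ →
  ∃ C' c' : ℝ, 0 < C' ∧ 0 < c' ∧ ∀ (d₀ : ℤ) (P : Fin n → Finset ℕ) (Q : Finset ℕ) (y : Fin n → ℝ)
    (Λ V τ δ a : ℝ), Fam d₀ → Cell d₀ Q P → (∀ p ∈ Fintype.piFinset P, Val (dd d₀ p) Q) →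
    (∀ q ∈ Q, q.Prime ∧ nr q = 1) → Num C' c' P y Λ V τ δ a →
    22 * |(d₀ : ℝ)| * (∏ q ∈ Q, (q : ℝ)) * ∏ i, (2 * y i) ^ 3 ≤ Real.exp Λ →
    Bnd (fun p => ¬ Two (dd d₀ p) n) P (16 / 2 ^ n + 4 ^ ((n + 1) * Q.card) * a)
      ((2 ^ Q.card ^ 2) ^ n * (τ * 2 ^ n * ∏ i, y i))

/-- The bound in a product of boxes. -/
def Loc2Stmt : Prop := ∀ n D C Kg Val J₀, 2 ≤ n → Alg n D C Kg Val J₀ →
  ∃ C' c' : ℝ, 0 < C' ∧ 0 < c' ∧ ∀ (L : Type) [Field L] [NumberField L] (θ : L), Cub θ →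
    ∀ (d₀ : ℤ) (P : Fin n → Finset ℕ) (S : Finset ℕ) (y : Fin n → ℝ) (Λ V τ δ a Z : ℝ) (ρ : ℕ),
    Fam d₀ → (∀ i, ∀ p ∈ P i, T3 d₀ p) → (∀ i j, i ≠ j → Disjoint (P i) (P j)) →
    Num C' c' P y Λ V τ δ a → 2 * (om' d₀ + n) + C + 3 ≤ ρ → 1 ≤ Z → (∀ q ∈ S, (q : ℝ) ≤ Z) →
    22 * |(d₀ : ℝ)| * Z ^ ρ * ∏ i, (2 * y i) ^ 3 ≤ Real.exp Λ →
    Bnd (fun p => ¬ Two (dd d₀ p) n ∧ Det θ Kg S (dd d₀ p)) P (16 / 2 ^ n + 4 ^ ((n + 1) * ρ) * a)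
      (2 ^ (n * (ρ + 3) ^ 2) * (τ * ∏ i, y i))

/-- From the boxes to the integers. -/
def SumStmt : Prop := ∀ (n : ℕ) (I : Fin n → Finset ℕ) (B : ℤ → Prop) (X α β : ℝ) (N : ℕ),
  1 ≤ n → 0 ≤ X → 0 ≤ α → 0 ≤ β → (∀ i, ∀ p ∈ I i, p.Prime ∧ p ≠ 2) →
  (∀ i j, i ≠ j → Disjoint (I i) (I j)) → (∀ i, ((I i).image (bx n)).card ≤ N) →
  (∀ d, B d → Squarefree d ∧ ∀ i, ∃ p ∈ I i, (p : ℤ) ∣ d) →
  (∀ (d₀ : ℤ) (b : Fin n → ℕ),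
    (∃ p ∈ Fintype.piFinset (cells I d₀ b), B (dd d₀ p) ∧ |(dd d₀ p : ℝ)| ≤ X) →
    Bnd (fun p => B (dd d₀ p)) (cells I d₀ b) α (β * ∏ i, lo n (b i))) →
  cnt X B ≤ 6 * X * (α + N ^ n * β)

/-- Many prime factors, divisors from a list, and the sieve. -/
def ExStmt : Prop :=
  (∀ X y : ℝ, 1 ≤ X → 0 < y →
    cnt X (fun d => d ≠ 0 ∧ y < 2 ^ om' d) ≤ 2 * X * (1 + Real.log X) / y) ∧
  (∀ (X : ℝ) (S : Finset ℕ), 0 ≤ X → (∀ q ∈ S, q ≠ 0) →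
    cnt X (fun d => d ≠ 0 ∧ ∃ q ∈ S, (q : ℤ) ∣ d) ≤ 2 * X * ∑ q ∈ S, 1 / (q : ℝ)) ∧
  ∃ δ C : ℝ, 0 < δ ∧ δ ≤ 1 ∧ 0 < C ∧ ∀ (X : ℝ) (S : Finset ℕ), 1 ≤ X →
    (∀ q ∈ S, q.Prime ∧ (q : ℝ) ≤ X ^ δ) →
    cnt X (fun d => ∀ q ∈ S, ¬ (q : ℤ) ∣ d) ≤ C * X * Real.exp (-∑ q ∈ S, 1 / (q : ℝ))

/-! ### D: the pool -/

/-- Sets of primes of positive density. -/
def FdStmt : Prop :=
  (∀ J : Finset ℂ, Al J → ∃ (S : Set ℕ) (δ : ℝ), 0 < δ ∧ Lim (ind S) δ ∧ ∀ q ∈ S, q.Prime →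
    ∃ (O : ValuationSubring ℂ) (φ : G), Ov O q ∧ Frob O q φ ∧ Ag J φ cj) ∧
  ∃ (S : Set ℕ) (δ : ℝ), 0 < δ ∧ Lim (ind S) δ ∧ ∀ p ∈ S, p.Prime → p ≠ 2 → p ≠ 11 → nr p = 0

/-- Truncated prime sums. -/
def RngStmt : Prop := ∀ (c : ℕ → ℝ) (δ : ℝ), Bdd c → Lim c δ →
  Tendsto (fun x : ℝ => tsumP c x / Real.log (Real.log x)) atTop (𝓝 δ) ∧
  ∀ k : ℕ, 1 ≤ k → Tendsto (fun t : ℕ => (tsumP c (Real.exp (t ^ (k + 1))) -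
    tsumP c (Real.exp (t ^ k))) / Real.log t) atTop (𝓝 δ)

/-- The pool. -/
def PoolStmt : Prop := ∀ (T : Set ℕ) (δ : ℝ) (k : ℕ), 0 < δ → Lim (ind T) δ → 1 ≤ k →
  ∀ᶠ t : ℕ in atTop, ∃ (y : ℝ) (S : Finset ℕ), 0 < y ∧ (t : ℝ) ^ k ≤ Real.log y ∧
    Real.log y ≤ (t : ℝ) ^ (k + 1) ∧ (∀ q ∈ S, q.Prime ∧ q ∈ T ∧ y < q ∧ (q : ℝ) ≤ 2 * y) ∧
    y ≤ 2 * (t : ℝ) ^ (k + 1) * S.card ∧ ∑ q ∈ S, 1 / (q : ℝ) ≤ 1 / t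

/-- Classes that ramify at a large prime. -/
def LargeStmt : Prop := ∀ (L : Type) [Field L] [NumberField L] (θ : L), Cub θ →
  ∃ C c : ℝ, 0 < C ∧ 0 < c ∧ ∀ (X y z Λ : ℝ) (S : Finset ℕ), 1 ≤ X → 11 ≤ y → 11 ≤ z →
    Real.log X ≤ Λ → Real.log y ≤ Λ → (∀ q ∈ S, q.Prime ∧ nr q = 1 ∧ y < q ∧ (q : ℝ) ≤ 2 * y) →
    cnt X (fun d => Fam d ∧ (∀ q ∈ S, ¬ (q : ℤ) ∣ d) ∧ ∃ α, SelC θ d α ∧ (∀ q ∈ S, fv q α = 0) ∧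
      ∃ l : ℕ, l.Prime ∧ z < l ∧ ∃ 𝔭 ∈ ab L l, Odd (og 𝔭 α)) * S.card ≤
      C * X * Λ ^ 4 * y * Real.exp (-(c * Real.log y * Real.log z / Λ))

/-- The number of classes with given ramification. -/
def ClsStmt : Prop := ∀ (L : Type) [Field L] [NumberField L] (θ : L), Cub θ →
  ∃ C : ℕ, ∀ T : Finset ℕ, (∀ l ∈ T, l.Prime) → ∃ s : Finset L, s.card ≤ C * 8 ^ T.card ∧
    ∀ α, Ev T α → ∃ β ∈ s, ∃ γ : L, γ ≠ 0 ∧ α = β * γ ^ 2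

/-- The quadratic extension of the cubic field. -/
def QdStmt : Prop := ∀ (L : Type) [Field L] [NumberField L] (θ : L), Cub θ →
  ∀ (T : Finset ℕ) (α : L), (∀ l ∈ T, l.Prime) → Ev T α → ¬ IsSquare α →
    ∃ (M : Type) (_ : Field M) (_ : NumberField M), Module.finrank ℚ M = 6 ∧
      (discr M).natAbs ≤ (22 * ∏ l ∈ T, l) ^ 36 ∧
      ∀ p : ℕ, p.Prime → p ∉ T → p ≠ 2 → p ≠ 11 → ¬ Ns T α p → 2 * nI L p ≤ nI M p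

/-- Many primes at which a class is not a square. -/
def PsStmt : Prop := ∀ (L : Type) [Field L] [NumberField L] (θ : L), Cub θ →
  ∃ C x₀ : ℝ, ∀ (T : Finset ℕ) (α : L) (x : ℝ), (∀ l ∈ T, l.Prime) → Ev T α → ¬ IsSquare α →
    x₀ ≤ x → Real.log (3 * ∏ l ∈ T, (l : ℝ)) ^ 2 ≤ Real.log x →
    Real.log (Real.log x) / 7 - 3 * Real.log (Real.log (3 * ∏ l ∈ T, (l : ℝ))) - C ≤
      tsumP (ind {p | Ns T α p}) x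

/-- Classes that ramify only at small primes. -/
def SmallStmt : Prop := ∀ (L : Type) [Field L] [NumberField L] (θ : L), Cub θ →
  ∀ (N : ℕ) (ε : ℝ), 200 ≤ N → 0 < ε → ∀ᶠ t : ℕ in atTop, ∀ X : ℝ, Real.exp (t ^ N) ≤ X →
    cnt X (fun d => Fam d ∧ om' d ≤ t ∧ ∃ α, SelC θ d α ∧ ¬ IsSquare α ∧
      ∀ l : ℕ, l.Prime → Real.exp (t ^ 2) < l → ∀ 𝔭 ∈ ab L l, Even (og 𝔭 α)) ≤ ε * X

/-- Almost all twists are detected by the pool. -/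
def DetStmt : Prop := ∀ n D C Kg Val J₀, Alg n D C Kg Val J₀ →
  ∀ (L : Type) [Field L] [NumberField L] (θ : L), Cub θ → ∀ (N : ℕ) (ε : ℝ), 200 ≤ N → 0 < ε →
    ∀ᶠ t : ℕ in atTop, ∃ S : Finset ℕ, (∀ q ∈ S, (q : ℝ) ≤ Real.exp (t ^ N + 1)) ∧
      ∀ X : ℝ, Real.exp (t ^ N) ≤ X → X ≤ Real.exp ((t + 1) ^ N) →
        cnt X (fun d => Fam d ∧ om' d ≤ t ∧ ¬ Det θ Kg S d) ≤ ε * X

/-! ### The end -/

/-- The density of the twists with a large divisible part. -/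
def DenStmt : Prop := ∀ (n : ℕ) (ε : ℝ), 2 ≤ n → 0 < ε →
  ∀ᶠ X : ℝ in atTop, cnt X (fun d => Fam d ∧ ¬ Two d n) ≤ (96 / 2 ^ n + ε) * X

/-- The bound on the Selmer groups. -/
def BdStmt : Prop := ∀ (d : ℤ) (j : ℕ), Fam d → Two d j → Bd d

/-- Density one. -/
def OneStmt : Prop := Tendsto (fun X : ℝ => cnt X (fun d => Fam d ∧ ¬ Bd d) / X) atTop (𝓝 0)

end Pool.Agent.Lib.MP_d6ddbd_nt.GO
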